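import Pool.Agent.Q109.CP.Stm

set_option autoImplicit false

/-!
# CP-CMP: comparison of the densities by unimodal telescoping
-/

namespace Q257.CP

open MeasureTheory Set Filter Topology
open Q109.CP

/-- the product of the values, of the steps and of the increments -/
lemma prods_succ {K : ℕ} (F : ℝ → ℝ) (H : ℝ → ℝ → ℝ) (x : Fin (K + 1 + 1) → ℝ) :
    (∏ i, F (x i)) = (∏ i, F (x (Fin.castSucc i))) * F (x (Fin.last (K + 1))) ∧
    (∏ i : Fin (K + 1), H (x i.succ) (x i.castSucc)) =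
      (∏ i : Fin K, H (x (i.succ).castSucc) (x (i.castSucc).castSucc)) *
        H (x (Fin.last (K + 1))) (x (Fin.last K).castSucc) := by
  constructor
  · rw [Fin.prod_univ_castSucc]
  · rw [Fin.prod_univ_castSucc]
    simp only [Fin.succ_last, Fin.succ_castSucc]

/-- unimodal telescoping -/
theorem tele {f g : ℝ → ℝ} {c : ℝ} (_hc : c ∈ Icc (0 : ℝ) 1) (h0 : ∀ x ∈ Icc (0 : ℝ) 1, 0 ≤ f x ∧ f x ≤ 1)
    (hm : MonotoneOn f (Icc 0 c)) (ha : AntitoneOn f (Icc c 1))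
    (hlow : ∀ u w m, 0 ≤ u → u ≤ w → w ≤ 1 → (∀ t ∈ Icc u w, m ≤ f t) → m * (w - u) ≤ g w - g u)
    (hup : ∀ u w m, 0 ≤ u → u ≤ w → w ≤ 1 → (∀ t ∈ Icc u w, f t ≤ m) → g w - g u ≤ m * (w - u)) :
    ∀ (K : ℕ) (x : Fin (K + 1) → ℝ), StrictMono x → (∀ i, x i ∈ Icc (0 : ℝ) 1) →
    ((x (Fin.last K) ≤ c → (∏ i : Fin K, f (x i.castSucc)) * (∏ i : Fin K, (x i.succ - x i.castSucc)) ≤
        ∏ i : Fin K, (g (x i.succ) - g (x i.castSucc))) ∧
      (∏ i, f (x i)) * (∏ i : Fin K, (x i.succ - x i.castSucc)) ≤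
        ∏ i : Fin K, (g (x i.succ) - g (x i.castSucc))) ∧
    ((x (Fin.last K) ≤ c → f (x 0) * (∏ i : Fin K, (g (x i.succ) - g (x i.castSucc))) ≤
        (∏ i, f (x i)) * (∏ i : Fin K, (x i.succ - x i.castSucc))) ∧
      f (x 0) * f (x (Fin.last K)) * (∏ i : Fin K, (g (x i.succ) - g (x i.castSucc))) ≤
        (∏ i, f (x i)) * (∏ i : Fin K, (x i.succ - x i.castSucc))) := by
  have hgm : ∀ u w, 0 ≤ u → u ≤ w → w ≤ 1 → 0 ≤ g w - g u := by
    intro u w hu huw hw
    have := hlow u w 0 hu huw hw fun t ht => (h0 t ⟨hu.trans ht.1, ht.2.trans hw⟩).1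
    linarith
  intro K
  induction K with
  | zero =>
    intro x hx hI
    have h1 := h0 (x 0) (hI 0)
    have e1 : (∏ i : Fin (0 + 1), f (x i)) = f (x 0) := Fin.prod_univ_one _
    have e2 : ∀ F : Fin 0 → ℝ, (∏ i : Fin 0, F i) = 1 := fun F => Fin.prod_univ_zero _
    have e3 : x (Fin.last 0) = x 0 := rfl
    rw [e1, e2, e2, e2, e3]
    refine ⟨⟨fun _ => by norm_num, by linarith [h1.2]⟩, ⟨fun _ => by linarith, ?_⟩⟩
    nlinarith [h1.1, h1.2]
  | succ K ih =>
    intro x hx hI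
    set x' : Fin (K + 1) → ℝ := fun i => x i.castSucc with hx'
    have hx'm : StrictMono x' := fun i j hij => hx (Fin.castSucc_lt_castSucc_iff.2 hij)
    obtain ⟨⟨u1, u2⟩, ⟨l1, l2⟩⟩ := ih x' hx'm fun i => hI _
    set w : ℝ := x' (Fin.last K) with hw
    set y : ℝ := x (Fin.last (K + 1)) with hy
    have hwy : w < y := hx (Fin.castSucc_lt_last _)
    have hw01 : w ∈ Icc (0 : ℝ) 1 := hI _
    have hy01 : y ∈ Icc (0 : ℝ) 1 := hI _
    have hfw := h0 w hw01
    have hfy := h0 y hy01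
    have hf0 := h0 (x 0) (hI 0)
    have ex0 : x' 0 = x 0 := rfl
    have e1 : (∏ i, f (x i)) = (∏ i, f (x' i)) * f y := (prods_succ f (fun a b => a - b) x).1
    have e2 : (∏ i : Fin (K + 1), (x i.succ - x i.castSucc)) =
        (∏ i : Fin K, (x' i.succ - x' i.castSucc)) * (y - w) :=
      (prods_succ f (fun a b => a - b) x).2
    have e3 : (∏ i : Fin (K + 1), (g (x i.succ) - g (x i.castSucc))) =
        (∏ i : Fin K, (g (x' i.succ) - g (x' i.castSucc))) * (g y - g w) :=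
      (prods_succ f (fun a b => g a - g b) x).2
    have e4 : (∏ i : Fin (K + 1), f (x i.castSucc)) = ∏ i, f (x' i) := rfl
    rw [e1, e2, e3, e4]
    rw [ex0] at l1 l2
    have e5 : (∏ i, f (x' i)) = (∏ i : Fin K, f (x' i.castSucc)) * f w := by
      rw [Fin.prod_univ_castSucc]
    set A : ℝ := ∏ i : Fin K, f (x' i.castSucc) with hA
    set Φ : ℝ := ∏ i, f (x' i) with hΦ
    set d : ℝ := ∏ i : Fin K, (x' i.succ - x' i.castSucc) with hd
    set D : ℝ := ∏ i : Fin K, (g (x' i.succ) - g (x' i.castSucc)) with hD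
    have hA0 : 0 ≤ A := Finset.prod_nonneg fun i _ => (h0 _ (hI _)).1
    have hΦ0 : 0 ≤ Φ := Finset.prod_nonneg fun i _ => (h0 _ (hI _)).1
    have hd0 : 0 ≤ d := Finset.prod_nonneg fun i _ => sub_nonneg.2 (hx'm (Fin.castSucc_lt_succ)).le
    have hD0 : 0 ≤ D := Finset.prod_nonneg fun i _ =>
      hgm _ _ (hI _).1 (hx'm (Fin.castSucc_lt_succ)).le (hI _).2
    have hs0 : 0 ≤ y - w := by linarith
    have hS0 : 0 ≤ g y - g w := hgm w y hw01.1 hwy.le hy01.2
    have hSle : g y - g w ≤ y - w := by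
      have := hup w y 1 hw01.1 hwy.le hy01.2 fun t ht => (h0 t ⟨hw01.1.trans ht.1, ht.2.trans hy01.2⟩).2
      linarith
    rcases le_or_gt y c with hyc | hyc
    · -- increasing part
      have hmw : ∀ t ∈ Icc w y, f w ≤ f t ∧ f t ≤ f y := fun t ht =>
        ⟨hm ⟨hw01.1, hwy.le.trans hyc⟩ ⟨hw01.1.trans ht.1, ht.2.trans hyc⟩ ht.1,
          hm ⟨hw01.1.trans ht.1, ht.2.trans hyc⟩ ⟨hy01.1, hyc⟩ ht.2⟩
      have b1 := hlow w y (f w) hw01.1 hwy.le hy01.2 fun t ht => (hmw t ht).1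
      have b2 := hup w y (f y) hw01.1 hwy.le hy01.2 fun t ht => (hmw t ht).2
      have hwc : w ≤ c := hwy.le.trans hyc
      have c1 : Φ * (d * (y - w)) ≤ D * (g y - g w) := by
        rw [e5]
        calc A * f w * (d * (y - w)) = (A * d) * (f w * (y - w)) := by ring
          _ ≤ D * (g y - g w) := mul_le_mul (u1 hwc) b1 (mul_nonneg hfw.1 hs0) hD0
      have c2 : f (x 0) * (D * (g y - g w)) ≤ Φ * f y * (d * (y - w)) := by
        calc f (x 0) * (D * (g y - g w)) = (f (x 0) * D) * (g y - g w) := by ring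
          _ ≤ (Φ * d) * (f y * (y - w)) := mul_le_mul (l1 hwc) b2 hS0 (mul_nonneg hΦ0 hd0)
          _ = _ := by ring
      refine ⟨⟨fun _ => c1, ?_⟩, ⟨fun _ => c2, ?_⟩⟩
      · calc Φ * f y * (d * (y - w)) = f y * (Φ * (d * (y - w))) := by ring
          _ ≤ 1 * (Φ * (d * (y - w))) := mul_le_mul_of_nonneg_right hfy.2
              (mul_nonneg hΦ0 (mul_nonneg hd0 hs0))
          _ ≤ _ := by rw [one_mul]; exact c1
      · calc f (x 0) * f y * (D * (g y - g w)) = f y * (f (x 0) * (D * (g y - g w))) := by ring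
          _ ≤ 1 * (f (x 0) * (D * (g y - g w))) := mul_le_mul_of_nonneg_right hfy.2
              (mul_nonneg hf0.1 (mul_nonneg hD0 hS0))
          _ ≤ _ := by rw [one_mul]; exact c2
    · rcases le_or_gt w c with hwc | hwc
      · -- the step over the mode
        have hmw : ∀ t ∈ Icc w y, f w * f y ≤ f t := by
          intro t ht
          have ht01 : t ∈ Icc (0 : ℝ) 1 := ⟨hw01.1.trans ht.1, ht.2.trans hy01.2⟩
          rcases le_total t c with htc | htc
          · have := hm ⟨hw01.1, hwc⟩ ⟨ht01.1, htc⟩ ht.1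
            nlinarith [hfw.1, hfy.2, hfy.1]
          · have := ha ⟨htc, ht01.2⟩ ⟨hyc.le, hy01.2⟩ ht.2
            nlinarith [hfw.1, hfw.2, hfy.1]
        have b1 := hlow w y (f w * f y) hw01.1 hwy.le hy01.2 hmw
        refine ⟨⟨fun h => absurd h (not_le.2 hyc), ?_⟩, ⟨fun h => absurd h (not_le.2 hyc), ?_⟩⟩
        · rw [e5]
          calc A * f w * f y * (d * (y - w)) = (A * d) * (f w * f y * (y - w)) := by ring
            _ ≤ D * (g y - g w) := mul_le_mul (u1 hwc) b1 (mul_nonneg (mul_nonneg hfw.1 hfy.1) hs0) hD0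
        · calc f (x 0) * f y * (D * (g y - g w)) = f y * ((f (x 0) * D) * (g y - g w)) := by ring
            _ ≤ f y * ((Φ * d) * (y - w)) := mul_le_mul_of_nonneg_left
                (mul_le_mul (l1 hwc) hSle hS0 (mul_nonneg hΦ0 hd0)) hfy.1
            _ = _ := by ring
      · -- decreasing part
        have hmw : ∀ t ∈ Icc w y, f y ≤ f t ∧ f t ≤ f w := fun t ht =>
          ⟨ha ⟨hwc.le.trans ht.1, ht.2.trans hy01.2⟩ ⟨hyc.le, hy01.2⟩ ht.2,
            ha ⟨hwc.le, hw01.2⟩ ⟨hwc.le.trans ht.1, ht.2.trans hy01.2⟩ ht.1⟩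
        have b1 := hlow w y (f y) hw01.1 hwy.le hy01.2 fun t ht => (hmw t ht).1
        have b2 := hup w y (f w) hw01.1 hwy.le hy01.2 fun t ht => (hmw t ht).2
        refine ⟨⟨fun h => absurd h (not_le.2 hyc), ?_⟩, ⟨fun h => absurd h (not_le.2 hyc), ?_⟩⟩
        · calc Φ * f y * (d * (y - w)) = (Φ * d) * (f y * (y - w)) := by ring
            _ ≤ D * (g y - g w) := mul_le_mul u2 b1 (mul_nonneg hfy.1 hs0) hD0
        · calc f (x 0) * f y * (D * (g y - g w)) = f (x 0) * D * f y * (g y - g w) := by ring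
            _ ≤ f (x 0) * D * f y * (f w * (y - w)) :=
                mul_le_mul_of_nonneg_left b2 (mul_nonneg (mul_nonneg hf0.1 hD0) hfy.1)
            _ = (f (x 0) * f w * D) * (f y * (y - w)) := by ring
            _ ≤ (Φ * d) * (f y * (y - w)) :=
                mul_le_mul_of_nonneg_right l2 (mul_nonneg hfy.1 hs0)
            _ = _ := by ring

lemma phi_pow (p q r : ℕ) {x : ℝ} (hx : x ∈ Icc (0 : ℝ) 1) :
    phi p q r x ^ (q + 1) = x ^ p * (1 - x) ^ r := by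
  have h1 : 0 ≤ 1 - x := by linarith [hx.2]
  have hq : ((q : ℝ) + 1) ≠ 0 := by positivity
  have e : ∀ (y : ℝ) (k : ℕ), 0 ≤ y → (y ^ ((k : ℝ) / ((q : ℝ) + 1))) ^ (q + 1) = y ^ k := by
    intro y k hy
    rw [← Real.rpow_natCast, ← Real.rpow_mul hy]
    have : (k : ℝ) / ((q : ℝ) + 1) * ((q + 1 : ℕ) : ℝ) = (k : ℝ) := by
      push_cast
      field_simp
    rw [this, Real.rpow_natCast]
  unfold phi
  rw [mul_pow, e x p hx.1, e (1 - x) r h1]

lemma phi_ge (p q r : ℕ) {x : ℝ} (hx : x ∈ Ioo (0 : ℝ) 1) : (x * (1 - x)) ^ (p + r) ≤ phi p q r x := by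
  have h1 : 0 < 1 - x := by linarith [hx.2]
  have e : ∀ (y : ℝ) (k : ℕ), 0 < y → y ≤ 1 → k ≤ p + r → y ^ (p + r) ≤ y ^ ((k : ℝ) / ((q : ℝ) + 1)) := by
    intro y k hy hy1 hk
    rw [← Real.rpow_natCast]
    apply Real.rpow_le_rpow_of_exponent_ge hy hy1
    have : (k : ℝ) / ((q : ℝ) + 1) ≤ k := div_le_self (Nat.cast_nonneg _) (by
      have : (0 : ℝ) ≤ q := Nat.cast_nonneg _
      linarith)
    have h3 : (k : ℝ) ≤ ((p + r : ℕ) : ℝ) := by exact_mod_cast hk
    linarith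
  unfold phi
  rw [mul_pow]
  exact mul_le_mul (e x p hx.1 hx.2.le (by omega)) (e (1 - x) r h1 (by linarith [hx.1]) (by omega))
    (by positivity) (Real.rpow_nonneg hx.1.le _)

/-- **CMP** -/
theorem cmp : S_GP → S_CMP := by
  intro hgp K p q r x hx hI
  obtain ⟨hcont, hb, hpos, ⟨c, hc, hm, ha⟩, hder, -, -, -, -, -, -, -, -, -⟩ := hgp p q r
  have hIc : ∀ i, x i ∈ Icc (0 : ℝ) 1 := fun i => ⟨(hI i).1.le, (hI i).2.le⟩
  have hsub : ∀ u w, G p q r w - G p q r u = ∫ t in u..w, phi p q r t := by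
    intro u w
    unfold G
    exact intervalIntegral.integral_interval_sub_left (hcont.intervalIntegrable _ _)
      (hcont.intervalIntegrable _ _)
  have hlow : ∀ u w m, 0 ≤ u → u ≤ w → w ≤ 1 → (∀ t ∈ Icc u w, m ≤ phi p q r t) →
      m * (w - u) ≤ G p q r w - G p q r u := by
    intro u w m hu huw hw h
    rw [hsub]
    have h1 : ∫ _ in u..w, m ≤ ∫ t in u..w, phi p q r t :=
      intervalIntegral.integral_mono_on huw intervalIntegrable_const (hcont.intervalIntegrable _ _) h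
    rw [intervalIntegral.integral_const, smul_eq_mul] at h1
    linarith
  have hup : ∀ u w m, 0 ≤ u → u ≤ w → w ≤ 1 → (∀ t ∈ Icc u w, phi p q r t ≤ m) →
      G p q r w - G p q r u ≤ m * (w - u) := by
    intro u w m hu huw hw h
    rw [hsub]
    have h1 : ∫ t in u..w, phi p q r t ≤ ∫ _ in u..w, m :=
      intervalIntegral.integral_mono_on huw (hcont.intervalIntegrable _ _) intervalIntegrable_const h
    rw [intervalIntegral.integral_const, smul_eq_mul] at h1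
    linarith
  obtain ⟨⟨-, u2⟩, ⟨-, l2⟩⟩ := tele hc hb hm ha hlow hup K x hx hIc
  set Φ : ℝ := ∏ i, phi p q r (x i) with hΦ
  set d : ℝ := ∏ i : Fin K, (x i.succ - x i.castSucc) with hd
  set D : ℝ := ∏ i : Fin K, (G p q r (x i.succ) - G p q r (x i.castSucc)) with hD
  set y0 : ℝ := x 0 with hy0
  set y1 : ℝ := x (Fin.last K) with hy1
  have h0 := hI 0
  have h1 := hI (Fin.last K)
  rw [← hy0] at h0
  rw [← hy1] at h1
  have hΦ0 : 0 ≤ Φ := Finset.prod_nonneg fun i _ => (hb _ (hIc i)).1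
  have hd0 : 0 ≤ d := Finset.prod_nonneg fun i _ => sub_nonneg.2 (hx (Fin.castSucc_lt_succ)).le
  have hD0 : 0 ≤ D := Finset.prod_nonneg fun i _ => by
    have := hlow (x i.castSucc) (x i.succ) 0 (hIc _).1 (hx (Fin.castSucc_lt_succ)).le (hIc _).2
      fun t ht => (hb t ⟨(hIc _).1.trans ht.1, ht.2.trans (hIc _).2⟩).1
    linarith
  have eW : Wt K p q r x = y0 ^ (p + q + 1) * (1 - y1) ^ (q + r + 1) * (Φ * (Φ * d) ^ q) := by
    unfold Wt
    have e1 : (∏ i : Fin (K + 1), x i ^ p * (1 - x i) ^ r) = Φ ^ (q + 1) := by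
      rw [hΦ, ← Finset.prod_pow]
      exact Finset.prod_congr rfl fun i _ => (phi_pow p q r (hIc i)).symm
    rw [e1, Finset.prod_pow]
    ring
  have eD : Dt K p q r x = Φ * D ^ q := by
    unfold Dt
    rw [Finset.prod_pow]
  rw [eW, eD]
  have k0 : 0 ≤ 1 - y1 := by linarith [h1.2]
  have k1 : 0 ≤ 1 - y0 := by linarith [h0.2]
  constructor
  · have a1 : y0 ^ (p + q + 1) ≤ 1 := pow_le_one₀ h0.1.le h0.2.le
    have a2 : (1 - y1) ^ (q + r + 1) ≤ 1 := pow_le_one₀ k0 (by linarith [h1.1])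
    have a3 : (Φ * d) ^ q ≤ D ^ q := pow_le_pow_left₀ (mul_nonneg hΦ0 hd0) u2 q
    have a4 : 0 ≤ Φ * (Φ * d) ^ q := mul_nonneg hΦ0 (pow_nonneg (mul_nonneg hΦ0 hd0) q)
    calc y0 ^ (p + q + 1) * (1 - y1) ^ (q + r + 1) * (Φ * (Φ * d) ^ q) ≤ 1 * (Φ * (Φ * d) ^ q) :=
          mul_le_mul_of_nonneg_right (mul_le_one₀ a1 (pow_nonneg k0 _) a2) a4
      _ = Φ * (Φ * d) ^ q := one_mul _
      _ ≤ Φ * D ^ q := mul_le_mul_of_nonneg_left a3 hΦ0
  · set z : ℝ := y0 * (1 - y0) * y1 * (1 - y1) with hz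
    have hz0 : 0 ≤ z := mul_nonneg (mul_nonneg (mul_nonneg h0.1.le k1) h1.1.le) k0
    have m1 : (1 - y0) * y1 * (1 - y1) ≤ 1 :=
      mul_le_one₀ (mul_le_one₀ (by linarith [h0.1]) h1.1.le h1.2.le) k0 (by linarith [h1.1])
    have m2 : y0 * (1 - y0) * y1 ≤ 1 :=
      mul_le_one₀ (mul_le_one₀ h0.2.le k1 (by linarith [h0.1])) h1.1.le h1.2.le
    have z1 : z ≤ y0 := by
      have : z = y0 * ((1 - y0) * y1 * (1 - y1)) := by rw [hz]; ring
      rw [this]
      exact mul_le_of_le_one_right h0.1.le m1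
    have z2 : z ≤ 1 - y1 := by
      have : z = (y0 * (1 - y0) * y1) * (1 - y1) := by rw [hz]
      rw [this]
      exact mul_le_of_le_one_left k0 m2
    have z3 : z ^ (p + r) ≤ phi p q r y0 * phi p q r y1 := by
      have : z ^ (p + r) = (y0 * (1 - y0)) ^ (p + r) * (y1 * (1 - y1)) ^ (p + r) := by
        rw [hz, ← mul_pow]; ring
      rw [this]
      exact mul_le_mul (phi_ge p q r h0) (phi_ge p q r h1) (by
        have := mul_nonneg h1.1.le k0
        positivity) (hpos _ h0).le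
    have z4 : (z ^ (p + r)) ^ q * D ^ q ≤ (Φ * d) ^ q := by
      rw [← mul_pow]
      apply pow_le_pow_left₀ (mul_nonneg (pow_nonneg hz0 _) hD0)
      exact (mul_le_mul_of_nonneg_right z3 hD0).trans l2
    calc z ^ ((p + q + 1) + (q + r + 1) + q * (p + r)) * (Φ * D ^ q) =
          z ^ (p + q + 1) * z ^ (q + r + 1) * (Φ * ((z ^ (p + r)) ^ q * D ^ q)) := by
          rw [pow_add, pow_add, mul_comm q (p + r), pow_mul]
          ring
      _ ≤ y0 ^ (p + q + 1) * (1 - y1) ^ (q + r + 1) * (Φ * (Φ * d) ^ q) := by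
          apply mul_le_mul
          · exact mul_le_mul (pow_le_pow_left₀ hz0 z1 _) (pow_le_pow_left₀ hz0 z2 _)
              (pow_nonneg hz0 _) (pow_nonneg h0.1.le _)
          · exact mul_le_mul_of_nonneg_left z4 hΦ0
          · exact mul_nonneg hΦ0 (mul_nonneg (pow_nonneg (pow_nonneg hz0 _) _) (pow_nonneg hD0 _))
          · exact mul_nonneg (pow_nonneg h0.1.le _) (pow_nonneg k0 _)

end Q257.CP
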