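import Pool.Agent.Q109.CP.Stm

set_option autoImplicit false

/-!
# CP-DET: the deterministic step
-/

namespace Q257.CP.DET

open MeasureTheory Set Filter Topology
open Q109.CP

/-- the number of smaller coordinates is the position -/
lemma rk_eq {ι : Type} [Fintype ι] {v : ι → ℝ} {σ : ι ≃ Fin (Fintype.card ι)} (h : Match v σ) (e : ι) :
    rk v e = (σ e : ℕ) := by
  classical
  have h1 : (Finset.univ.filter (fun e' => v e' < v e)).card = (Finset.Iio (σ e)).card := by
    refine Finset.card_bij (fun a _ => σ a) ?_ ?_ ?_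
    · intro a ha
      rw [Finset.mem_filter] at ha
      rw [Finset.mem_Iio]
      exact (h a e).2 ha.2
    · intro a _ b _ hab
      exact σ.injective hab
    · intro b hb
      rw [Finset.mem_Iio] at hb
      refine ⟨σ.symm b, ?_, σ.apply_symm_apply b⟩
      rw [Finset.mem_filter]
      refine ⟨Finset.mem_univ _, (h _ _).1 ?_⟩
      rwa [σ.apply_symm_apply]
  have h2 : rk v e = (Finset.univ.filter (fun e' => v e' < v e)).card := by
    unfold rk
    congr
  rw [h2, h1, Fin.card_Iio]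

/-- **DET** -/
theorem det : S_UNI → S_DET := by
  intro huni p q r ε hε
  obtain ⟨δ, hδ, K0, hK⟩ := huni p q r (ε / 3) (by positivity)
  refine ⟨δ, hδ, K0, fun K hKK v σ hv hM hO hDev hBad i => ?_⟩
  obtain ⟨h1, h2, h3, h4, h5⟩ := hK K hKK
  set N : ℝ := (NN (K + 2) p q r : ℝ) with hN
  have hNN : (Fintype.card (E (K + 2) p q r) : ℝ) = N := rfl
  have hcard : 0 < Fintype.card (E (K + 2) p q r) := Fintype.card_pos_iff.2 ⟨X 0⟩
  have hN0 : 0 < N := by rw [← hNN]; exact_mod_cast hcard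
  have hrk : ∀ e, |((σ e : ℕ) : ℝ) / N - v e| ≤ ε / 3 := by
    intro e
    by_contra hcon
    rw [not_le] at hcon
    apply hDev
    refine ⟨e, ?_⟩
    rw [rk_eq hM e, hNN]
    exact hcon
  have hin : ∀ j : Fin (K + 1), |gg p q r (v (X j.succ.castSucc)) - ((j : ℕ) : ℝ) / (K : ℝ)| ≤ δ := by
    intro j
    by_contra hcon
    rw [not_le] at hcon
    exact hBad ⟨j, hcon⟩
  have inner : ∀ j : Fin (K + 1), |((σ (X j.succ.castSucc) : ℕ) : ℝ) / N -
      ff p q r ((((j : ℕ) : ℝ) + 2) / ((K : ℝ) + 4))| ≤ 2 * ε / 3 := by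
    intro j
    have a1 := h1 j (Nat.lt_succ_iff.1 j.2) _ (hv (X j.succ.castSucc)) (hin j)
    have a2 := hrk (X j.succ.castSucc)
    have a3 := abs_sub_le (((σ (X j.succ.castSucc) : ℕ) : ℝ) / N) (v (X j.succ.castSucc))
      (ff p q r ((((j : ℕ) : ℝ) + 2) / ((K : ℝ) + 4)))
    linarith
  have hle : ∀ a b : E (K + 2) p q r, v a < v b → ((σ a : ℕ) : ℝ) / N ≤ ((σ b : ℕ) : ℝ) / N := by
    intro a b hab
    have h6 : σ a < σ b := (hM a b).2 hab
    have h7 : (σ a : ℕ) ≤ (σ b : ℕ) := le_of_lt h6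
    apply div_le_div_of_nonneg_right _ hN0.le
    exact_mod_cast h7
  have h01 : ∀ a : E (K + 2) p q r, 0 ≤ ((σ a : ℕ) : ℝ) / N ∧ ((σ a : ℕ) : ℝ) / N ≤ 1 := by
    intro a
    refine ⟨by positivity, ?_⟩
    rw [div_le_one hN0, ← hNN]
    exact_mod_cast (σ a).2.le
  have eK : (((K + 2 : ℕ) : ℝ) + 2) = (K : ℝ) + 4 := by push_cast; ring
  rw [eK]
  by_cases hi0 : (i : ℕ) = 0
  · have e1 : i = (0 : Fin (K + 2)).castSucc := by
      apply Fin.ext; rw [hi0]; rfl
    have e2 : (0 : Fin (K + 2)).succ = (0 : Fin (K + 1)).succ.castSucc := by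
      apply Fin.ext; rfl
    have o := hO.1 (0 : Fin (K + 2))
    rw [e2, ← e1] at o
    have a1 := hle _ _ o
    have a2 := inner 0
    have a3 : ((((0 : Fin (K + 1)) : ℕ) : ℝ) + 2) = 2 := by
      rw [Fin.val_zero]; norm_num
    rw [a3] at a2
    have a4 : ((i : ℕ) : ℝ) + 1 = 1 := by rw [hi0]; norm_num
    rw [a4]
    have a5 := h01 (X i)
    have a6 := (abs_le.1 a2).2
    obtain ⟨b1, b2⟩ := h2
    obtain ⟨c1, c2⟩ := h3
    rw [abs_le]
    constructor <;> linarith [a5.1]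
  · by_cases hil : (i : ℕ) = K + 2
    · have e1 : i = (Fin.last (K + 1)).succ := by
        apply Fin.ext; rw [hil]; rfl
      have e2 : (Fin.last (K + 1)).castSucc = (Fin.last K).succ.castSucc := by
        apply Fin.ext; rfl
      have o := hO.1 (Fin.last (K + 1))
      rw [e2, ← e1] at o
      have a1 := hle _ _ o
      have a2 := inner (Fin.last K)
      rw [Fin.val_last] at a2
      have a4 : ((i : ℕ) : ℝ) + 1 = (K : ℝ) + 3 := by rw [hil]; push_cast; ring
      rw [a4]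
      have a5 := h01 (X i)
      have a6 := (abs_le.1 a2).1
      obtain ⟨b1, b2⟩ := h4
      obtain ⟨c1, c2⟩ := h5
      rw [abs_le]
      constructor <;> linarith [a5.2]
    · have hlt : (i : ℕ) - 1 < K + 1 := by have := i.2; omega
      have e1 : i = (⟨(i : ℕ) - 1, hlt⟩ : Fin (K + 1)).succ.castSucc := by
        apply Fin.ext
        simp only [Fin.val_castSucc, Fin.val_succ]
        omega
      have a2 := inner ⟨(i : ℕ) - 1, hlt⟩
      rw [← e1] at a2
      have a3 : (((⟨(i : ℕ) - 1, hlt⟩ : Fin (K + 1)) : ℕ) : ℝ) + 2 = ((i : ℕ) : ℝ) + 1 := by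
        have : ((i : ℕ) - 1) + 1 = (i : ℕ) := by omega
        have h8 : ((((i : ℕ) - 1 : ℕ)) : ℝ) + 1 = ((i : ℕ) : ℝ) := by exact_mod_cast this
        show ((((i : ℕ) - 1 : ℕ)) : ℝ) + 2 = ((i : ℕ) : ℝ) + 1
        linarith
      rw [a3] at a2
      linarith

end Q257.CP.DET
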