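import Pool.Agent.Q109.CP.Stm

set_option autoImplicit false

/-!
# CP-DEV: coordinates are close to their relative ranks
-/

namespace Q257.CP.DEV

open MeasureTheory Set Filter Topology ProbabilityTheory
open Q109.CP
open scoped ENNReal NNReal

/-- the uniform measure on the interval -/
noncomputable def mu1 : Measure ℝ := (volume : Measure ℝ).restrict (Icc (0 : ℝ) 1)

instance : IsProbabilityMeasure mu1 := ⟨by
  unfold mu1
  rw [Measure.restrict_apply_univ, Real.volume_Icc]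
  simp⟩

lemma mu1_ae : ∀ᵐ u ∂mu1, u ∈ Icc (0 : ℝ) 1 := ae_restrict_mem measurableSet_Icc

lemma mu1_Iio {a : ℝ} (h : a ∈ Icc (0 : ℝ) 1) : mu1 (Iio a) = ENNReal.ofReal a := by
  unfold mu1
  rw [Measure.restrict_apply measurableSet_Iio]
  have e : Iio a ∩ Icc (0 : ℝ) 1 = Ico 0 a := by
    ext x
    simp only [mem_inter_iff, mem_Iio, mem_Icc, mem_Ico]
    constructor
    · rintro ⟨h1, h2, h3⟩; exact ⟨h2, h1⟩
    · rintro ⟨h1, h2⟩; exact ⟨h2, h1, h2.le.trans h.2⟩
  rw [e, Real.volume_Ico, sub_zero]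

/-- the coordinates are in the unit interval almost everywhere -/
lemma cube_ae (ι : Type) [Fintype ι] : ∀ᵐ v ∂(cube ι), ∀ e, v e ∈ Icc (0 : ℝ) 1 := by
  have h1 : cube ι = (Measure.pi (fun _ : ι => (volume : Measure ℝ))).restrict
      (Set.univ.pi fun _ => Icc (0 : ℝ) 1) := by
    unfold cube
    rw [Measure.restrict_pi_pi]
  rw [h1]
  have h2 : MeasurableSet (Set.univ.pi fun _ : ι => Icc (0 : ℝ) 1) :=
    MeasurableSet.univ_pi fun _ => measurableSet_Icc
  filter_upwards [ae_restrict_mem h2] with v hv e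
  exact hv e (mem_univ e)

/-- Hoeffding's inequality for identically distributed functions of the coordinates -/
lemma hoeff1 (κ : Type) [Fintype κ] (f : ℝ → ℝ) (hf : Measurable f) (a : ℝ)
    (hb : ∀ u, f u ∈ Icc a (a + 1)) (h0 : ∫ u, f u ∂mu1 = 0) {ε : ℝ} (hε : 0 ≤ ε) :
    (Measure.pi fun _ : κ => mu1).real {w | ε ≤ ∑ j, f (w j)} ≤
      Real.exp (-(2 * ε ^ 2 / (Fintype.card κ : ℝ))) := by
  have hind : iIndepFun (fun (j : κ) (w : κ → ℝ) => f (w j)) (Measure.pi fun _ : κ => mu1) :=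
    iIndepFun_pi (fun _ => hf.aemeasurable)
  have hsub : ∀ j ∈ (Finset.univ : Finset κ), HasSubgaussianMGF (fun w : κ → ℝ => f (w j))
      ((‖(a + 1) - a‖₊ / 2) ^ 2) (Measure.pi fun _ : κ => mu1) := by
    intro j _
    refine hasSubgaussianMGF_of_mem_Icc_of_integral_eq_zero ?_ ?_ ?_
    · exact (hf.comp (measurable_pi_apply j)).aemeasurable
    · exact Eventually.of_forall fun w => hb (w j)
    · have h1 := integral_comp_eval (μ := fun _ : κ => mu1) (i := j) (f := f) hf.aestronglyMeasurable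
      rw [h1]
      exact h0
  have h := HasSubgaussianMGF.measure_sum_ge_le_of_iIndepFun hind hsub hε
  refine h.trans (le_of_eq ?_)
  congr 1
  have e1 : (‖(a + 1) - a‖₊ / 2) ^ 2 = ((1 : ℝ≥0) / 4) := by
    rw [add_sub_cancel_left]
    simp only [nnnorm_one]
    norm_num
  rw [e1, Finset.sum_const, Finset.card_univ]
  push_cast
  rw [nsmul_eq_mul]
  by_cases hc : (Fintype.card κ : ℝ) = 0
  · rw [hc]; simp
  · field_simp
    ring

/-- the number of coordinates below a level -/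
noncomputable def cnt {κ : Type} [Fintype κ] (w : κ → ℝ) (x : ℝ) : ℝ :=
  ∑ j, (Iio x).indicator (fun _ => (1 : ℝ)) (w j)

lemma fiber (N : ℕ) (κ : Type) [Fintype κ] (hκ : Fintype.card κ + 1 = N) (x : ℝ) (hx : x ∈ Icc (0 : ℝ) 1)
    (δ : ℝ) (hδ : 0 < δ) (hN : 2 ≤ δ * (N : ℝ)) :
    (Measure.pi fun _ : κ => mu1) {w | δ < |cnt w x / (N : ℝ) - x|} ≤
      ENNReal.ofReal (2 * Real.exp (-(δ ^ 2 * (N : ℝ)) / 2)) := by
  have hNr : (N : ℝ) = (Fintype.card κ : ℝ) + 1 := by rw [← hκ]; push_cast; rfl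
  have hN0 : (0 : ℝ) < N := by rw [hNr]; positivity
  rcases Nat.eq_zero_or_pos (Fintype.card κ) with h0 | hpos
  · have hN1 : (N : ℝ) = 1 := by rw [hNr, h0]; norm_num
    have e : {w : κ → ℝ | δ < |cnt w x / (N : ℝ) - x|} = ∅ := by
      rw [eq_empty_iff_forall_notMem]
      intro w hw
      have hw' : δ < |cnt w x / (N : ℝ) - x| := hw
      have hemp : IsEmpty κ := Fintype.card_eq_zero_iff.1 h0
      have hc : cnt w x = 0 := by unfold cnt; simp
      rw [hc, zero_div, zero_sub, abs_neg, abs_of_nonneg hx.1] at hw'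
      rw [hN1] at hN
      have := hx.2
      linarith
    rw [e, measure_empty]
    exact zero_le
  · have hc1 : (1 : ℝ) ≤ (Fintype.card κ : ℝ) := by exact_mod_cast hpos
    have hmean : ∫ u, (Iio x).indicator (fun _ => (1 : ℝ)) u ∂mu1 = x := by
      rw [integral_indicator measurableSet_Iio, setIntegral_const, smul_eq_mul, mul_one]
      rw [Measure.real, mu1_Iio hx, ENNReal.toReal_ofReal hx.1]
    have hmi : Measurable ((Iio x).indicator (fun _ : ℝ => (1 : ℝ))) :=
      measurable_const.indicator measurableSet_Iio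
    have hint : Integrable ((Iio x).indicator (fun _ : ℝ => (1 : ℝ))) mu1 :=
      (integrable_const (1 : ℝ)).indicator measurableSet_Iio
    have hib : ∀ u, (Iio x).indicator (fun _ : ℝ => (1 : ℝ)) u ∈ Icc (0 : ℝ) 1 := by
      intro u
      by_cases hu : u ∈ Iio x
      · rw [indicator_of_mem hu]; norm_num
      · rw [indicator_of_notMem hu]; norm_num
    have hε : 0 ≤ δ * (N : ℝ) / 2 := by positivity
    have h1 := hoeff1 κ (fun u => (Iio x).indicator (fun _ => (1 : ℝ)) u - x) (hmi.sub_const x) (-x)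
      (fun u => ⟨by have := (hib u).1; linarith, by have := (hib u).2; linarith⟩)
      (by rw [integral_sub hint (integrable_const x), hmean, integral_const]; simp) hε
    have h2 := hoeff1 κ (fun u => x - (Iio x).indicator (fun _ => (1 : ℝ)) u) (hmi.const_sub x) (x - 1)
      (fun u => ⟨by have := (hib u).2; linarith, by have := (hib u).1; linarith⟩)
      (by rw [integral_sub (integrable_const x) hint, hmean, integral_const]; simp) hε
    have hexp : Real.exp (-(2 * (δ * (N : ℝ) / 2) ^ 2 / (Fintype.card κ : ℝ))) ≤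
        Real.exp (-(δ ^ 2 * (N : ℝ)) / 2) := by
      refine Real.exp_le_exp.2 ?_
      have hc0 : (0 : ℝ) < (Fintype.card κ : ℝ) := by linarith
      have : δ ^ 2 * (N : ℝ) / 2 ≤ 2 * (δ * (N : ℝ) / 2) ^ 2 / (Fintype.card κ : ℝ) := by
        rw [le_div_iff₀ hc0]
        have h3 : (Fintype.card κ : ℝ) ≤ N := by rw [hNr]; linarith
        have h4 : 0 ≤ δ ^ 2 * (N : ℝ) / 2 := by positivity
        nlinarith [mul_le_mul_of_nonneg_left h3 h4]
      rw [neg_div]
      linarith
    have hs1 : ∀ w : κ → ℝ, ∑ j, ((Iio x).indicator (fun _ => (1 : ℝ)) (w j) - x) =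
        cnt w x - (Fintype.card κ : ℝ) * x := by
      intro w
      rw [Finset.sum_sub_distrib]
      simp [cnt]
    have hs2 : ∀ w : κ → ℝ, ∑ j, (x - (Iio x).indicator (fun _ => (1 : ℝ)) (w j)) =
        (Fintype.card κ : ℝ) * x - cnt w x := by
      intro w
      rw [Finset.sum_sub_distrib]
      simp [cnt]
    have hsub : {w : κ → ℝ | δ < |cnt w x / (N : ℝ) - x|} ⊆
        {w | δ * (N : ℝ) / 2 ≤ ∑ j, ((Iio x).indicator (fun _ => (1 : ℝ)) (w j) - x)} ∪
        {w | δ * (N : ℝ) / 2 ≤ ∑ j, (x - (Iio x).indicator (fun _ => (1 : ℝ)) (w j))} := by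
      intro w hw
      have hw' : δ < |cnt w x / (N : ℝ) - x| := hw
      have e1 : cnt w x / (N : ℝ) - x = (cnt w x - (N : ℝ) * x) / N := by field_simp
      rw [e1, abs_div, abs_of_pos hN0, lt_div_iff₀ hN0] at hw'
      rcases lt_abs.1 hw' with h3 | h3
      · left
        show δ * (N : ℝ) / 2 ≤ ∑ j, ((Iio x).indicator (fun _ => (1 : ℝ)) (w j) - x)
        rw [hs1 w]
        have := hx.1
        rw [hNr] at h3 ⊢
        nlinarith
      · right
        show δ * (N : ℝ) / 2 ≤ ∑ j, (x - (Iio x).indicator (fun _ => (1 : ℝ)) (w j))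
        rw [hs2 w]
        have := hx.2
        rw [hNr] at h3 hN ⊢
        nlinarith
    refine (measure_mono hsub).trans ((measure_union_le _ _).trans ?_)
    have a1 : (Measure.pi fun _ : κ => mu1)
        {w | δ * (N : ℝ) / 2 ≤ ∑ j, ((Iio x).indicator (fun _ => (1 : ℝ)) (w j) - x)} ≤
        ENNReal.ofReal (Real.exp (-(δ ^ 2 * (N : ℝ)) / 2)) := by
      rw [← ofReal_measureReal]
      exact ENNReal.ofReal_le_ofReal (h1.trans hexp)
    have a2 : (Measure.pi fun _ : κ => mu1)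
        {w | δ * (N : ℝ) / 2 ≤ ∑ j, (x - (Iio x).indicator (fun _ => (1 : ℝ)) (w j))} ≤
        ENNReal.ofReal (Real.exp (-(δ ^ 2 * (N : ℝ)) / 2)) := by
      rw [← ofReal_measureReal]
      exact ENNReal.ofReal_le_ofReal (h2.trans hexp)
    refine (add_le_add a1 a2).trans (le_of_eq ?_)
    rw [← ENNReal.ofReal_add (Real.exp_nonneg _) (Real.exp_nonneg _)]
    congr 1
    ring

lemma one (ι : Type) [Fintype ι] [DecidableEq ι] (δ : ℝ) (hδ : 0 < δ)
    (hN : 2 ≤ δ * (Fintype.card ι : ℝ)) (e : ι) :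
    cube ι {v | δ < |(rk v e : ℝ) / (Fintype.card ι : ℝ) - v e|} ≤
      ENNReal.ofReal (2 * Real.exp (-(δ ^ 2 * (Fintype.card ι : ℝ)) / 2)) := by
  set N := Fintype.card ι with hNdef
  have hmp := measurePreserving_piEquivPiSubtypeProd (fun _ : ι => mu1) (fun j => j = e)
  set D' : Set (({j : ι // j = e} → ℝ) × ({j : ι // ¬ j = e} → ℝ)) :=
    {z | δ < |cnt z.2 (z.1 ⟨e, rfl⟩) / (N : ℝ) - z.1 ⟨e, rfl⟩|} with hD'
  have hcntm : Measurable fun z : ({j : ι // j = e} → ℝ) × ({j : ι // ¬ j = e} → ℝ) =>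
      cnt z.2 (z.1 ⟨e, rfl⟩) := by
    unfold cnt
    refine Finset.measurable_sum _ fun j _ => ?_
    have m1 : Measurable fun z : ({j : ι // j = e} → ℝ) × ({j : ι // ¬ j = e} → ℝ) => z.1 ⟨e, rfl⟩ :=
      (measurable_pi_apply _).comp measurable_fst
    have m2 : Measurable fun z : ({j : ι // j = e} → ℝ) × ({j : ι // ¬ j = e} → ℝ) => z.2 j :=
      (measurable_pi_apply _).comp measurable_snd
    have hs : MeasurableSet {z : ({j : ι // j = e} → ℝ) × ({j : ι // ¬ j = e} → ℝ) | z.2 j < z.1 ⟨e, rfl⟩} :=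
      measurableSet_lt m2 m1
    have e1 : (fun z : ({j : ι // j = e} → ℝ) × ({j : ι // ¬ j = e} → ℝ) =>
        (Iio (z.1 ⟨e, rfl⟩)).indicator (fun _ => (1 : ℝ)) (z.2 j)) =
        {z : ({j : ι // j = e} → ℝ) × ({j : ι // ¬ j = e} → ℝ) | z.2 j < z.1 ⟨e, rfl⟩}.indicator
          (fun _ => (1 : ℝ)) := by
      funext z
      by_cases h : z.2 j < z.1 ⟨e, rfl⟩
      · rw [indicator_of_mem (show z.2 j ∈ Iio (z.1 ⟨e, rfl⟩) from h), indicator_of_mem (show z ∈ _ from h)]
      · rw [indicator_of_notMem (show z.2 j ∉ Iio (z.1 ⟨e, rfl⟩) from h),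
          indicator_of_notMem (show z ∉ {z : ({j : ι // j = e} → ℝ) × ({j : ι // ¬ j = e} → ℝ) |
            z.2 j < z.1 ⟨e, rfl⟩} from h)]
    rw [e1]
    exact measurable_const.indicator hs
  have hD'm : MeasurableSet D' := by
    have m1 : Measurable fun z : ({j : ι // j = e} → ℝ) × ({j : ι // ¬ j = e} → ℝ) => z.1 ⟨e, rfl⟩ :=
      (measurable_pi_apply _).comp measurable_fst
    have m3 : Measurable fun z : ({j : ι // j = e} → ℝ) × ({j : ι // ¬ j = e} → ℝ) =>
        |cnt z.2 (z.1 ⟨e, rfl⟩) / (N : ℝ) - z.1 ⟨e, rfl⟩| := by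
      have m4 := (hcntm.div_const (N : ℝ)).sub m1
      exact continuous_abs.measurable.comp m4
    exact measurableSet_lt measurable_const m3
  have hpre : {v : ι → ℝ | δ < |(rk v e : ℝ) / (N : ℝ) - v e|} =
      (MeasurableEquiv.piEquivPiSubtypeProd (fun _ : ι => ℝ) (fun j => j = e)) ⁻¹' D' := by
    ext v
    have hk : (rk v e : ℝ) = cnt (fun j : {j : ι // ¬ j = e} => v j) (v e) := by
      unfold rk cnt
      rw [Finset.card_filter]
      push_cast
      have h1 : ∀ j : ι, (if v j < v e then (1 : ℝ) else 0) = (Iio (v e)).indicator (fun _ => (1 : ℝ)) (v j) := by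
        intro j
        by_cases h : v j < v e
        · rw [if_pos h, indicator_of_mem (show v j ∈ Iio (v e) from h)]
        · rw [if_neg h, indicator_of_notMem (show v j ∉ Iio (v e) from h)]
      rw [Finset.sum_congr rfl fun j _ => h1 j]
      rw [← Fintype.sum_subtype_add_sum_subtype (fun j => j = e)
        (fun j => (Iio (v e)).indicator (fun _ => (1 : ℝ)) (v j))]
      rw [Finset.sum_eq_zero, zero_add]
      rintro ⟨j, rfl⟩ _
      exact indicator_of_notMem (fun h : v j ∈ Iio (v j) => lt_irrefl _ (show v j < v j from h)) _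
    show δ < |(rk v e : ℝ) / (N : ℝ) - v e| ↔
      δ < |cnt (fun j : {j : ι // ¬ j = e} => v j) (v e) / (N : ℝ) - v e|
    rw [hk]
  have hcard : Fintype.card {j : ι // ¬ j = e} + 1 = N := by
    rw [Fintype.card_subtype_compl, Fintype.card_subtype_eq, hNdef]
    have : 0 < Fintype.card ι := Fintype.card_pos_iff.2 ⟨e⟩
    omega
  rw [hpre]
  have h1 := hmp.measure_preimage hD'm.nullMeasurableSet
  have h2 : cube ι = Measure.pi fun _ : ι => mu1 := rfl
  rw [h2, h1, Measure.prod_apply hD'm]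
  refine (lintegral_mono_ae
    (g := fun _ => ENNReal.ofReal (2 * Real.exp (-(δ ^ 2 * (N : ℝ)) / 2))) ?_).trans ?_
  · have h4 : ∀ᵐ y ∂(@Measure.pi {j : ι // j = e} (fun _ => ℝ) (Subtype.fintype fun j => j = e)
        (fun _ => Real.measurableSpace) fun _ => mu1), ∀ i, y i ∈ Icc (0 : ℝ) 1 :=
      @cube_ae _ (Subtype.fintype fun j => j = e)
    filter_upwards [h4] with y hy
    exact fiber N {j : ι // ¬ j = e} hcard (y ⟨e, rfl⟩) (hy _) δ hδ hN
  · rw [lintegral_const, measure_univ, mul_one]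

theorem dev : S_DEV := by
  intro ι _ _ δ hδ hN
  have e : Dev ι δ = ⋃ e : ι, {v | δ < |(rk v e : ℝ) / (Fintype.card ι : ℝ) - v e|} := by
    ext v
    simp only [mem_iUnion, mem_ofPred_eq]
    rfl
  rw [e]
  refine (measure_iUnion_le _).trans ?_
  rw [tsum_fintype]
  refine (Finset.sum_le_sum fun i _ => one ι δ hδ hN i).trans (le_of_eq ?_)
  rw [Finset.sum_const, Finset.card_univ, nsmul_eq_mul, ← ENNReal.ofReal_natCast,
    ← ENNReal.ofReal_mul (Nat.cast_nonneg _)]
  congr 1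
  ring

end Q257.CP.DEV
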