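import Pool.Agent.Q257.CP_COM

set_option autoImplicit false

/-!
# CP-DIR: the Dirichlet law is concentrated
-/

namespace Q257.CP.DIR

open MeasureTheory Set Filter Topology
open Q109.CP Q257.CP.COM
open scoped ENNReal

lemma card_E (K q : ℕ) : Fintype.card (E K 0 q 0) = (q + 1) * K + 1 := by
  simp only [Fintype.card_sum, Fintype.card_prod, Fintype.card_fin]
  ring

/-- the Dirichlet integral as a probability -/
lemma V_eq (hfub : S_FUB0) (K q : ℕ) (A : Set (Fin (K + 1) → ℝ)) (hA : MeasurableSet A) :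
    V K q A = cube (E K 0 q 0) {v | Q109.CP.Ord v ∧ (fun i => v (X i)) ∈ A} := by
  rw [hfub K 0 q 0 A hA]
  unfold V
  congr 1
  funext x
  unfold W0
  simp only [pow_zero, one_mul, mul_one]

/-- the order event has positive measure -/
lemma ord_pos (K q : ℕ) : cube (E K 0 q 0) {v | Q109.CP.Ord v} ≠ 0 := by
  set U : Set (E K 0 q 0 → ℝ) := {v | Q109.CP.Ord v} ∩ Set.univ.pi fun _ => Ioo (0 : ℝ) 1 with hU
  have hUo : IsOpen U := (open_ord K 0 q 0).inter (isOpen_set_pi Set.finite_univ fun _ _ => isOpen_Ioo)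
  have hne : U.Nonempty := by
    refine ⟨Sum.elim (fun i : Fin (K + 1) => (((i : ℕ) : ℝ) + 1) / ((K : ℝ) + 2))
      (Sum.elim (fun _ => 1 / 2) (Sum.elim (fun ij => (((ij.1 : ℕ) : ℝ) + 3 / 2) / ((K : ℝ) + 2))
        (fun _ => 1 / 2))), ?_, ?_⟩
    · have hK : (0 : ℝ) < (K : ℝ) + 2 := by positivity
      refine ⟨?_, ?_, ?_, ?_⟩
      · intro i
        show (((i.castSucc : Fin (K + 1)) : ℕ) + 1 : ℝ) / ((K : ℝ) + 2) <
          (((i.succ : Fin (K + 1)) : ℕ) + 1 : ℝ) / ((K : ℝ) + 2)
        rw [Fin.val_castSucc, Fin.val_succ]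
        push_cast
        gcongr
        linarith
      · intro i j; exact j.elim0
      · intro i j
        constructor
        · show (((i.castSucc : Fin (K + 1)) : ℕ) + 1 : ℝ) / ((K : ℝ) + 2) <
            (((i : ℕ) : ℝ) + 3 / 2) / ((K : ℝ) + 2)
          rw [Fin.val_castSucc]
          gcongr
          norm_num
        · show (((i : ℕ) : ℝ) + 3 / 2) / ((K : ℝ) + 2) <
            (((i.succ : Fin (K + 1)) : ℕ) + 1 : ℝ) / ((K : ℝ) + 2)
          rw [Fin.val_succ]
          push_cast
          rw [add_assoc]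
          gcongr
          norm_num
      · intro i j; exact j.elim0
    · intro e _
      have hK : (0 : ℝ) < (K : ℝ) + 2 := by positivity
      rcases e with i | ⟨_, j⟩ | ⟨i, j⟩ | ⟨_, j⟩
      · show (((i : ℕ) : ℝ) + 1) / ((K : ℝ) + 2) ∈ Ioo (0 : ℝ) 1
        have hi : ((i : ℕ) : ℝ) ≤ K := by exact_mod_cast Nat.lt_succ_iff.1 i.2
        refine ⟨by positivity, ?_⟩
        rw [div_lt_one hK]
        linarith
      · exact j.elim0
      · show (((i : ℕ) : ℝ) + 3 / 2) / ((K : ℝ) + 2) ∈ Ioo (0 : ℝ) 1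
        have hi : ((i : ℕ) : ℝ) ≤ K := by exact_mod_cast i.2.le
        refine ⟨by positivity, ?_⟩
        rw [div_lt_one hK]
        linarith
      · exact j.elim0
  have hpos : 0 < (volume : Measure (E K 0 q 0 → ℝ)) U := hUo.measure_pos volume hne
  have h1 : cube (E K 0 q 0) U = (volume : Measure (E K 0 q 0 → ℝ)) U := by
    rw [cube_eq, Measure.restrict_apply hUo.measurableSet]
    have e : U ∩ (Set.univ.pi fun _ => Icc (0 : ℝ) 1) = U := by
      refine inter_eq_left.2 ?_
      intro v hv e he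
      exact Ioo_subset_Icc_self (hv.2 e he)
    rw [e]
    rfl
  have h2 : cube (E K 0 q 0) U ≤ cube (E K 0 q 0) {v | Q109.CP.Ord v} := measure_mono inter_subset_left
  rw [h1] at h2
  exact (hpos.trans_le h2).ne'

/-- the rank of a main chain point -/
lemma rk_X {K q : ℕ} {v : E K 0 q 0 → ℝ} (hv : Q109.CP.Ord v) (i : Fin (K + 1)) :
    rk v (X i) = (q + 1) * (i : ℕ) := by
  have hm : StrictMono fun i : Fin (K + 1) => v (X i) := Fin.strictMono_iff_lt_succ.2 hv.1
  rw [rk_sum, Fintype.sum_sum_type, Fintype.sum_sum_type, Fintype.sum_sum_type]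
  have h1 : ∑ x : Fin (K + 1), Set.indicator {e' | v e' < v (X i)} (fun _ => (1 : ℕ)) (Sum.inl x) = i := by
    have e : ∀ x : Fin (K + 1), Set.indicator {e' | v e' < v (X i)} (fun _ => (1 : ℕ)) (Sum.inl x) =
        if x < i then 1 else 0 := by
      intro x
      by_cases h : x < i
      · rw [if_pos h]
        exact indicator_of_mem (show (Sum.inl x : E K 0 q 0) ∈ {e' : E K 0 q 0 | v e' < v (X i)} from hm h) _
      · rw [if_neg h]
        exact indicator_of_notMem (show (Sum.inl x : E K 0 q 0) ∉ {e' : E K 0 q 0 | v e' < v (X i)} from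
          fun h' => h (hm.lt_iff_lt.1 h')) _
    rw [Finset.sum_congr rfl fun x _ => e x, ← Finset.card_filter]
    have e2 : (Finset.univ.filter fun x : Fin (K + 1) => x < i) = Finset.Iio i := by
      ext x; simp
    rw [e2, Fin.card_Iio]
  have h2 : ∑ x : Fin K × Fin q, Set.indicator {e' | v e' < v (X i)} (fun _ => (1 : ℕ))
      (Sum.inr (Sum.inr (Sum.inl x))) = q * i := by
    have e : ∀ x : Fin K × Fin q, Set.indicator {e' | v e' < v (X i)} (fun _ => (1 : ℕ))
        (Sum.inr (Sum.inr (Sum.inl x))) = if (x.1 : ℕ) < i then 1 else 0 := by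
      rintro ⟨j, k⟩
      by_cases h : (j : ℕ) < i
      · rw [if_pos h]
        refine indicator_of_mem (show (Sum.inr (Sum.inr (Sum.inl (j, k))) : E K 0 q 0) ∈
          {e' : E K 0 q 0 | v e' < v (X i)} from ?_) _
        exact (hv.2.2.1 j k).2.trans_le (hm.monotone (by rw [Fin.le_def, Fin.val_succ]; exact h))
      · rw [if_neg h]
        refine indicator_of_notMem (show (Sum.inr (Sum.inr (Sum.inl (j, k))) : E K 0 q 0) ∉
          {e' : E K 0 q 0 | v e' < v (X i)} from fun h' => ?_) _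
        have h'' : v (mi j k) < v (X i) := h'
        have h3 : v (X i) ≤ v (X j.castSucc) := hm.monotone (by
          rw [Fin.le_def, Fin.val_castSucc]; exact not_lt.1 h)
        exact absurd (h''.trans_le h3) (not_lt.2 (hv.2.2.1 j k).1.le)
    rw [Finset.sum_congr rfl fun x _ => e x, Fintype.sum_prod_type]
    have e3 : ∀ x : Fin K, (∑ _y : Fin q, if (x : ℕ) < i then 1 else 0) = q * (if (x : ℕ) < i then 1 else 0) := by
      intro x
      rw [Finset.sum_const, Finset.card_univ, Fintype.card_fin, smul_eq_mul]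
    rw [Finset.sum_congr rfl fun x _ => e3 x]
    rw [← Finset.mul_sum, ← Finset.card_filter, Fin.card_filter_val_lt]
    have : (i : ℕ) ≤ K := Nat.lt_succ_iff.1 i.2
    rw [min_eq_right this]
  rw [h1, h2]
  simp
  ring

theorem dir : S_EXCH → S_DEV → S_FUB0 → S_DIR := by
  intro hex hdev hfub K q hK
  have hVu : V K q univ = cube (E K 0 q 0) {v | Q109.CP.Ord v} := by
    rw [V_eq hfub K q univ MeasurableSet.univ]
    congr 1
    ext v
    simp
  have hNr : ((Fintype.card (E K 0 q 0) : ℕ) : ℝ) = ((q : ℝ) + 1) * K + 1 := by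
    rw [card_E]; push_cast; ring
  refine ⟨?_, ?_, ?_, ?_⟩
  · rw [hVu]; exact ord_pos K q
  · rw [hVu]; exact measure_ne_top _ _
  · intro t ht
    set S : Set (E K 0 q 0 → ℝ) := {v | ∃ e, v e < t ∨ 1 - t < v e} with hS
    have hSe : S = ⋃ e, ({v | v e < t} ∪ {v | 1 - t < v e}) := by
      ext v
      simp only [mem_iUnion, mem_union, mem_ofPred_eq, hS]
    have hm1 : ∀ e, MeasurableSet {v : E K 0 q 0 → ℝ | v e < t} := fun e =>
      measurableSet_lt (measurable_pi_apply e) measurable_const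
    have hm2 : ∀ e, MeasurableSet {v : E K 0 q 0 → ℝ | 1 - t < v e} := fun e =>
      measurableSet_lt measurable_const (measurable_pi_apply e)
    have hSm : MeasurableSet S := by
      rw [hSe]
      exact MeasurableSet.iUnion fun e => (hm1 e).union (hm2 e)
    have hsym : ∀ (π : Equiv.Perm (E K 0 q 0)) (v : E K 0 q 0 → ℝ), v ∈ S → (fun e => v (π e)) ∈ S := by
      rintro π v ⟨e, he⟩
      refine ⟨π.symm e, ?_⟩
      simp only [Equiv.apply_symm_apply]
      exact he
    have hprob : IsProbabilityMeasure ((volume : Measure ℝ).restrict (Icc (0 : ℝ) 1)) := ⟨by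
      rw [Measure.restrict_apply_univ, Real.volume_Icc]
      simp⟩
    have hS2 : cube (E K 0 q 0) S ≤ ENNReal.ofReal (2 * (((q : ℝ) + 1) * K + 1) * t) := by
      rw [hSe]
      refine (measure_iUnion_le _).trans ?_
      rw [tsum_fintype]
      have h1 : ∀ e : E K 0 q 0, cube (E K 0 q 0) ({v | v e < t} ∪ {v | 1 - t < v e}) ≤ ENNReal.ofReal (2 * t) := by
        intro e
        refine (measure_union_le _ _).trans ?_
        have hev := measurePreserving_eval (fun _ : E K 0 q 0 => (volume : Measure ℝ).restrict (Icc (0 : ℝ) 1)) e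
        have a1 : cube (E K 0 q 0) {v | v e < t} ≤ ENNReal.ofReal t := by
          have h2 := hev.measure_preimage (s := Iio t) measurableSet_Iio.nullMeasurableSet
          have h3 : cube (E K 0 q 0) {v | v e < t} = ((volume : Measure ℝ).restrict (Icc (0 : ℝ) 1)) (Iio t) := h2
          rw [h3, Measure.restrict_apply measurableSet_Iio]
          refine (measure_mono (show Iio t ∩ Icc (0 : ℝ) 1 ⊆ Ico 0 t from fun x hx => ⟨hx.2.1, hx.1⟩)).trans ?_
          rw [Real.volume_Ico, sub_zero]
        have a2 : cube (E K 0 q 0) {v | 1 - t < v e} ≤ ENNReal.ofReal t := by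
          have h2 := hev.measure_preimage (s := Ioi (1 - t)) measurableSet_Ioi.nullMeasurableSet
          have h3 : cube (E K 0 q 0) {v | 1 - t < v e} = ((volume : Measure ℝ).restrict (Icc (0 : ℝ) 1)) (Ioi (1 - t)) := h2
          rw [h3, Measure.restrict_apply measurableSet_Ioi]
          refine (measure_mono (show Ioi (1 - t) ∩ Icc (0 : ℝ) 1 ⊆ Ioc (1 - t) 1 from fun x hx => ⟨hx.1, hx.2.2⟩)).trans ?_
          rw [Real.volume_Ioc]
          exact le_of_eq (by congr 1; ring)
        refine (add_le_add a1 a2).trans (le_of_eq ?_)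
        rw [← ENNReal.ofReal_add ht ht]
        congr 1
        ring
      refine (Finset.sum_le_sum fun e _ => h1 e).trans (le_of_eq ?_)
      rw [Finset.sum_const, Finset.card_univ, nsmul_eq_mul, ← ENNReal.ofReal_natCast,
        ← ENNReal.ofReal_mul (Nat.cast_nonneg _), hNr]
      congr 1
      ring
    have hBm : MeasurableSet {y : Fin (K + 1) → ℝ | y 0 < t ∨ 1 - t < y (Fin.last K)} := by
      have e : {y : Fin (K + 1) → ℝ | y 0 < t ∨ 1 - t < y (Fin.last K)} =
          {y | y 0 < t} ∪ {y | 1 - t < y (Fin.last K)} := by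
        ext y; simp only [mem_union, mem_ofPred_eq]
      rw [e]
      exact (measurableSet_lt (measurable_pi_apply 0) measurable_const).union
        (measurableSet_lt measurable_const (measurable_pi_apply (Fin.last K)))
    rw [V_eq hfub K q _ hBm, hVu]
    calc cube (E K 0 q 0) {v | Q109.CP.Ord v ∧ (fun i => v (X i)) ∈
            {y : Fin (K + 1) → ℝ | y 0 < t ∨ 1 - t < y (Fin.last K)}}
        ≤ cube (E K 0 q 0) {v | v ∈ S ∧ Q109.CP.Ord v} := by
          refine measure_mono ?_
          rintro v ⟨h1, h2⟩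
          refine ⟨?_, h1⟩
          rcases h2 with h2 | h2
          · exact ⟨X 0, Or.inl h2⟩
          · exact ⟨X (Fin.last K), Or.inr h2⟩
      _ = cube (E K 0 q 0) {v | Q109.CP.Ord v} * cube (E K 0 q 0) S := ordS hex K 0 q 0 S hSm hsym
      _ ≤ cube (E K 0 q 0) {v | Q109.CP.Ord v} * ENNReal.ofReal (2 * (((q : ℝ) + 1) * K + 1) * t) := by gcongr
      _ = ENNReal.ofReal (2 * (((q : ℝ) + 1) * K + 1) * t) * cube (E K 0 q 0) {v | Q109.CP.Ord v} := mul_comm _ _
  · intro δ hδ hN
    have hKr : (1 : ℝ) ≤ K := by exact_mod_cast hK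
    set N : ℝ := ((q : ℝ) + 1) * K + 1 with hNdef
    have hNpos : 0 < N := by positivity
    have hBm : MeasurableSet {y : Fin (K + 1) → ℝ | ∃ i : Fin (K + 1), δ < |y i - ((i : ℕ) : ℝ) / (K : ℝ)|} := by
      have e : {y : Fin (K + 1) → ℝ | ∃ i : Fin (K + 1), δ < |y i - ((i : ℕ) : ℝ) / (K : ℝ)|} =
          ⋃ i : Fin (K + 1), {y | δ < |y i - ((i : ℕ) : ℝ) / (K : ℝ)|} := by
        ext y; simp only [mem_iUnion, mem_ofPred_eq]
      rw [e]
      refine MeasurableSet.iUnion fun i => measurableSet_lt measurable_const ?_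
      exact continuous_abs.measurable.comp ((measurable_pi_apply i).sub_const _)
    rw [V_eq hfub K q _ hBm, hVu]
    have hd2 : cube (E K 0 q 0) (Dev (E K 0 q 0) (δ / 2)) ≤
        ENNReal.ofReal (2 * N * Real.exp (-(δ ^ 2 * N) / 8)) := by
      have h1 := hdev (E K 0 q 0) (δ / 2) (by positivity) (by rw [hNr]; linarith)
      rw [hNr] at h1
      refine h1.trans (le_of_eq ?_)
      congr 2
      ring_nf
    calc cube (E K 0 q 0) {v | Q109.CP.Ord v ∧ (fun i => v (X i)) ∈
            {y : Fin (K + 1) → ℝ | ∃ i : Fin (K + 1), δ < |y i - ((i : ℕ) : ℝ) / (K : ℝ)|}}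
        ≤ cube (E K 0 q 0) {v | v ∈ Dev (E K 0 q 0) (δ / 2) ∧ Q109.CP.Ord v} := by
          refine measure_mono ?_
          rintro v ⟨h1, i, hi⟩
          refine ⟨?_, h1⟩
          by_contra hcon
          have h2 : |(rk v (X i) : ℝ) / ((Fintype.card (E K 0 q 0) : ℕ) : ℝ) - v (X i)| ≤ δ / 2 := by
            by_contra h3
            exact hcon ⟨X i, not_le.1 h3⟩
          rw [rk_X h1 i, hNr] at h2
          have h3 : |((((q + 1) * (i : ℕ) : ℕ)) : ℝ) / N - ((i : ℕ) : ℝ) / (K : ℝ)| ≤ 1 / N := by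
            have e : ((((q + 1) * (i : ℕ) : ℕ)) : ℝ) / N - ((i : ℕ) : ℝ) / (K : ℝ) =
                -(((i : ℕ) : ℝ) / (K : ℝ) / N) := by
              rw [hNdef]
              push_cast
              have hK0 : (K : ℝ) ≠ 0 := by positivity
              have hN0 : ((q : ℝ) + 1) * K + 1 ≠ 0 := by positivity
              field_simp
              ring
            rw [e, abs_neg, abs_of_nonneg (by positivity)]
            have hi1 : ((i : ℕ) : ℝ) / (K : ℝ) ≤ 1 := by
              rw [div_le_one (by linarith)]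
              exact_mod_cast Nat.lt_succ_iff.1 i.2
            gcongr
          have h4 : 1 / N ≤ δ / 4 := by
            rw [div_le_div_iff₀ hNpos (by norm_num)]
            linarith
          have h5 : δ < |v (X i) - ((i : ℕ) : ℝ) / (K : ℝ)| := hi
          have h6 := abs_sub_le (v (X i)) (((((q + 1) * (i : ℕ) : ℕ)) : ℝ) / N) (((i : ℕ) : ℝ) / (K : ℝ))
          rw [abs_sub_comm] at h2
          linarith
      _ = cube (E K 0 q 0) {v | Q109.CP.Ord v} * cube (E K 0 q 0) (Dev (E K 0 q 0) (δ / 2)) :=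
          ordS hex K 0 q 0 _ (meas_dev _ _) fun π v hv => dev_symm π v hv
      _ ≤ cube (E K 0 q 0) {v | Q109.CP.Ord v} * ENNReal.ofReal (2 * N * Real.exp (-(δ ^ 2 * N) / 8)) := by gcongr
      _ = ENNReal.ofReal (2 * N * Real.exp (-(δ ^ 2 * N) / 8)) * cube (E K 0 q 0) {v | Q109.CP.Ord v} := mul_comm _ _

end Q257.CP.DIR
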