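import Pool.Agent.Q109.CP.Stm

set_option autoImplicit false

/-!
# CP-DIV: the comparison integral is a Dirichlet integral
-/

namespace Q257.CP.DIV

open MeasureTheory Set Filter Topology
open Q109.CP
open scoped ENNReal

/-- the coordinates are in the unit interval almost everywhere -/
lemma cube_ae (ι : Type) [Fintype ι] : ∀ᵐ v ∂(cube ι), ∀ e, v e ∈ Icc (0 : ℝ) 1 := by
  have h1 : cube ι = (Measure.pi (fun _ : ι => (volume : Measure ℝ))).restrict
      (Set.univ.pi fun _ => Icc (0 : ℝ) 1) := by
    unfold cube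
    rw [Measure.restrict_pi_pi]
  rw [h1]
  have h2 : MeasurableSet (Set.univ.pi fun _ : ι => Icc (0 : ℝ) 1) :=
    MeasurableSet.univ_pi fun _ => measurableSet_Icc
  filter_upwards [ae_restrict_mem h2] with v hv e
  exact hv e (mem_univ e)

lemma meas_sm (K : ℕ) : MeasurableSet {x : Fin (K + 1) → ℝ | StrictMono x} := by
  have e : {x : Fin (K + 1) → ℝ | StrictMono x} = ⋂ i : Fin K, {x | x i.castSucc < x i.succ} := by
    ext x
    rw [mem_iInter]
    exact Fin.strictMono_iff_lt_succ
  rw [e]
  exact MeasurableSet.iInter fun i => measurableSet_lt (measurable_pi_apply _) (measurable_pi_apply _)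

/-- **DIV** -/
theorem div : S_GP → S_PUSH → S_DIV := by
  classical
  intro hgp hpush p q r K A hA
  obtain ⟨hcont, hb, -, -, hder, -, hG1, -, hmono, hggc, hgg0, hgg1, hbij, -⟩ := hgp p q r
  have hGc : Continuous (G p q r) := continuous_iff_continuousAt.2 fun x => (hder x).continuousAt
  have hg : Measurable (gg p q r) := (hGc.div_const _).measurable
  have hgc : Measurable fun x : Fin (K + 1) → ℝ => fun i => gg p q r (x i) :=
    measurable_pi_lambda _ fun i => hg.comp (measurable_pi_apply i)
  have hprod : Measurable fun y : Fin (K + 1) → ℝ =>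
      ENNReal.ofReal (∏ i : Fin K, (y i.succ - y i.castSucc) ^ q) := by
    refine ENNReal.measurable_ofReal.comp ?_
    exact Finset.measurable_prod _ fun i _ =>
      ((measurable_pi_apply i.succ).sub (measurable_pi_apply i.castSucc)).pow_const q
  set S : Set (Fin (K + 1) → ℝ) := {y | StrictMono y ∧ y ∈ A} with hS
  have hSm : MeasurableSet S := (meas_sm K).inter hA
  set S' : Set (Fin (K + 1) → ℝ) := {x | StrictMono x ∧ x ∈ {x : Fin (K + 1) → ℝ | (fun i => gg p q r (x i)) ∈ A}}
    with hS'
  have hS'm : MeasurableSet S' := (meas_sm K).inter (hgc hA)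
  set F : (Fin (K + 1) → ℝ) → ℝ≥0∞ := S.indicator fun y =>
    ENNReal.ofReal (∏ i : Fin K, (y i.succ - y i.castSucc) ^ q) with hF
  have hFm : Measurable F := hprod.indicator hSm
  have hV : V K q A = ∫⁻ y, F y ∂(cube (Fin (K + 1))) := by
    unfold V
    rw [hF, lintegral_indicator hSm]
  have hD : DI K p q r {x | (fun i => gg p q r (x i)) ∈ A} =
      ENNReal.ofReal (G p q r 1 ^ (q * K)) *
        ∫⁻ x, F (fun i => gg p q r (x i)) * ENNReal.ofReal (∏ i, phi p q r (x i)) ∂(cube (Fin (K + 1))) := by
    have hm : Measurable fun x : Fin (K + 1) → ℝ =>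
        F (fun i => gg p q r (x i)) * ENNReal.ofReal (∏ i, phi p q r (x i)) := by
      refine (hFm.comp hgc).mul (ENNReal.measurable_ofReal.comp ?_)
      exact Finset.measurable_prod _ fun i _ => hcont.measurable.comp (measurable_pi_apply i)
    rw [← lintegral_const_mul _ hm]
    unfold DI
    rw [← lintegral_indicator hS'm]
    refine lintegral_congr_ae ?_
    filter_upwards [cube_ae (Fin (K + 1))] with x hx
    have hiff : StrictMono x ↔ StrictMono fun i => gg p q r (x i) := by
      constructor
      · intro h i j hij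
        exact hmono (hx i) (hx j) (h hij)
      · intro h i j hij
        exact (hmono.lt_iff_lt (hx i) (hx j)).1 (h hij)
    by_cases hxS : x ∈ S'
    · have hyS : (fun i => gg p q r (x i)) ∈ S := ⟨hiff.1 hxS.1, hxS.2⟩
      rw [indicator_of_mem hxS, hF, indicator_of_mem hyS]
      have h1 : 0 ≤ ∏ i : Fin K, (gg p q r (x i.succ) - gg p q r (x i.castSucc)) ^ q :=
        Finset.prod_nonneg fun i _ => pow_nonneg (sub_nonneg.2
          (hiff.1 hxS.1 (Fin.castSucc_lt_succ)).le) _
      rw [← ENNReal.ofReal_mul h1, ← ENNReal.ofReal_mul (pow_nonneg hG1.le _)]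
      congr 1
      unfold Dt
      have h2 : ∏ i : Fin K, (G p q r (x i.succ) - G p q r (x i.castSucc)) ^ q =
          G p q r 1 ^ (q * K) * ∏ i : Fin K, (gg p q r (x i.succ) - gg p q r (x i.castSucc)) ^ q := by
        have h3 : ∀ i : Fin K, (G p q r (x i.succ) - G p q r (x i.castSucc)) ^ q =
            G p q r 1 ^ q * (gg p q r (x i.succ) - gg p q r (x i.castSucc)) ^ q := by
          intro i
          rw [← mul_pow]
          congr 1
          unfold gg
          field_simp
        rw [Finset.prod_congr rfl fun i _ => h3 i, Finset.prod_mul_distrib, Finset.prod_const,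
          Finset.card_univ, Fintype.card_fin, ← pow_mul]
      rw [h2]
      ring
    · have hyS : (fun i => gg p q r (x i)) ∉ S := fun h => hxS ⟨hiff.2 h.1, h.2⟩
      rw [indicator_of_notMem hxS, hF, indicator_of_notMem hyS, zero_mul, mul_zero]
  rw [hD, hpush p q r K F hFm, ← hV, ← mul_assoc, ← ENNReal.ofReal_mul (pow_nonneg hG1.le _),
    ← pow_add]

end Q257.CP.DIV
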