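import Pool.Agent.Q109.CP.Stm

set_option autoImplicit false

/-!
# CP-EXCH: exchangeability of the uniform measure
-/

namespace Q257.CP.EXCH

open MeasureTheory Set Filter Topology
open Q109.CP
open scoped ENNReal

/-- the cube measure is a restriction of the Lebesgue measure -/
lemma cube_eq (ι : Type) [Fintype ι] : cube ι = (Measure.pi (fun _ : ι => (volume : Measure ℝ))).restrict
      (Set.univ.pi fun _ => Icc (0 : ℝ) 1) := by
  unfold cube
  rw [Measure.restrict_pi_pi]

/-- the coordinates are in the unit interval almost everywhere -/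
lemma cube_ae (ι : Type) [Fintype ι] : ∀ᵐ v ∂(cube ι), ∀ e, v e ∈ Icc (0 : ℝ) 1 := by
  rw [cube_eq]
  have h2 : MeasurableSet (Set.univ.pi fun _ : ι => Icc (0 : ℝ) 1) :=
    MeasurableSet.univ_pi fun _ => measurableSet_Icc
  filter_upwards [ae_restrict_mem h2] with v hv e
  exact hv e (mem_univ e)

/-- two different coordinates are different almost everywhere -/
lemma cube_ne (ι : Type) [Fintype ι] (a b : ι) (hab : a ≠ b) : ∀ᵐ v ∂(cube ι), v a ≠ v b := by
  classical
  rw [cube_eq]
  refine ae_restrict_of_ae ?_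
  let W : Submodule ℝ (ι → ℝ) := LinearMap.ker ((LinearMap.proj a : (ι → ℝ) →ₗ[ℝ] ℝ) - (LinearMap.proj b : (ι → ℝ) →ₗ[ℝ] ℝ))
  have hW : W ≠ ⊤ := by
    intro h
    have h1 : (Pi.single a (1 : ℝ) : ι → ℝ) ∈ W := by rw [h]; exact Submodule.mem_top
    have h2 : (Pi.single a (1 : ℝ) : ι → ℝ) a - (Pi.single a (1 : ℝ) : ι → ℝ) b = 0 := h1
    rw [Pi.single_eq_same, Pi.single_eq_of_ne hab.symm] at h2
    norm_num at h2
  have h0 : (volume : Measure (ι → ℝ)) (W : Set (ι → ℝ)) = 0 := Measure.addHaar_submodule _ W hW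
  have h1 : ∀ᵐ v ∂(volume : Measure (ι → ℝ)), v a ≠ v b := by
    rw [ae_iff]
    refine measure_mono_null ?_ h0
    intro v hv
    have hv' : v a = v b := by
      by_contra h
      exact hv h
    show v a - v b = 0
    rw [hv', sub_self]
  exact h1

/-- the coordinates are different almost everywhere -/
lemma cube_inj (ι : Type) [Fintype ι] : ∀ᵐ v ∂(cube ι), Function.Injective v := by
  have h : ∀ᵐ v ∂(cube ι), ∀ a b : ι, a ≠ b → v a ≠ v b := by
    rw [ae_all_iff]
    intro a
    rw [ae_all_iff]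
    intro b
    by_cases hab : a = b
    · exact Eventually.of_forall fun v h => absurd hab h
    · filter_upwards [cube_ne ι a b hab] with v hv _
      exact hv
  filter_upwards [h] with v hv a b hab
  by_contra hne
  exact hv a b hne hab

/-- the number of smaller coordinates is the position -/
lemma rk_eq {ι : Type} [Fintype ι] {v : ι → ℝ} {σ : ι ≃ Fin (Fintype.card ι)} (h : Match v σ) (e : ι) :
    rk v e = (σ e : ℕ) := by
  classical
  have h1 : (Finset.univ.filter (fun e' => v e' < v e)).card = (Finset.Iio (σ e)).card := by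
    refine Finset.card_bij (fun a _ => σ a) ?_ ?_ ?_
    · intro a ha
      rw [Finset.mem_filter] at ha
      rw [Finset.mem_Iio]
      exact (h a e).2 ha.2
    · intro a _ b _ hab
      exact σ.injective hab
    · intro b hb
      rw [Finset.mem_Iio] at hb
      refine ⟨σ.symm b, ?_, σ.apply_symm_apply b⟩
      rw [Finset.mem_filter]
      refine ⟨Finset.mem_univ _, (h _ _).1 ?_⟩
      rw [σ.apply_symm_apply]
      exact hb
  rw [Fin.card_Iio] at h1
  rw [← h1]
  unfold rk
  congr 1

lemma match_unique {ι : Type} [Fintype ι] {v : ι → ℝ} {σ τ : ι ≃ Fin (Fintype.card ι)} (h : Match v σ)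
    (h' : Match v τ) : σ = τ := by
  ext e
  rw [← rk_eq h, ← rk_eq h']

/-- an injective vector has an ordering -/
lemma match_exists {ι : Type} [Fintype ι] {v : ι → ℝ} (hv : Function.Injective v) :
    ∃ σ : ι ≃ Fin (Fintype.card ι), Match v σ := by
  classical
  have hlt : ∀ a b, v a < v b → rk v a < rk v b := by
    intro a b hab
    unfold rk
    refine Finset.card_lt_card ?_
    rw [Finset.ssubset_iff_of_subset]
    · exact ⟨a, by simpa using hab, by simp⟩
    · intro c hc
      simp only [Finset.mem_filter, Finset.mem_univ, true_and] at hc ⊢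
      exact hc.trans hab
  have hle : ∀ a, rk v a < Fintype.card ι := by
    intro a
    unfold rk
    rw [← Finset.card_univ]
    refine Finset.card_lt_card ?_
    rw [Finset.ssubset_iff_of_subset (Finset.subset_univ _)]
    exact ⟨a, Finset.mem_univ _, by simp⟩
  let F : ι → Fin (Fintype.card ι) := fun a => ⟨rk v a, hle a⟩
  have hiff : ∀ a b, F a < F b ↔ v a < v b := by
    intro a b
    constructor
    · intro h
      by_contra hc
      rw [not_lt] at hc
      rcases hc.lt_or_eq with h1 | h1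
      · exact absurd (hlt _ _ h1) (not_lt.2 (le_of_lt h))
      · have := hv h1
        subst this
        exact lt_irrefl _ h
    · intro h
      exact hlt _ _ h
  have hinj : Function.Injective F := by
    intro a b hab
    by_contra hne
    rcases lt_or_gt_of_ne (fun h => hne (hv h) : v a ≠ v b) with h1 | h1
    · exact absurd hab (ne_of_lt ((hiff a b).2 h1))
    · exact absurd hab.symm (ne_of_lt ((hiff b a).2 h1))
  have hbij : Function.Bijective F := by
    rw [Fintype.bijective_iff_injective_and_card]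
    exact ⟨hinj, by simp⟩
  exact ⟨Equiv.ofBijective F hbij, hiff⟩

/-- the vectors of `S` with ordering `σ` -/
def T {ι : Type} [Fintype ι] (S : Set (ι → ℝ)) (σ : ι ≃ Fin (Fintype.card ι)) : Set (ι → ℝ) :=
  {v | v ∈ S ∧ Match v σ}

lemma meas_T {ι : Type} [Fintype ι] {S : Set (ι → ℝ)} (hS : MeasurableSet S)
    (σ : ι ≃ Fin (Fintype.card ι)) : MeasurableSet (T S σ) := by
  have e : T S σ = S ∩ ⋂ (a : ι) (b : ι), {v | σ a < σ b ↔ v a < v b} := by
    ext v
    simp only [mem_inter_iff, mem_iInter, mem_ofPred_eq]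
    rfl
  rw [e]
  refine hS.inter (MeasurableSet.iInter fun a => MeasurableSet.iInter fun b => ?_)
  have hm : MeasurableSet {v : ι → ℝ | v a < v b} :=
    measurableSet_lt (measurable_pi_apply a) (measurable_pi_apply b)
  by_cases h : σ a < σ b
  · have e1 : {v : ι → ℝ | σ a < σ b ↔ v a < v b} = {v | v a < v b} := by
      ext v
      simp only [mem_ofPred_eq]
      exact ⟨fun h' => h'.1 h, fun h' => ⟨fun _ => h', fun _ => h⟩⟩
    rw [e1]; exact hm
  · have e1 : {v : ι → ℝ | σ a < σ b ↔ v a < v b} = {v | v a < v b}ᶜ := by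
      ext v
      simp only [mem_ofPred_eq, mem_compl_iff]
      exact ⟨fun h' h'' => h (h'.2 h''), fun h' => ⟨fun h'' => absurd h'' h, fun h'' => absurd h'' h'⟩⟩
    rw [e1]; exact hm.compl

/-- the cube measure is invariant under permutations of the coordinates -/
lemma mp_perm (ι : Type) [Fintype ι] (π : Equiv.Perm ι) :
    MeasurePreserving (fun v : ι → ℝ => fun e => v (π e)) (cube ι) (cube ι) := by
  have h := measurePreserving_piCongrLeft (fun _ : ι => (volume : Measure ℝ).restrict (Icc (0 : ℝ) 1)) π.symm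
  have e : (fun v : ι → ℝ => fun e => v (π e)) = (MeasurableEquiv.piCongrLeft (fun _ : ι => ℝ) π.symm) := by
    funext v e
    have h1 := Equiv.piCongrLeft_apply_apply (fun _ : ι => ℝ) π.symm v (π e)
    rw [π.symm_apply_apply] at h1
    exact h1.symm
  rw [e]
  exact h

lemma T_perm {ι : Type} [Fintype ι] {S : Set (ι → ℝ)} (hS : MeasurableSet S)
    (hsym : ∀ (π : Equiv.Perm ι) (v : ι → ℝ), v ∈ S → (fun e => v (π e)) ∈ S)
    (σ τ : ι ≃ Fin (Fintype.card ι)) : cube ι (T S σ) = cube ι (T S τ) := by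
  let π : Equiv.Perm ι := τ.trans σ.symm
  have h := (mp_perm ι π).measure_preimage (meas_T hS τ).nullMeasurableSet
  rw [← h]
  congr 1
  ext v
  have hτ : ∀ a, σ (π a) = τ a := fun a => by simp [π]
  constructor
  · rintro ⟨h1, h2⟩
    refine ⟨hsym π v h1, ?_⟩
    intro a b
    rw [← hτ a, ← hτ b]
    exact h2 _ _
  · rintro ⟨h1, h2⟩
    refine ⟨?_, ?_⟩
    · have h3 := hsym π.symm _ h1
      have e : (fun e => (fun e => v (π e)) (π.symm e)) = v := by
        funext e
        simp only [Equiv.apply_symm_apply]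
      rw [e] at h3
      exact h3
    · intro a b
      have h3 := h2 (π.symm a) (π.symm b)
      rw [← hτ, ← hτ] at h3
      simp only [Equiv.apply_symm_apply] at h3
      exact h3

theorem exch : S_EXCH := by
  intro ι _ _
  have hae : ∀ᵐ v ∂(cube ι), (∀ e, v e ∈ Icc (0 : ℝ) 1) ∧ Function.Injective v ∧
      ∃ σ : ι ≃ Fin (Fintype.card ι), Match v σ := by
    filter_upwards [cube_ae ι, cube_inj ι] with v h1 h2
    exact ⟨h1, h2, match_exists h2⟩
  refine ⟨hae, ?_⟩
  intro A S hS hsym
  obtain ⟨σ0⟩ : Nonempty (ι ≃ Fin (Fintype.card ι)) := ⟨Fintype.equivFin ι⟩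
  have hdis : ∀ (A : Finset (ι ≃ Fin (Fintype.card ι))), (A : Set (ι ≃ Fin (Fintype.card ι))).PairwiseDisjoint (T S) := by
    intro A σ _ τ _ hne
    refine Set.disjoint_left.2 ?_
    rintro v ⟨_, h1⟩ ⟨_, h2⟩
    exact hne (match_unique h1 h2)
  have hA : ∀ A : Finset (ι ≃ Fin (Fintype.card ι)), cube ι {v | v ∈ S ∧ ∃ σ ∈ A, Match v σ} =
      (A.card : ℝ≥0∞) * cube ι (T S σ0) := by
    intro A
    have e : {v | v ∈ S ∧ ∃ σ ∈ A, Match v σ} = ⋃ σ ∈ A, T S σ := by
      ext v
      simp only [mem_iUnion, mem_ofPred_eq]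
      constructor
      · rintro ⟨h1, σ, h2, h3⟩
        exact ⟨σ, h2, h1, h3⟩
      · rintro ⟨σ, h2, h1, h3⟩
        exact ⟨h1, σ, h2, h3⟩
    rw [e, measure_biUnion_finset (hdis A) fun σ _ => meas_T hS σ, Finset.sum_congr rfl fun σ _ => T_perm hS hsym σ σ0,
      Finset.sum_const, nsmul_eq_mul]
  have hall : cube ι S = ((Fintype.card ι).factorial : ℝ≥0∞) * cube ι (T S σ0) := by
    have h1 := hA Finset.univ
    rw [Finset.card_univ, Fintype.card_equiv (Fintype.equivFin ι)] at h1
    rw [← h1]
    refine measure_congr ?_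
    filter_upwards [hae] with v hv
    refine propext ⟨fun h => ⟨h, ?_⟩, fun h => h.1⟩
    obtain ⟨σ, hσ⟩ := hv.2.2
    exact ⟨σ, Finset.mem_univ _, hσ⟩
  rw [hA A, hall]
  ring

end Q257.CP.EXCH
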