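import Pool.Agent.Q257.CP_COM

set_option autoImplicit false

/-!
# CP-EXT: the discrete statement with unordered sides
-/

namespace Q257.CP.EXT

open MeasureTheory Set Filter Topology
open Q109.CP Q257.CP.COM
open scoped ENNReal

/-- exponential against linear -/
lemma tail (ε η : ℝ) (hε : 0 < ε) (hη : 0 < η) : ∃ M : ℕ, ∀ N : ℕ, M ≤ N →
    2 ≤ ε / 3 * (N : ℝ) ∧ 2 * (N : ℝ) * Real.exp (-((ε / 3) ^ 2 * (N : ℝ)) / 2) ≤ η / 2 := by
  set a : ℝ := (ε / 3) ^ 2 / 2 with ha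
  have ha0 : 0 < a := by positivity
  have h1 : Tendsto (fun N : ℕ => a * (N : ℝ)) atTop atTop :=
    Tendsto.const_mul_atTop ha0 tendsto_natCast_atTop_atTop
  have h2 := (Real.tendsto_pow_mul_exp_neg_atTop_nhds_zero 1).comp h1
  have h3 : Tendsto (fun N : ℕ => (2 / a) * ((a * (N : ℝ)) ^ 1 * Real.exp (-(a * (N : ℝ))))) atTop (𝓝 ((2 / a) * 0)) :=
    h2.const_mul (2 / a)
  rw [mul_zero] at h3
  have h4 : ∀ᶠ N : ℕ in atTop, (2 / a) * ((a * (N : ℝ)) ^ 1 * Real.exp (-(a * (N : ℝ)))) < η / 2 :=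
    h3.eventually_lt_const (by positivity)
  have h5 : Tendsto (fun N : ℕ => ε / 3 * (N : ℝ)) atTop atTop :=
    Tendsto.const_mul_atTop (by positivity) tendsto_natCast_atTop_atTop
  have h6 := h5.eventually_ge_atTop 2
  obtain ⟨M, hM⟩ := eventually_atTop.1 (h4.and h6)
  refine ⟨M, fun N hN => ⟨(hM N hN).2, ?_⟩⟩
  have h7 := (hM N hN).1.le
  have e : 2 * (N : ℝ) * Real.exp (-((ε / 3) ^ 2 * (N : ℝ)) / 2) =
      (2 / a) * ((a * (N : ℝ)) ^ 1 * Real.exp (-(a * (N : ℝ)))) := by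
    have e1 : -((ε / 3) ^ 2 * (N : ℝ)) / 2 = -(a * (N : ℝ)) := by rw [ha]; ring
    rw [e1, pow_one]
    field_simp
  rw [e]
  exact h7

lemma meas_bad (hgp : S_GP) (K p q r : ℕ) (δ : ℝ) : MeasurableSet (Bad K p q r δ) := by
  have hG : Continuous (G p q r) :=
    continuous_iff_continuousAt.2 fun x => ((hgp p q r).2.2.2.2.1 x).continuousAt
  have hgm : Measurable (gg p q r) := by
    unfold gg
    exact hG.measurable.div_const _
  have e : Bad K p q r δ = ⋃ i : Fin (K + 1), {x | δ < |gg p q r (x i) - ((i : ℕ) : ℝ) / (K : ℝ)|} := by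
    ext v
    simp only [mem_iUnion, mem_ofPred_eq]
    rfl
  rw [e]
  refine MeasurableSet.iUnion fun i => measurableSet_lt measurable_const ?_
  exact continuous_abs.measurable.comp ((hgm.comp (measurable_pi_apply i)).sub_const _)

theorem ext : S_GP → S_EXCH → S_DEV → S_FUB2 → S_RAT → S_DET → S_EXT := by
  intro hgp hex hdev hfub2 hrat hdet p q r ε η hε hη
  obtain ⟨δ, hδ, K1, hK1⟩ := hdet p q r ε hε
  obtain ⟨K2, hK2⟩ := hrat p q r δ (η / 2) hδ (by positivity)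
  obtain ⟨c, hc0, hct, hc⟩ := hfub2 p q r
  obtain ⟨M, hM⟩ := tail ε η hε hη
  refine ⟨max K1 (max K2 M) + 2, fun n hn => ?_⟩
  obtain ⟨K, rfl⟩ : ∃ K, n = K + 2 := ⟨n - 2, by omega⟩
  have hKK : max K1 (max K2 M) ≤ K := by omega
  have hk1 : K1 ≤ K := (le_max_left _ _).trans hKK
  have hk2 : K2 ≤ K := (le_max_left _ _).trans ((le_max_right _ _).trans hKK)
  have hk3 : M ≤ K := (le_max_right _ _).trans ((le_max_right _ _).trans hKK)
  obtain ⟨w0, wt, wb⟩ := hK2 K hk2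
  have hcard : M ≤ Fintype.card (E (K + 2) p q r) := by
    simp only [Fintype.card_sum, Fintype.card_fin]
    omega
  obtain ⟨t1, t2⟩ := hM _ hcard
  have hPu : cube (E (K + 2) p q r) {v | Q109.CP.Ord v} = c * WI K p q r univ := by
    rw [← hc K univ MeasurableSet.univ]
    congr 1
    ext v
    simp
  have hoc := ord_card hex (K + 2) p q r
  set A := {σ : E (K + 2) p q r ≃ Fin (Fintype.card (E (K + 2) p q r)) | Q109.CP.Ord σ} with hA
  set P := cube (E (K + 2) p q r) {v | Q109.CP.Ord v} with hP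
  have hP0 : P ≠ 0 := by
    rw [hPu]
    exact mul_ne_zero hc0 w0
  have hA0 : 0 < A.ncard := by
    rw [Nat.pos_iff_ne_zero]
    intro h0
    rw [h0, Nat.cast_zero] at hoc
    rcases mul_eq_zero.1 hoc with h | h
    · exact fact_ne _ h
    · exact hP0 h
  refine ⟨hA0, ?_⟩
  set Q : (E (K + 2) p q r ≃ Fin (Fintype.card (E (K + 2) p q r))) → Prop := fun σ => Q109.CP.Ord σ ∧
        ∃ i : Fin (K + 2 + 1), ε < |((σ (X i) : ℕ) : ℝ) / (NN (K + 2) p q r : ℝ) -
          ff p q r ((((i : ℕ) : ℝ) + 1) / (((K + 2 : ℕ) : ℝ) + 2))| with hQ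
  have h1 := exch_pred hex Q univ MeasurableSet.univ (fun _ _ _ => mem_univ _)
  rw [measure_univ, mul_one] at h1
  have h2 : cube (E (K + 2) p q r) {v | v ∈ (univ : Set (E (K + 2) p q r → ℝ)) ∧ ∃ σ, Q σ ∧ Match v σ} ≤
      cube (E (K + 2) p q r) ({v | v ∈ Dev (E (K + 2) p q r) (ε / 3) ∧ Q109.CP.Ord v} ∪
        {v | Q109.CP.Ord v ∧ (fun i : Fin (K + 1) => v (X i.succ.castSucc)) ∈ Bad K p q r δ}) := by
    refine measure_mono_ae ?_
    filter_upwards [(hex (E (K + 2) p q r)).1] with v hv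
    rintro ⟨-, σ, ⟨hσ1, i, hi⟩, hσ2⟩
    have hord : Q109.CP.Ord v := (ord_match hσ2).2 hσ1
    by_cases hd : v ∈ Dev (E (K + 2) p q r) (ε / 3)
    · exact Or.inl ⟨hd, hord⟩
    · by_cases hb : (fun i : Fin (K + 1) => v (X i.succ.castSucc)) ∈ Bad K p q r δ
      · exact Or.inr ⟨hord, hb⟩
      · exact absurd (hK1 K hk1 v σ hv.1 hσ2 hord hd hb i) (not_le.2 hi)
  have h3 : cube (E (K + 2) p q r) ({v | v ∈ Dev (E (K + 2) p q r) (ε / 3) ∧ Q109.CP.Ord v} ∪
        {v | Q109.CP.Ord v ∧ (fun i : Fin (K + 1) => v (X i.succ.castSucc)) ∈ Bad K p q r δ}) ≤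
      ENNReal.ofReal η * P := by
    refine (measure_union_le _ _).trans ?_
    have a1 : cube (E (K + 2) p q r) {v | v ∈ Dev (E (K + 2) p q r) (ε / 3) ∧ Q109.CP.Ord v} ≤
        ENNReal.ofReal (η / 2) * P := by
      rw [ordS hex (K + 2) p q r _ (meas_dev _ _) fun π v hv => dev_symm π v hv, mul_comm]
      have := hdev (E (K + 2) p q r) (ε / 3) (by positivity) t1
      exact mul_le_mul_left (this.trans (ENNReal.ofReal_le_ofReal t2)) P
    have a2 : cube (E (K + 2) p q r) {v | Q109.CP.Ord v ∧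
        (fun i : Fin (K + 1) => v (X i.succ.castSucc)) ∈ Bad K p q r δ} ≤ ENNReal.ofReal (η / 2) * P := by
      rw [hc K _ (meas_bad hgp K p q r δ), hPu, mul_left_comm]
      exact mul_le_mul_right wb c
    refine (add_le_add a1 a2).trans (le_of_eq ?_)
    rw [← add_mul, ← ENNReal.ofReal_add (by positivity) (by positivity)]
    congr 2
    ring
  have h4 : (({σ | Q σ}.ncard : ℕ) : ℝ≥0∞) ≤ ENNReal.ofReal η * ((A.ncard : ℕ) : ℝ≥0∞) := by
    rw [← h1, ← hoc, mul_left_comm]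
    exact mul_le_mul_right (h2.trans h3) _
  rw [← ENNReal.ofReal_natCast, ← ENNReal.ofReal_natCast, ← ENNReal.ofReal_mul hη.le] at h4
  exact (ENNReal.ofReal_le_ofReal_iff (by positivity)).1 h4

end Q257.CP.EXT
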