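import Pool.Agent.Q109.CP.Stm

set_option autoImplicit false

/-!
# CP-FUB0: density of the main chain
-/

namespace Q257.CP.FUB0

open MeasureTheory Set Filter Topology
open Q109.CP
open scoped ENNReal

/-- the coordinates are in the unit interval almost everywhere -/
lemma cube_ae (ι : Type) [Fintype ι] : ∀ᵐ v ∂(cube ι), ∀ e, v e ∈ Icc (0 : ℝ) 1 := by
  have h1 : cube ι = (Measure.pi (fun _ : ι => (volume : Measure ℝ))).restrict
      (Set.univ.pi fun _ => Icc (0 : ℝ) 1) := by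
    unfold cube
    rw [Measure.restrict_pi_pi]
  rw [h1]
  have h2 : MeasurableSet (Set.univ.pi fun _ : ι => Icc (0 : ℝ) 1) :=
    MeasurableSet.univ_pi fun _ => measurableSet_Icc
  filter_upwards [ae_restrict_mem h2] with v hv e
  exact hv e (mem_univ e)

lemma meas_sm (K : ℕ) : MeasurableSet {x : Fin (K + 1) → ℝ | StrictMono x} := by
  have e : {x : Fin (K + 1) → ℝ | StrictMono x} = ⋂ i : Fin K, {x | x i.castSucc < x i.succ} := by
    ext x
    rw [mem_iInter]
    exact Fin.strictMono_iff_lt_succ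
  rw [e]
  exact MeasurableSet.iInter fun i => measurableSet_lt (measurable_pi_apply _) (measurable_pi_apply _)

lemma meas_ord (n p q r : ℕ) : MeasurableSet {v : E n p q r → ℝ | Ord v} := by
  have hlt : ∀ a b : E n p q r, MeasurableSet {v : E n p q r → ℝ | v a < v b} := fun a b =>
    measurableSet_lt (measurable_pi_apply _) (measurable_pi_apply _)
  have e : {v : E n p q r → ℝ | Ord v} =
      (⋂ i : Fin n, {v | v (X i.castSucc) < v (X i.succ)}) ∩
      ((⋂ (i : Fin n) (j : Fin p), {v | v (lo i j) < v (X i.castSucc)}) ∩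
      ((⋂ (i : Fin n) (j : Fin q), {v | v (X i.castSucc) < v (mi i j)} ∩ {v | v (mi i j) < v (X i.succ)}) ∩
      (⋂ (i : Fin n) (j : Fin r), {v | v (X i.succ) < v (up i j)}))) := by
    ext v
    simp only [mem_inter_iff, mem_iInter, mem_ofPred_eq]
    rfl
  rw [e]
  refine (MeasurableSet.iInter fun i => hlt _ _).inter
    ((MeasurableSet.iInter fun i => MeasurableSet.iInter fun j => hlt _ _).inter
    ((MeasurableSet.iInter fun i => MeasurableSet.iInter fun j => (hlt _ _).inter (hlt _ _)).inter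
    (MeasurableSet.iInter fun i => MeasurableSet.iInter fun j => hlt _ _)))

/-- the uniform measure on the interval -/
noncomputable def mu1 : Measure ℝ := (volume : Measure ℝ).restrict (Icc (0 : ℝ) 1)

lemma mu1_Iio {a : ℝ} (h : a ∈ Icc (0 : ℝ) 1) : mu1 (Iio a) = ENNReal.ofReal a := by
  unfold mu1
  rw [Measure.restrict_apply measurableSet_Iio]
  have e : Iio a ∩ Icc (0 : ℝ) 1 = Ico 0 a := by
    ext x
    simp only [mem_inter_iff, mem_Iio, mem_Icc, mem_Ico]
    constructor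
    · rintro ⟨h1, h2, h3⟩; exact ⟨h2, h1⟩
    · rintro ⟨h1, h2⟩; exact ⟨h2, h1, h2.le.trans h.2⟩
  rw [e, Real.volume_Ico, sub_zero]

lemma mu1_Ioi {a : ℝ} (h : a ∈ Icc (0 : ℝ) 1) : mu1 (Ioi a) = ENNReal.ofReal (1 - a) := by
  unfold mu1
  rw [Measure.restrict_apply measurableSet_Ioi]
  have e : Ioi a ∩ Icc (0 : ℝ) 1 = Ioc a 1 := by
    ext x
    simp only [mem_inter_iff, mem_Ioi, mem_Icc, mem_Ioc]
    constructor
    · rintro ⟨h1, h2, h3⟩; exact ⟨h1, h3⟩
    · rintro ⟨h1, h2⟩; exact ⟨h1, h.1.trans h1.le, h2⟩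
  rw [e, Real.volume_Ioc]

lemma mu1_Ioo {a b : ℝ} (ha : a ∈ Icc (0 : ℝ) 1) (hb : b ∈ Icc (0 : ℝ) 1) :
    mu1 (Ioo a b) = ENNReal.ofReal (b - a) := by
  unfold mu1
  rw [Measure.restrict_apply measurableSet_Ioo]
  have e : Ioo a b ∩ Icc (0 : ℝ) 1 = Ioo a b := by
    apply inter_eq_left.2
    intro x hx
    exact ⟨ha.1.trans hx.1.le, hx.2.le.trans hb.2⟩
  rw [e, Real.volume_Ioo]

instance : SigmaFinite mu1 := by unfold mu1; infer_instance

/-- the side elements -/
abbrev R (n p q r : ℕ) : Type := (Fin n × Fin p) ⊕ (Fin n × Fin q) ⊕ (Fin n × Fin r)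

/-- the box over a point of the main chain -/
def box {n p q r : ℕ} (x : Fin (n + 1) → ℝ) : R n p q r → Set ℝ
  | Sum.inl z => Iio (x z.1.castSucc)
  | Sum.inr (Sum.inl z) => Ioo (x z.1.castSucc) (x z.1.succ)
  | Sum.inr (Sum.inr z) => Ioi (x z.1.succ)

lemma box_measure {n p q r : ℕ} {x : Fin (n + 1) → ℝ} (hx : ∀ i, x i ∈ Icc (0 : ℝ) 1) (hm : StrictMono x) :
    cube (R n p q r) (Set.univ.pi (box x)) = ENNReal.ofReal (W0 n p q r x) := by
  have h1 : cube (R n p q r) (Set.univ.pi (box x)) = ∏ k : R n p q r, mu1 (box x k) := by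
    unfold cube mu1
    rw [Measure.pi_pi]
  rw [h1, Fintype.prod_sum_type, Fintype.prod_sum_type, Fintype.prod_prod_type, Fintype.prod_prod_type,
    Fintype.prod_prod_type]
  have e1 : ∀ (i : Fin n) (j : Fin p), mu1 (box (q := q) (r := r) x (Sum.inl (i, j))) =
      ENNReal.ofReal (x i.castSucc) := fun i j => mu1_Iio (hx _)
  have e2 : ∀ (i : Fin n) (j : Fin q), mu1 (box (p := p) (r := r) x (Sum.inr (Sum.inl (i, j)))) =
      ENNReal.ofReal (x i.succ - x i.castSucc) := fun i j => mu1_Ioo (hx _) (hx _)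
  have e3 : ∀ (i : Fin n) (j : Fin r), mu1 (box (p := p) (q := q) x (Sum.inr (Sum.inr (i, j)))) =
      ENNReal.ofReal (1 - x i.succ) := fun i j => mu1_Ioi (hx _)
  simp only [e1, e2, e3, Finset.prod_const, Finset.card_univ, Fintype.card_fin]
  rw [← Finset.prod_mul_distrib, ← Finset.prod_mul_distrib]
  unfold W0
  have hs : ∀ i : Fin n, 0 ≤ x i.succ - x i.castSucc := fun i => sub_nonneg.2 (hm Fin.castSucc_lt_succ).le
  have h1x : ∀ i : Fin n, 0 ≤ 1 - x i.succ := fun i => by linarith [(hx i.succ).2]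
  rw [ENNReal.ofReal_prod_of_nonneg fun i _ => mul_nonneg (mul_nonneg (pow_nonneg (hx _).1 _)
    (pow_nonneg (hs i) _)) (pow_nonneg (h1x i) _)]
  refine Finset.prod_congr rfl fun i _ => ?_
  rw [ENNReal.ofReal_mul (mul_nonneg (pow_nonneg (hx _).1 _) (pow_nonneg (hs i) _)),
    ENNReal.ofReal_mul (pow_nonneg (hx _).1 _), ENNReal.ofReal_pow (hx _).1, ENNReal.ofReal_pow (hs i),
    ENNReal.ofReal_pow (h1x i), mul_assoc]

/-- **FUB0** -/
theorem fub0 : S_FUB0 := by
  classical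
  intro n p q r B hB
  set S : Set (E n p q r → ℝ) := {v | Ord v ∧ (fun i => v (X i)) ∈ B} with hS
  have hSm : MeasurableSet S := by
    refine (meas_ord n p q r).inter ?_
    exact (measurable_pi_lambda _ fun i => measurable_pi_apply (X i)) hB
  set S' : Set (Fin (n + 1) → ℝ) := {x | StrictMono x ∧ x ∈ B} with hS'
  have hS'm : MeasurableSet S' := (meas_sm n).inter hB
  have mp := measurePreserving_sumPiEquivProdPi_symm (ι := Fin (n + 1)) (ι' := R n p q r)
    (X := fun _ => ℝ) (fun _ => (volume : Measure ℝ).restrict (Icc (0 : ℝ) 1))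
  have h1 := mp.measure_preimage hSm.nullMeasurableSet
  have h2 : cube (E n p q r) S = ((cube (Fin (n + 1))).prod (cube (R n p q r)))
      ((MeasurableEquiv.sumPiEquivProdPi fun _ : Fin (n + 1) ⊕ R n p q r => ℝ).symm ⁻¹' S) := h1.symm
  have hpre : MeasurableSet ((MeasurableEquiv.sumPiEquivProdPi fun _ : Fin (n + 1) ⊕ R n p q r => ℝ).symm ⁻¹' S) :=
    (MeasurableEquiv.sumPiEquivProdPi fun _ : Fin (n + 1) ⊕ R n p q r => ℝ).symm.measurable hSm
  have : SigmaFinite (cube (R n p q r)) := by unfold cube; infer_instance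
  rw [h2, Measure.prod_apply hpre, ← lintegral_indicator hS'm]
  refine lintegral_congr_ae ?_
  filter_upwards [cube_ae (Fin (n + 1))] with x hx
  have hfib : ∀ y : R n p q r → ℝ, (MeasurableEquiv.sumPiEquivProdPi fun _ : Fin (n + 1) ⊕ R n p q r => ℝ).symm (x, y) ∈ S ↔
      (x ∈ S' ∧ y ∈ Set.univ.pi (box (p := p) (q := q) (r := r) x)) := by
    intro y
    set v : E n p q r → ℝ := (MeasurableEquiv.sumPiEquivProdPi fun _ : Fin (n + 1) ⊕ R n p q r => ℝ).symm (x, y) with hv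
    have v1 : ∀ i, v (X i) = x i := fun i => rfl
    have v2 : ∀ i j, v (lo i j) = y (Sum.inl (i, j)) := fun i j => rfl
    have v3 : ∀ i j, v (mi i j) = y (Sum.inr (Sum.inl (i, j))) := fun i j => rfl
    have v4 : ∀ i j, v (up i j) = y (Sum.inr (Sum.inr (i, j))) := fun i j => rfl
    have vB : (fun i => v (X i)) = x := rfl
    show (Ord v ∧ (fun i => v (X i)) ∈ B) ↔ _
    rw [vB]
    unfold Q109.CP.Ord
    simp only [v1, v2, v3, v4]
    constructor
    · rintro ⟨⟨o1, o2, o3, o4⟩, hb⟩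
      refine ⟨⟨Fin.strictMono_iff_lt_succ.2 o1, hb⟩, fun k _ => ?_⟩
      rcases k with ⟨i, j⟩ | ⟨i, j⟩ | ⟨i, j⟩
      · exact o2 i j
      · exact ⟨(o3 i j).1, (o3 i j).2⟩
      · exact o4 i j
    · rintro ⟨⟨hm, hb⟩, hy⟩
      exact ⟨⟨Fin.strictMono_iff_lt_succ.1 hm, fun i j => hy (Sum.inl (i, j)) (mem_univ _),
        fun i j => ⟨(hy (Sum.inr (Sum.inl (i, j))) (mem_univ _)).1,
          (hy (Sum.inr (Sum.inl (i, j))) (mem_univ _)).2⟩,
        fun i j => hy (Sum.inr (Sum.inr (i, j))) (mem_univ _)⟩, hb⟩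
  by_cases hxS : x ∈ S'
  · rw [indicator_of_mem hxS, ← box_measure hx hxS.1]
    congr 1
    ext y
    exact (hfib y).trans ⟨fun h => h.2, fun h => ⟨hxS, h⟩⟩
  · rw [indicator_of_notMem hxS]
    have : Prod.mk x ⁻¹' ((MeasurableEquiv.sumPiEquivProdPi fun _ : Fin (n + 1) ⊕ R n p q r => ℝ).symm ⁻¹' S) =
        ∅ := by
      ext y
      simp only [mem_empty_iff_false, iff_false]
      intro h
      exact hxS ((hfib y).1 h).1
    rw [this, measure_empty]

end Q257.CP.FUB0
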