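import Pool.Agent.Q109.CP.Stm

set_option autoImplicit false

/-!
# CP-FUB2: integrate out the two extreme points of the main chain
-/

namespace Q257.CP.FUB2

open MeasureTheory Set Filter Topology
open Q109.CP
open scoped ENNReal

/-- the uniform measure on the interval -/
noncomputable def mu1 : Measure ℝ := (volume : Measure ℝ).restrict (Icc (0 : ℝ) 1)

instance : SigmaFinite mu1 := by unfold mu1; infer_instance

instance (ι : Type) [Fintype ι] : SigmaFinite (cube ι) := by unfold cube; infer_instance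

/-- the coordinates are in the unit interval almost everywhere -/
lemma cube_ae (ι : Type) [Fintype ι] : ∀ᵐ v ∂(cube ι), ∀ e, v e ∈ Icc (0 : ℝ) 1 := by
  have h1 : cube ι = (Measure.pi (fun _ : ι => (volume : Measure ℝ))).restrict
      (Set.univ.pi fun _ => Icc (0 : ℝ) 1) := by
    unfold cube
    rw [Measure.restrict_pi_pi]
  rw [h1]
  have h2 : MeasurableSet (Set.univ.pi fun _ : ι => Icc (0 : ℝ) 1) :=
    MeasurableSet.univ_pi fun _ => measurableSet_Icc
  filter_upwards [ae_restrict_mem h2] with v hv e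
  exact hv e (mem_univ e)

lemma meas_sm (K : ℕ) : MeasurableSet {x : Fin (K + 1) → ℝ | StrictMono x} := by
  have e : {x : Fin (K + 1) → ℝ | StrictMono x} = ⋂ i : Fin K, {x | x i.castSucc < x i.succ} := by
    ext x
    rw [mem_iInter]
    exact Fin.strictMono_iff_lt_succ
  rw [e]
  exact MeasurableSet.iInter fun i => measurableSet_lt (measurable_pi_apply _) (measurable_pi_apply _)

lemma cons_meas (n : ℕ) : Measurable fun z : ℝ × (Fin n → ℝ) => (Fin.cons z.1 z.2 : Fin (n + 1) → ℝ) := by
  refine measurable_pi_lambda _ fun i => ?_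
  refine Fin.cases ?_ (fun j => ?_) i
  · simp only [Fin.cons_zero]
    exact measurable_fst
  · simp only [Fin.cons_succ]
    exact (measurable_pi_apply j).comp measurable_snd

lemma snoc_meas (n : ℕ) : Measurable fun z : ℝ × (Fin n → ℝ) => (Fin.snoc z.2 z.1 : Fin (n + 1) → ℝ) := by
  refine measurable_pi_lambda _ fun i => ?_
  refine Fin.lastCases ?_ (fun j => ?_) i
  · simp only [Fin.snoc_last]
    exact measurable_fst
  · simp only [Fin.snoc_castSucc]
    exact (measurable_pi_apply j).comp measurable_snd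

lemma split_first (n : ℕ) (F : (Fin (n + 1) → ℝ) → ℝ≥0∞) (hF : Measurable F) :
    ∫⁻ x, F x ∂(cube (Fin (n + 1))) = ∫⁻ y, ∫⁻ u, F (Fin.cons u y) ∂mu1 ∂(cube (Fin n)) := by
  have mp1 := (measurePreserving_piFinSuccAbove (fun _ : Fin (n + 1) => mu1) 0).symm
    (MeasurableEquiv.piFinSuccAbove (fun _ : Fin (n + 1) => ℝ) 0)
  have h1 := MeasurePreserving.lintegral_map_equiv F _ mp1
  have hins : ∀ z : ℝ × (Fin n → ℝ), (MeasurableEquiv.piFinSuccAbove (fun _ : Fin (n + 1) => ℝ) 0).symm z =
      (Fin.cons z.1 z.2 : Fin (n + 1) → ℝ) := fun z => Fin.insertNth_zero' z.1 z.2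
  simp only [hins] at h1
  have hm : Measurable fun z : ℝ × (Fin n → ℝ) => F (Fin.cons z.1 z.2) := hF.comp (cons_meas n)
  rw [lintegral_prod_symm _ hm.aemeasurable] at h1
  exact h1

lemma split_last (n : ℕ) (F : (Fin (n + 1) → ℝ) → ℝ≥0∞) (hF : Measurable F) :
    ∫⁻ x, F x ∂(cube (Fin (n + 1))) = ∫⁻ y, ∫⁻ w, F (Fin.snoc y w) ∂mu1 ∂(cube (Fin n)) := by
  have mp1 := (measurePreserving_piFinSuccAbove (fun _ : Fin (n + 1) => mu1) (Fin.last n)).symm
    (MeasurableEquiv.piFinSuccAbove (fun _ : Fin (n + 1) => ℝ) (Fin.last n))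
  have h1 := MeasurePreserving.lintegral_map_equiv F _ mp1
  have hins : ∀ z : ℝ × (Fin n → ℝ), (MeasurableEquiv.piFinSuccAbove (fun _ : Fin (n + 1) => ℝ) (Fin.last n)).symm z =
      (Fin.snoc z.2 z.1 : Fin (n + 1) → ℝ) := fun z => Fin.insertNth_last' z.1 z.2
  simp only [hins] at h1
  have hm : Measurable fun z : ℝ × (Fin n → ℝ) => F (Fin.snoc z.2 z.1) := hF.comp (snoc_meas n)
  rw [lintegral_prod_symm _ hm.aemeasurable] at h1
  exact h1

/-- the beta integral -/
noncomputable def bet (p q : ℕ) : ℝ := ∫ v in (0 : ℝ)..1, v ^ p * (1 - v) ^ q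

lemma bet_pos (p q : ℕ) : 0 < bet p q := by
  unfold bet
  refine intervalIntegral.intervalIntegral_pos_of_pos_on ?_ (fun x hx => ?_) one_pos
  · exact (by fun_prop : Continuous fun v : ℝ => v ^ p * (1 - v) ^ q).intervalIntegrable _ _
  · have : 0 < 1 - x := by linarith [hx.2]
    have := hx.1
    positivity

lemma bet_scale (p q : ℕ) (a : ℝ) : ∫ u in (0 : ℝ)..a, u ^ p * (a - u) ^ q = a ^ (p + q + 1) * bet p q := by
  have h1 := intervalIntegral.mul_integral_comp_mul_left (f := fun u : ℝ => u ^ p * (a - u) ^ q)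
    (a := 0) (b := 1) a
  rw [mul_zero, mul_one] at h1
  rw [← h1]
  unfold bet
  rw [← intervalIntegral.integral_const_mul, ← intervalIntegral.integral_const_mul]
  refine intervalIntegral.integral_congr fun v _ => ?_
  have : a - a * v = a * (1 - v) := by ring
  rw [this, mul_pow, mul_pow]
  ring

/-- the first factor -/
noncomputable def g1 (p q : ℕ) (a u : ℝ) : ℝ≥0∞ := if u < a then ENNReal.ofReal (u ^ p * (a - u) ^ q) else 0

/-- the last factor -/
noncomputable def g2 (q r : ℕ) (b w : ℝ) : ℝ≥0∞ := if b < w then ENNReal.ofReal ((w - b) ^ q * (1 - w) ^ r) else 0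

lemma g1_int (p q : ℕ) {a : ℝ} (ha : a ∈ Icc (0 : ℝ) 1) :
    ∫⁻ u, g1 p q a u ∂mu1 = ENNReal.ofReal (a ^ (p + q + 1) * bet p q) := by
  have e1 : ∀ u, g1 p q a u = (Iio a).indicator (fun u => ENNReal.ofReal (u ^ p * (a - u) ^ q)) u := by
    intro u
    unfold g1
    by_cases h : u < a
    · rw [if_pos h, indicator_of_mem (mem_Iio.2 h)]
    · rw [if_neg h, indicator_of_notMem (by rwa [mem_Iio])]
  simp only [e1]
  rw [lintegral_indicator measurableSet_Iio]
  unfold mu1
  rw [Measure.restrict_restrict measurableSet_Iio]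
  have e : Iio a ∩ Icc (0 : ℝ) 1 = Ico 0 a := by
    ext x
    simp only [mem_inter_iff, mem_Iio, mem_Icc, mem_Ico]
    constructor
    · rintro ⟨h1, h2, h3⟩; exact ⟨h2, h1⟩
    · rintro ⟨h1, h2⟩; exact ⟨h2, h1, h2.le.trans ha.2⟩
  rw [e, restrict_Ico_eq_restrict_Ioc, ← bet_scale, intervalIntegral.integral_of_le ha.1]
  have hi : IntegrableOn (fun u : ℝ => u ^ p * (a - u) ^ q) (Ioc 0 a) :=
    ((by fun_prop : Continuous fun u : ℝ => u ^ p * (a - u) ^ q).integrableOn_Icc).mono_set Ioc_subset_Icc_self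
  rw [ofReal_integral_eq_lintegral_ofReal hi]
  filter_upwards [ae_restrict_mem (measurableSet_Ioc : MeasurableSet (Ioc (0 : ℝ) a))] with u hu
  have : 0 ≤ a - u := by linarith [hu.2]
  have := hu.1.le
  show 0 ≤ u ^ p * (a - u) ^ q
  positivity

lemma g2_int (q r : ℕ) {b : ℝ} (hb : b ∈ Icc (0 : ℝ) 1) :
    ∫⁻ w, g2 q r b w ∂mu1 = ENNReal.ofReal ((1 - b) ^ (q + r + 1) * bet r q) := by
  have e1 : ∀ w, g2 q r b w = (Ioi b).indicator (fun w => ENNReal.ofReal ((w - b) ^ q * (1 - w) ^ r)) w := by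
    intro w
    unfold g2
    by_cases h : b < w
    · rw [if_pos h, indicator_of_mem (mem_Ioi.2 h)]
    · rw [if_neg h, indicator_of_notMem (by rwa [mem_Ioi])]
  simp only [e1]
  rw [lintegral_indicator measurableSet_Ioi]
  unfold mu1
  rw [Measure.restrict_restrict measurableSet_Ioi]
  have e : Ioi b ∩ Icc (0 : ℝ) 1 = Ioc b 1 := by
    ext x
    simp only [mem_inter_iff, mem_Ioi, mem_Icc, mem_Ioc]
    constructor
    · rintro ⟨h1, h2, h3⟩; exact ⟨h1, h3⟩
    · rintro ⟨h1, h2⟩; exact ⟨h1, hb.1.trans h1.le, h2⟩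
  have h2 : ∫ w in b..1, (w - b) ^ q * (1 - w) ^ r = (1 - b) ^ (q + r + 1) * bet r q := by
    have h3 := intervalIntegral.integral_comp_sub_left (a := b) (b := 1)
      (fun u : ℝ => u ^ r * ((1 - b) - u) ^ q) 1
    rw [sub_self, bet_scale] at h3
    have h4 : q + r + 1 = r + q + 1 := by omega
    rw [h4, ← h3]
    refine intervalIntegral.integral_congr fun w _ => ?_
    have : 1 - b - (1 - w) = w - b := by ring
    rw [this, mul_comm]
  rw [e, ← h2, intervalIntegral.integral_of_le hb.2]
  have hi : IntegrableOn (fun w : ℝ => (w - b) ^ q * (1 - w) ^ r) (Ioc b 1) :=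
    ((by fun_prop : Continuous fun w : ℝ => (w - b) ^ q * (1 - w) ^ r).integrableOn_Icc).mono_set Ioc_subset_Icc_self
  rw [ofReal_integral_eq_lintegral_ofReal hi]
  filter_upwards [ae_restrict_mem (measurableSet_Ioc : MeasurableSet (Ioc b (1 : ℝ)))] with w hw
  have : 0 ≤ w - b := by linarith [hw.1]
  have : 0 ≤ 1 - w := by linarith [hw.2]
  show 0 ≤ (w - b) ^ q * (1 - w) ^ r
  positivity

/-- what remains -/
noncomputable def rest (K p q r : ℕ) (y : Fin (K + 1) → ℝ) : ℝ :=
  (∏ i : Fin (K + 1), y i ^ p * (1 - y i) ^ r) * ∏ i : Fin K, (y i.succ - y i.castSucc) ^ q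

lemma W0_eq (K p q r : ℕ) (y : Fin (K + 1) → ℝ) (u w : ℝ) :
    W0 (K + 2) p q r (Fin.cons u (Fin.snoc y w : Fin (K + 1 + 1) → ℝ)) =
      rest K p q r y * (u ^ p * (y 0 - u) ^ q) * ((w - y (Fin.last K)) ^ q * (1 - w) ^ r) := by
  have e0 : (Fin.snoc y w : Fin (K + 1 + 1) → ℝ) 0 = y 0 := by
    have : (0 : Fin (K + 1 + 1)) = (0 : Fin (K + 1)).castSucc := rfl
    rw [this, Fin.snoc_castSucc]
  set x : Fin (K + 2 + 1) → ℝ := Fin.cons u (Fin.snoc y w : Fin (K + 1 + 1) → ℝ) with hx
  have c0 : x (0 : Fin (K + 2)).castSucc = u := rfl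
  have c1 : x (0 : Fin (K + 2)).succ = y 0 := by
    rw [hx, Fin.cons_succ, e0]
  have c2 : ∀ k : Fin K, x (k.castSucc.succ).castSucc = y k.castSucc := by
    intro k
    have : (k.castSucc.succ).castSucc = k.castSucc.castSucc.succ := rfl
    rw [hx, this, Fin.cons_succ, Fin.snoc_castSucc]
  have c3 : ∀ k : Fin K, x (k.castSucc.succ).succ = y k.succ := by
    intro k
    have : k.castSucc.succ = k.succ.castSucc := rfl
    rw [hx, Fin.cons_succ, this, Fin.snoc_castSucc]
  have c4 : x ((Fin.last K).succ).castSucc = y (Fin.last K) := by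
    have : ((Fin.last K).succ).castSucc = (Fin.last K).castSucc.succ := rfl
    rw [hx, this, Fin.cons_succ, Fin.snoc_castSucc]
  have c5 : x ((Fin.last K).succ).succ = w := by
    rw [hx, Fin.cons_succ, Fin.succ_last, Fin.snoc_last]
  unfold W0 rest
  rw [Fin.prod_univ_succ, Fin.prod_univ_castSucc, c0, c1, c4, c5]
  simp only [c2, c3]
  have h1 : ∏ i : Fin (K + 1), y i ^ p * (1 - y i) ^ r =
      ((∏ i : Fin K, y i.castSucc ^ p) * y (Fin.last K) ^ p) *
        ((1 - y 0) ^ r * ∏ i : Fin K, (1 - y i.succ) ^ r) := by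
    rw [Finset.prod_mul_distrib, Fin.prod_univ_castSucc (fun i => y i ^ p),
      Fin.prod_univ_succ (fun i => (1 - y i) ^ r)]
  rw [h1, Finset.prod_mul_distrib, Finset.prod_mul_distrib]
  ring

/-- **FUB2** -/
theorem fub2 : S_FUB0 → S_FUB2 := by
  classical
  intro hfub p q r
  have hb1 := bet_pos p q
  have hb2 := bet_pos r q
  refine ⟨ENNReal.ofReal (bet p q) * ENNReal.ofReal (bet r q), ?_, ?_, ?_⟩
  · refine mul_ne_zero ?_ ?_
    · rw [Ne, ENNReal.ofReal_eq_zero, not_le]; exact hb1
    · rw [Ne, ENNReal.ofReal_eq_zero, not_le]; exact hb2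
  · exact ENNReal.mul_ne_top ENNReal.ofReal_ne_top ENNReal.ofReal_ne_top
  intro K B hB
  have hinm : Measurable fun x : Fin (K + 2 + 1) → ℝ => fun i : Fin (K + 1) => x i.succ.castSucc :=
    measurable_pi_lambda _ fun i => measurable_pi_apply i.succ.castSucc
  have h1 := hfub (K + 2) p q r {x | (fun i : Fin (K + 1) => x i.succ.castSucc) ∈ B} (hinm hB)
  have h2 : {v : E (K + 2) p q r → ℝ | Q109.CP.Ord v ∧ (fun i : Fin (K + 1) => v (X i.succ.castSucc)) ∈ B} =
      {v : E (K + 2) p q r → ℝ | Q109.CP.Ord v ∧ (fun i => v (X i)) ∈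
        {x : Fin (K + 2 + 1) → ℝ | (fun i : Fin (K + 1) => x i.succ.castSucc) ∈ B}} := rfl
  rw [h2, h1]
  set S' : Set (Fin (K + 2 + 1) → ℝ) := {x | StrictMono x ∧ x ∈
    {x : Fin (K + 2 + 1) → ℝ | (fun i : Fin (K + 1) => x i.succ.castSucc) ∈ B}} with hS'
  have hS'm : MeasurableSet S' := (meas_sm (K + 2)).inter (hinm hB)
  rw [← lintegral_indicator hS'm]
  set F : (Fin (K + 2 + 1) → ℝ) → ℝ≥0∞ := S'.indicator fun x => ENNReal.ofReal (W0 (K + 2) p q r x) with hF
  have hW0m : Measurable fun x : Fin (K + 2 + 1) → ℝ => ENNReal.ofReal (W0 (K + 2) p q r x) := by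
    refine ENNReal.measurable_ofReal.comp ?_
    unfold W0
    have m : ∀ i : Fin (K + 2 + 1), Measurable fun x : Fin (K + 2 + 1) → ℝ => x i := fun i => measurable_pi_apply i
    refine Finset.measurable_prod _ fun i _ => ?_
    exact (((m i.castSucc).pow_const p).mul
      (((m i.succ).sub (m i.castSucc)).pow_const q)).mul
      (((m i.succ).const_sub 1).pow_const r)
  have hFm : Measurable F := hW0m.indicator hS'm
  have s1 := split_first (K + 2) F hFm
  have hF2m : Measurable fun z : Fin (K + 1 + 1) → ℝ => ∫⁻ u, F (Fin.cons u z) ∂mu1 := by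
    have hm : Measurable fun z : ℝ × (Fin (K + 1 + 1) → ℝ) => F (Fin.cons z.1 z.2) := hFm.comp (cons_meas _)
    exact hm.lintegral_prod_left'
  have s2 := split_last (K + 1) (fun z => ∫⁻ u, F (Fin.cons u z) ∂mu1) hF2m
  rw [s1]
  have s3 : ∫⁻ (y : Fin (K + 2) → ℝ), ∫⁻ (u : ℝ), F (Fin.cons u y) ∂mu1 ∂cube (Fin (K + 2)) =
      ∫⁻ (y : Fin (K + 1) → ℝ), ∫⁻ (w : ℝ), ∫⁻ (u : ℝ), F (Fin.cons u (Fin.snoc y w : Fin (K + 1 + 1) → ℝ)) ∂mu1 ∂mu1 ∂cube (Fin (K + 1)) := s2
  rw [s3]
  set S'' : Set (Fin (K + 1) → ℝ) := {y | StrictMono y ∧ y ∈ B} with hS''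
  have hS''m : MeasurableSet S'' := (meas_sm K).inter hB
  have hWtm : Measurable fun y : Fin (K + 1) → ℝ => ENNReal.ofReal (Wt K p q r y) := by
    refine ENNReal.measurable_ofReal.comp ?_
    have m : ∀ i : Fin (K + 1), Measurable fun x : Fin (K + 1) → ℝ => x i := fun i => measurable_pi_apply i
    have m1 : ∀ i : Fin (K + 1), Measurable fun x : Fin (K + 1) → ℝ => 1 - x i := fun i => (m i).const_sub 1
    have n1 : Measurable fun x : Fin (K + 1) → ℝ => ∏ i : Fin (K + 1), x i ^ p * (1 - x i) ^ r :=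
      Finset.measurable_prod _ fun i _ => ((m i).pow_const _).mul ((m1 i).pow_const _)
    have n2 : Measurable fun x : Fin (K + 1) → ℝ => ∏ i : Fin K, (x i.succ - x i.castSucc) ^ q :=
      Finset.measurable_prod _ fun i _ => ((m i.succ).sub (m i.castSucc)).pow_const _
    exact ((((m 0).pow_const (p + q + 1)).mul ((m1 (Fin.last K)).pow_const (q + r + 1))).mul n1).mul n2
  unfold WI
  rw [← lintegral_indicator hS''m, ← lintegral_const_mul _ (hWtm.indicator hS''m)]
  refine lintegral_congr_ae ?_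
  filter_upwards [cube_ae (Fin (K + 1))] with y hy
  have hmu : ∀ᵐ u ∂mu1, u ∈ Icc (0 : ℝ) 1 := by
    unfold mu1
    exact ae_restrict_mem measurableSet_Icc
  have key : ∀ w ∈ Icc (0 : ℝ) 1, ∀ u ∈ Icc (0 : ℝ) 1,
      F (Fin.cons u (Fin.snoc y w : Fin (K + 1 + 1) → ℝ)) =
        (if y ∈ S'' then ENNReal.ofReal (rest K p q r y) else 0) * g2 q r (y (Fin.last K)) w * g1 p q (y 0) u := by
    intro w hw u hu
    set x : Fin (K + 2 + 1) → ℝ := Fin.cons u (Fin.snoc y w : Fin (K + 1 + 1) → ℝ) with hx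
    have hinner : (fun i : Fin (K + 1) => x i.succ.castSucc) = y := by
      funext i
      rw [hx]
      have : i.succ.castSucc = i.castSucc.succ := rfl
      rw [this, Fin.cons_succ, Fin.snoc_castSucc]
    have e0 : (Fin.snoc y w : Fin (K + 1 + 1) → ℝ) 0 = y 0 := by
      have : (0 : Fin (K + 1 + 1)) = (0 : Fin (K + 1)).castSucc := rfl
      rw [this, Fin.snoc_castSucc]
    have hsm : StrictMono x ↔ (u < y 0 ∧ StrictMono y ∧ y (Fin.last K) < w) := by
      rw [Fin.strictMono_iff_lt_succ, Fin.strictMono_iff_lt_succ]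
      constructor
      · intro h
        refine ⟨?_, fun i => ?_, ?_⟩
        · have := h 0
          rw [hx] at this
          simp only [Fin.castSucc_zero, Fin.cons_zero, Fin.cons_succ, e0] at this
          exact this
        · have := h i.succ.castSucc
          have a1 : x i.succ.castSucc.castSucc = y i.castSucc := by
            rw [hx]
            have : i.succ.castSucc.castSucc = i.castSucc.castSucc.succ := rfl
            rw [this, Fin.cons_succ, Fin.snoc_castSucc]
          have a2 : x i.succ.castSucc.succ = y i.succ := by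
            rw [hx, Fin.cons_succ, Fin.snoc_castSucc]
          rwa [a1, a2] at this
        · have := h (Fin.last (K + 1))
          have a1 : x (Fin.last (K + 1)).castSucc = y (Fin.last K) := by
            rw [hx]
            have : (Fin.last (K + 1)).castSucc = (Fin.last K).castSucc.succ := rfl
            rw [this, Fin.cons_succ, Fin.snoc_castSucc]
          have a2 : x (Fin.last (K + 1)).succ = w := by
            rw [hx, Fin.cons_succ, Fin.snoc_last]
          rwa [a1, a2] at this
      · rintro ⟨h1, h2, h3⟩ i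
        refine Fin.cases ?_ (fun j => ?_) i
        · rw [hx]
          simp only [Fin.castSucc_zero, Fin.cons_zero, Fin.cons_succ, e0]
          exact h1
        · refine Fin.lastCases ?_ (fun k => ?_) j
          · have a1 : x (Fin.last K).succ.castSucc = y (Fin.last K) := by
              rw [hx]
              have : (Fin.last K).succ.castSucc = (Fin.last K).castSucc.succ := rfl
              rw [this, Fin.cons_succ, Fin.snoc_castSucc]
            have a2 : x (Fin.last K).succ.succ = w := by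
              rw [hx, Fin.cons_succ, Fin.succ_last, Fin.snoc_last]
            rw [a1, a2]
            exact h3
          · have a1 : x k.castSucc.succ.castSucc = y k.castSucc := by
              rw [hx]
              have : k.castSucc.succ.castSucc = k.castSucc.castSucc.succ := rfl
              rw [this, Fin.cons_succ, Fin.snoc_castSucc]
            have a2 : x k.castSucc.succ.succ = y k.succ := by
              rw [hx, Fin.cons_succ]
              have : k.castSucc.succ = k.succ.castSucc := rfl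
              rw [this, Fin.snoc_castSucc]
            rw [a1, a2]
            exact h2 k
    by_cases hS : y ∈ S''
    · by_cases hu0 : u < y 0
      · by_cases hw0 : y (Fin.last K) < w
        · have hxS : x ∈ S' := ⟨hsm.2 ⟨hu0, hS.1, hw0⟩, by
            show (fun i : Fin (K + 1) => x i.succ.castSucc) ∈ B
            rw [hinner]; exact hS.2⟩
          have k1 : 0 ≤ rest K p q r y := by
            unfold rest
            refine mul_nonneg (Finset.prod_nonneg fun i _ => mul_nonneg (pow_nonneg (hy i).1 _)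
              (pow_nonneg (by linarith [(hy i).2]) _)) (Finset.prod_nonneg fun i _ =>
              pow_nonneg (sub_nonneg.2 (hS.1 Fin.castSucc_lt_succ).le) _)
          have k2 : 0 ≤ u ^ p * (y 0 - u) ^ q :=
            mul_nonneg (pow_nonneg hu.1 _) (pow_nonneg (by linarith) _)
          rw [hF, indicator_of_mem hxS, if_pos hS, hx, W0_eq]
          unfold g1 g2
          rw [if_pos hu0, if_pos hw0, ENNReal.ofReal_mul (mul_nonneg k1 k2), ENNReal.ofReal_mul k1]
          ring
        · have hxS : x ∉ S' := fun h => hw0 (hsm.1 h.1).2.2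
          rw [hF, indicator_of_notMem hxS]
          unfold g2
          rw [if_neg hw0, mul_zero, zero_mul]
      · have hxS : x ∉ S' := fun h => hu0 (hsm.1 h.1).1
        rw [hF, indicator_of_notMem hxS]
        unfold g1
        rw [if_neg hu0, mul_zero]
    · have hxS : x ∉ S' := fun h => hS ⟨(hsm.1 h.1).2.1, by
        have := h.2
        show y ∈ B
        rw [← hinner]; exact this⟩
      rw [hF, indicator_of_notMem hxS, if_neg hS, zero_mul, zero_mul]
  have i1 : ∀ᵐ w ∂mu1, ∫⁻ (u : ℝ), F (Fin.cons u (Fin.snoc y w : Fin (K + 1 + 1) → ℝ)) ∂mu1 =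
      (if y ∈ S'' then ENNReal.ofReal (rest K p q r y) else 0) * g2 q r (y (Fin.last K)) w *
        ENNReal.ofReal (y 0 ^ (p + q + 1) * bet p q) := by
    filter_upwards [hmu] with w hw
    rw [← g1_int p q (hy 0)]
    have : ∫⁻ (u : ℝ), F (Fin.cons u (Fin.snoc y w : Fin (K + 1 + 1) → ℝ)) ∂mu1 =
        ∫⁻ (u : ℝ), (if y ∈ S'' then ENNReal.ofReal (rest K p q r y) else 0) * g2 q r (y (Fin.last K)) w *
          g1 p q (y 0) u ∂mu1 := by
      refine lintegral_congr_ae ?_
      filter_upwards [hmu] with u hu using key w hw u hu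
    rw [this]
    refine lintegral_const_mul' _ _ ?_
    refine ENNReal.mul_ne_top ?_ ?_
    · split_ifs
      · exact ENNReal.ofReal_ne_top
      · exact ENNReal.zero_ne_top
    · unfold g2
      split_ifs
      · exact ENNReal.ofReal_ne_top
      · exact ENNReal.zero_ne_top
  rw [lintegral_congr_ae i1]
  have i2 : ∫⁻ w, (if y ∈ S'' then ENNReal.ofReal (rest K p q r y) else 0) * g2 q r (y (Fin.last K)) w *
      ENNReal.ofReal (y 0 ^ (p + q + 1) * bet p q) ∂mu1 =
      ((if y ∈ S'' then ENNReal.ofReal (rest K p q r y) else 0) * ENNReal.ofReal (y 0 ^ (p + q + 1) * bet p q)) *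
        ENNReal.ofReal ((1 - y (Fin.last K)) ^ (q + r + 1) * bet r q) := by
    rw [← g2_int q r (hy (Fin.last K)), ← lintegral_const_mul']
    · refine lintegral_congr fun w => ?_
      ring
    · refine ENNReal.mul_ne_top ?_ ENNReal.ofReal_ne_top
      split_ifs
      · exact ENNReal.ofReal_ne_top
      · exact ENNReal.zero_ne_top
  rw [i2]
  by_cases hS : y ∈ S''
  · rw [if_pos hS, indicator_of_mem hS]
    have k1 : 0 ≤ rest K p q r y := by
      unfold rest
      refine mul_nonneg (Finset.prod_nonneg fun i _ => mul_nonneg (pow_nonneg (hy i).1 _)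
        (pow_nonneg (by linarith [(hy i).2]) _)) (Finset.prod_nonneg fun i _ =>
        pow_nonneg (sub_nonneg.2 (hS.1 Fin.castSucc_lt_succ).le) _)
    have k2 : 0 ≤ y 0 ^ (p + q + 1) * bet p q := mul_nonneg (pow_nonneg (hy 0).1 _) hb1.le
    rw [← ENNReal.ofReal_mul k1, ← ENNReal.ofReal_mul (mul_nonneg k1 k2), ← ENNReal.ofReal_mul hb1.le,
      ← ENNReal.ofReal_mul (mul_nonneg hb1.le hb2.le)]
    congr 1
    unfold rest Wt
    ring
  · rw [if_neg hS, indicator_of_notMem hS, zero_mul, zero_mul, mul_zero]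

end Q257.CP.FUB2
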