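import Pool.Agent.Q109.CP.Stm

set_option autoImplicit false

/-!
# CP-GP: properties of `phi` and `G`
-/

namespace Q257.CP

open MeasureTheory Set Filter Topology
open Q109.CP

lemma al_nonneg (p q : ℕ) : (0 : ℝ) ≤ (p : ℝ) / ((q : ℝ) + 1) := by positivity

lemma phi_cont (p q r : ℕ) : Continuous (phi p q r) := by
  unfold phi
  exact (Real.continuous_rpow_const (al_nonneg p q)).mul
    ((Real.continuous_rpow_const (al_nonneg r q)).comp (by fun_prop : Continuous fun x : ℝ => 1 - x))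

lemma phi_mem (p q r : ℕ) {x : ℝ} (hx : x ∈ Icc (0 : ℝ) 1) : 0 ≤ phi p q r x ∧ phi p q r x ≤ 1 := by
  obtain ⟨h0, h1⟩ := hx
  have h2 : 0 ≤ 1 - x := by linarith
  have h3 : 1 - x ≤ 1 := by linarith
  have a0 := Real.rpow_nonneg h0 ((p : ℝ) / ((q : ℝ) + 1))
  have a1 := Real.rpow_le_one h0 h1 (al_nonneg p q)
  have b0 := Real.rpow_nonneg h2 ((r : ℝ) / ((q : ℝ) + 1))
  have b1 := Real.rpow_le_one h2 h3 (al_nonneg r q)
  unfold phi
  exact ⟨mul_nonneg a0 b0, mul_le_one₀ a1 b0 b1⟩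

lemma phi_pos (p q r : ℕ) {x : ℝ} (hx : x ∈ Ioo (0 : ℝ) 1) : 0 < phi p q r x := by
  unfold phi
  exact mul_pos (Real.rpow_pos_of_pos hx.1 _) (Real.rpow_pos_of_pos (by linarith [hx.2]) _)

lemma phi_deriv (p q r : ℕ) {x : ℝ} (hx : x ∈ Ioo (0 : ℝ) 1) :
    HasDerivAt (phi p q r) (x ^ ((p : ℝ) / ((q : ℝ) + 1) - 1) * (1 - x) ^ ((r : ℝ) / ((q : ℝ) + 1) - 1) *
      ((p : ℝ) / ((q : ℝ) + 1) * (1 - x) - (r : ℝ) / ((q : ℝ) + 1) * x)) x := by
  set α : ℝ := (p : ℝ) / ((q : ℝ) + 1)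
  set β : ℝ := (r : ℝ) / ((q : ℝ) + 1)
  have hx0 : 0 < x := hx.1
  have hx1 : 0 < 1 - x := by linarith [hx.2]
  have h1 : HasDerivAt (fun x : ℝ => x ^ α) (α * x ^ (α - 1)) x :=
    Real.hasDerivAt_rpow_const (Or.inl hx0.ne')
  have h2 : HasDerivAt (fun x : ℝ => (1 - x) ^ β) (-1 * β * (1 - x) ^ (β - 1)) x :=
    ((hasDerivAt_id x).const_sub 1).rpow_const (Or.inl hx1.ne')
  have h3 := h1.mul h2
  have e1 : x ^ α = x ^ (α - 1) * x := by
    rw [Real.rpow_sub_one hx0.ne', div_mul_cancel₀ _ hx0.ne']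
  have e2 : (1 - x) ^ β = (1 - x) ^ (β - 1) * (1 - x) := by
    rw [Real.rpow_sub_one hx1.ne', div_mul_cancel₀ _ hx1.ne']
  refine (h3.congr_deriv ?_).congr_of_eventuallyEq (Eventually.of_forall fun y => rfl)
  rw [e1, e2]
  ring

lemma phi_uni (p q r : ℕ) : ∃ c ∈ Icc (0 : ℝ) 1, MonotoneOn (phi p q r) (Icc 0 c) ∧
    AntitoneOn (phi p q r) (Icc c 1) := by
  have hα := al_nonneg p q
  have hβ := al_nonneg r q
  set α : ℝ := (p : ℝ) / ((q : ℝ) + 1) with hαd
  set β : ℝ := (r : ℝ) / ((q : ℝ) + 1) with hβd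
  rcases eq_or_lt_of_le (add_nonneg hα hβ) with h0 | h0
  · have hα0 : α = 0 := by linarith
    have hβ0 : β = 0 := by linarith
    have hphi : ∀ x, phi p q r x = 1 := by
      intro x
      unfold phi
      rw [← hαd, ← hβd, hα0, hβ0, Real.rpow_zero, Real.rpow_zero, mul_one]
    refine ⟨0, ⟨le_rfl, zero_le_one⟩, fun x _ y _ _ => by rw [hphi, hphi],
      fun x _ y _ _ => by rw [hphi, hphi]⟩
  · have hc0 : 0 ≤ α / (α + β) := by positivity
    have hc1 : α / (α + β) ≤ 1 := by rw [div_le_one h0]; linarith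
    refine ⟨α / (α + β), ⟨hc0, hc1⟩, ?_, ?_⟩
    · apply monotoneOn_of_deriv_nonneg (convex_Icc _ _) (phi_cont p q r).continuousOn
      · intro x hx
        rw [interior_Icc] at hx
        exact (phi_deriv p q r ⟨hx.1, hx.2.trans_le hc1⟩).differentiableAt.differentiableWithinAt
      · intro x hx
        rw [interior_Icc] at hx
        have hx' : x ∈ Ioo (0 : ℝ) 1 := ⟨hx.1, hx.2.trans_le hc1⟩
        rw [(phi_deriv p q r hx').deriv]
        have h1 : x * (α + β) < α := by
          have := hx.2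
          rwa [lt_div_iff₀ h0] at this
        have h2 : 0 ≤ α * (1 - x) - β * x := by linarith
        exact mul_nonneg (mul_nonneg (Real.rpow_nonneg hx'.1.le _)
          (Real.rpow_nonneg (by linarith [hx'.2]) _)) h2
    · apply antitoneOn_of_deriv_nonpos (convex_Icc _ _) (phi_cont p q r).continuousOn
      · intro x hx
        rw [interior_Icc] at hx
        exact (phi_deriv p q r ⟨hc0.trans_lt hx.1, hx.2⟩).differentiableAt.differentiableWithinAt
      · intro x hx
        rw [interior_Icc] at hx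
        have hx' : x ∈ Ioo (0 : ℝ) 1 := ⟨hc0.trans_lt hx.1, hx.2⟩
        rw [(phi_deriv p q r hx').deriv]
        have h1 : α < x * (α + β) := by
          have := hx.1
          rwa [div_lt_iff₀ h0] at this
        have h2 : α * (1 - x) - β * x ≤ 0 := by linarith
        exact mul_nonpos_of_nonneg_of_nonpos (mul_nonneg (Real.rpow_nonneg hx'.1.le _)
          (Real.rpow_nonneg (by linarith [hx'.2]) _)) h2

lemma G_deriv (p q r : ℕ) (x : ℝ) : HasDerivAt (G p q r) (phi p q r x) x :=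
  ((phi_cont p q r).integral_hasStrictDerivAt 0 x).hasDerivAt

lemma G_zero (p q r : ℕ) : G p q r 0 = 0 := by
  unfold G
  exact intervalIntegral.integral_same

lemma G_sub (p q r : ℕ) (u w : ℝ) : G p q r w - G p q r u = ∫ t in u..w, phi p q r t := by
  unfold G
  exact intervalIntegral.integral_interval_sub_left ((phi_cont p q r).intervalIntegrable _ _)
    ((phi_cont p q r).intervalIntegrable _ _)

lemma G_lip (p q r : ℕ) {u w : ℝ} (hu : 0 ≤ u) (huw : u ≤ w) (hw : w ≤ 1) :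
    G p q r w - G p q r u ≤ w - u := by
  rw [G_sub]
  have h1 : ∫ t in u..w, phi p q r t ≤ ∫ _ in u..w, (1 : ℝ) :=
    intervalIntegral.integral_mono_on huw ((phi_cont p q r).intervalIntegrable _ _)
      intervalIntegrable_const fun t ht => (phi_mem p q r ⟨hu.trans ht.1, ht.2.trans hw⟩).2
  simpa using h1

lemma G_one_pos (p q r : ℕ) : 0 < G p q r 1 := by
  unfold G
  exact intervalIntegral.intervalIntegral_pos_of_pos_on ((phi_cont p q r).intervalIntegrable _ _)
    (fun x hx => phi_pos p q r hx) one_pos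

lemma G_cont (p q r : ℕ) : Continuous (G p q r) :=
  continuous_iff_continuousAt.2 fun x => (G_deriv p q r x).continuousAt

lemma G_strict (p q r : ℕ) : StrictMonoOn (G p q r) (Icc 0 1) := by
  apply strictMonoOn_of_deriv_pos (convex_Icc _ _) (G_cont p q r).continuousOn
  intro x hx
  rw [interior_Icc] at hx
  rw [(G_deriv p q r x).deriv]
  exact phi_pos p q r hx

lemma gg_cont (p q r : ℕ) : Continuous (gg p q r) := (G_cont p q r).div_const _

lemma gg_strict (p q r : ℕ) : StrictMonoOn (gg p q r) (Icc 0 1) := by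
  intro x hx y hy hxy
  exact div_lt_div_of_pos_right (G_strict p q r hx hy hxy) (G_one_pos p q r)

lemma gg_zero (p q r : ℕ) : gg p q r 0 = 0 := by
  unfold gg
  rw [G_zero, zero_div]

lemma gg_one (p q r : ℕ) : gg p q r 1 = 1 := div_self (G_one_pos p q r).ne'

/-- **GP** -/
theorem gp : S_GP := by
  intro p q r
  refine ⟨phi_cont p q r, fun x hx => phi_mem p q r hx, fun x hx => phi_pos p q r hx, phi_uni p q r,
    G_deriv p q r, G_zero p q r, G_one_pos p q r, ?_, gg_strict p q r, (gg_cont p q r).continuousOn,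
    gg_zero p q r, gg_one p q r, ⟨?_, (gg_strict p q r).injOn, ?_⟩, fun u w hu huw hw => G_lip p q r hu huw hw⟩
  · have := G_lip p q r (le_refl (0 : ℝ)) zero_le_one (le_refl (1 : ℝ))
    rw [G_zero] at this
    linarith
  · intro x hx
    have h0 : (0 : ℝ) ∈ Icc (0 : ℝ) 1 := ⟨le_rfl, zero_le_one⟩
    have h1 : (1 : ℝ) ∈ Icc (0 : ℝ) 1 := ⟨zero_le_one, le_rfl⟩
    have a := (gg_strict p q r).monotoneOn h0 hx hx.1
    have b := (gg_strict p q r).monotoneOn hx h1 hx.2
    rw [gg_zero] at a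
    rw [gg_one] at b
    exact ⟨a, b⟩
  · have h := intermediate_value_Icc (zero_le_one (α := ℝ)) (gg_cont p q r).continuousOn
    rw [gg_zero, gg_one] at h
    exact h

end Q257.CP
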