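import Pool.Agent.Q109.CP.Stm

set_option autoImplicit false

/-!
# CP-PUSH: change of variables in each coordinate
-/

namespace Q257.CP

open MeasureTheory Set Filter Topology
open Q109.CP
open scoped ENNReal

/-- the coordinates are in the unit interval almost everywhere -/
lemma cube_ae (ι : Type) [Fintype ι] : ∀ᵐ v ∂(cube ι), ∀ e, v e ∈ Icc (0 : ℝ) 1 := by
  have h1 : cube ι = (Measure.pi (fun _ : ι => (volume : Measure ℝ))).restrict
      (Set.univ.pi fun _ => Icc (0 : ℝ) 1) := by
    unfold cube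
    rw [Measure.restrict_pi_pi]
  rw [h1]
  have h2 : MeasurableSet (Set.univ.pi fun _ : ι => Icc (0 : ℝ) 1) :=
    MeasurableSet.univ_pi fun _ => measurableSet_Icc
  filter_upwards [ae_restrict_mem h2] with v hv e
  exact hv e (mem_univ e)

/-- change of variables in each coordinate, general form -/
theorem pi_push (μ ρ : Measure ℝ) [SigmaFinite μ] [SigmaFinite ρ] (g : ℝ → ℝ) (hg : Measurable g)
    (w : ℝ → ℝ≥0∞) (hw : Measurable w) (c : ℝ≥0∞)
    (h1 : ∀ F : ℝ → ℝ≥0∞, Measurable F → ∫⁻ x, F (g x) * w x ∂μ = c * ∫⁻ y, F y ∂ρ) :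
    ∀ (n : ℕ) (F : (Fin n → ℝ) → ℝ≥0∞), Measurable F →
      ∫⁻ x, F (fun i => g (x i)) * ∏ i, w (x i) ∂(Measure.pi fun _ : Fin n => μ) =
        c ^ n * ∫⁻ y, F y ∂(Measure.pi fun _ : Fin n => ρ) := by
  intro n
  induction n with
  | zero =>
    intro F hF
    rw [Measure.pi_of_empty, Measure.pi_of_empty, lintegral_dirac, lintegral_dirac]
    simp only [Finset.univ_eq_empty, Finset.prod_empty, mul_one, pow_zero, one_mul]
    congr 1
    funext i
    exact i.elim0
  | succ n ih =>
    intro F hF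
    have mp1 := (measurePreserving_piFinSuccAbove (fun _ : Fin (n + 1) => μ) 0).symm
      (MeasurableEquiv.piFinSuccAbove (fun _ : Fin (n + 1) => ℝ) 0)
    have mp2 := (measurePreserving_piFinSuccAbove (fun _ : Fin (n + 1) => ρ) 0).symm
      (MeasurableEquiv.piFinSuccAbove (fun _ : Fin (n + 1) => ℝ) 0)
    have hins : ∀ z : ℝ × (Fin n → ℝ), (MeasurableEquiv.piFinSuccAbove (fun _ : Fin (n + 1) => ℝ) 0).symm z =
        (Fin.cons z.1 z.2 : Fin (n + 1) → ℝ) := by
      intro z
      exact Fin.insertNth_zero' z.1 z.2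
    have hcons : Measurable fun z : ℝ × (Fin n → ℝ) => (Fin.cons z.1 z.2 : Fin (n + 1) → ℝ) := by
      have h := (MeasurableEquiv.piFinSuccAbove (fun _ : Fin (n + 1) => ℝ) 0).symm.measurable
      have e : (⇑(MeasurableEquiv.piFinSuccAbove (fun _ : Fin (n + 1) => ℝ) 0).symm) =
          fun z : ℝ × (Fin n → ℝ) => (Fin.cons z.1 z.2 : Fin (n + 1) → ℝ) := funext hins
      rwa [e] at h
    have hgc : Measurable fun x : Fin (n + 1) → ℝ => fun i => g (x i) :=
      measurable_pi_lambda _ fun i => hg.comp (measurable_pi_apply i)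
    have hgn : Measurable fun x : Fin n → ℝ => fun i => g (x i) :=
      measurable_pi_lambda _ fun i => hg.comp (measurable_pi_apply i)
    have hprod : Measurable fun x : Fin (n + 1) → ℝ => ∏ i, w (x i) :=
      Finset.measurable_prod _ fun i _ => hw.comp (measurable_pi_apply i)
    rw [MeasurePreserving.lintegral_map_equiv _ _ mp1, MeasurePreserving.lintegral_map_equiv _ _ mp2]
    simp only [hins]
    have hΦ : Measurable fun z : ℝ × (Fin n → ℝ) => F (fun i => g ((Fin.cons z.1 z.2 : Fin (n + 1) → ℝ) i)) *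
        ∏ i, w ((Fin.cons z.1 z.2 : Fin (n + 1) → ℝ) i) := ((hF.comp hgc).mul hprod).comp hcons
    have hΨ : Measurable fun z : ℝ × (Fin n → ℝ) => F (Fin.cons z.1 z.2 : Fin (n + 1) → ℝ) := hF.comp hcons
    rw [lintegral_prod _ hΦ.aemeasurable, lintegral_prod _ hΨ.aemeasurable]
    have hH : Measurable fun t : ℝ => ∫⁻ y, F (Fin.cons t y) ∂(Measure.pi fun _ : Fin n => ρ) :=
      (hF.comp hcons).lintegral_prod_right'
    have e1 : ∀ a : ℝ, ∫⁻ b, F (fun i => g ((Fin.cons a b : Fin (n + 1) → ℝ) i)) *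
        ∏ i, w ((Fin.cons a b : Fin (n + 1) → ℝ) i) ∂(Measure.pi fun _ : Fin n => μ) =
        c ^ n * ((∫⁻ y, F (Fin.cons (g a) y) ∂(Measure.pi fun _ : Fin n => ρ)) * w a) := by
      intro a
      have hFa : Measurable fun y : Fin n → ℝ => F (Fin.cons (g a) y) :=
        (hF.comp hcons).comp (measurable_const.prodMk measurable_id)
      have h2 := ih (fun y => F (Fin.cons (g a) y)) hFa
      have e2 : ∀ b : Fin n → ℝ, F (fun i => g ((Fin.cons a b : Fin (n + 1) → ℝ) i)) *
          ∏ i, w ((Fin.cons a b : Fin (n + 1) → ℝ) i) =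
          w a * (F (Fin.cons (g a) fun i => g (b i)) * ∏ i, w (b i)) := by
        intro b
        rw [Fin.prod_univ_succ]
        simp only [Fin.cons_zero, Fin.cons_succ]
        have : (fun i => g ((Fin.cons a b : Fin (n + 1) → ℝ) i)) = Fin.cons (g a) fun i => g (b i) := by
          funext i
          refine Fin.cases ?_ (fun j => ?_) i
          · simp
          · simp
        rw [this]
        ring
      simp only [e2]
      have hm : Measurable fun b : Fin n → ℝ => F (Fin.cons (g a) fun i => g (b i)) * ∏ i, w (b i) :=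
        (hFa.comp hgn).mul (Finset.measurable_prod _ fun i _ => hw.comp (measurable_pi_apply i))
      rw [lintegral_const_mul _ hm, h2]
      ring
    simp only [e1]
    have hm2 : Measurable fun a : ℝ =>
        (∫⁻ y, F (Fin.cons (g a) y) ∂(Measure.pi fun _ : Fin n => ρ)) * w a := (hH.comp hg).mul hw
    rw [lintegral_const_mul _ hm2]
    have h3 := h1 _ hH
    rw [h3, pow_succ]
    ring

/-- **PUSH** -/
theorem push : S_GP → S_PUSH := by
  intro hgp p q r K F hF
  obtain ⟨hcont, hb, -, -, hder, -, hG1, -, hmono, hggc, hgg0, hgg1, hbij, -⟩ := hgp p q r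
  have hGc : Continuous (G p q r) := continuous_iff_continuousAt.2 fun x => (hder x).continuousAt
  have hg : Measurable (gg p q r) := (hGc.div_const _).measurable
  have hw : Measurable fun x => ENNReal.ofReal (phi p q r x) :=
    ENNReal.measurable_ofReal.comp hcont.measurable
  have h1 : ∀ F : ℝ → ℝ≥0∞, Measurable F →
      ∫⁻ x, F (gg p q r x) * ENNReal.ofReal (phi p q r x) ∂((volume : Measure ℝ).restrict (Icc (0 : ℝ) 1)) =
        ENNReal.ofReal (G p q r 1) * ∫⁻ y, F y ∂((volume : Measure ℝ).restrict (Icc (0 : ℝ) 1)) := by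
    intro F hF
    have hd : ∀ x ∈ Icc (0 : ℝ) 1, HasDerivWithinAt (gg p q r) (phi p q r x / G p q r 1) (Icc 0 1) x :=
      fun x _ => ((hder x).div_const _).hasDerivWithinAt
    have h2 := lintegral_image_eq_lintegral_abs_deriv_mul measurableSet_Icc hd hmono.injOn F
    rw [hbij.image_eq] at h2
    have hm : Measurable fun x => ENNReal.ofReal |phi p q r x / G p q r 1| * F (gg p q r x) := by
      apply Measurable.mul _ (hF.comp hg)
      exact ENNReal.measurable_ofReal.comp ((hcont.div_const _).abs.measurable)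
    rw [h2, ← lintegral_const_mul _ hm]
    refine setLIntegral_congr_fun measurableSet_Icc fun x hx => ?_
    rw [← mul_assoc, ← ENNReal.ofReal_mul hG1.le, abs_of_nonneg (div_nonneg (hb x hx).1 hG1.le),
      mul_div_cancel₀ _ hG1.ne', mul_comm]
  have h3 := pi_push _ _ (gg p q r) hg _ hw _ h1 (K + 1) F hF
  have e : ∫⁻ x, F (fun i => gg p q r (x i)) * ENNReal.ofReal (∏ i, phi p q r (x i)) ∂(cube (Fin (K + 1))) =
      ∫⁻ x, F (fun i => gg p q r (x i)) * ∏ i, ENNReal.ofReal (phi p q r (x i)) ∂(cube (Fin (K + 1))) := by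
    refine lintegral_congr_ae ?_
    filter_upwards [cube_ae (Fin (K + 1))] with x hx
    rw [ENNReal.ofReal_prod_of_nonneg fun i _ => (hb _ (hx i)).1]
  rw [e, ENNReal.ofReal_pow hG1.le]
  exact h3

end Q257.CP
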