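import Pool.Agent.Q109.CP.Stm

set_option autoImplicit false

/-!
# CP-RAT: the inner points are well placed
-/

namespace Q257.CP.RAT

open MeasureTheory Set Filter Topology
open Q109.CP
open scoped ENNReal

/-- the coordinates are in the open unit interval almost everywhere -/
lemma cube_ae (ι : Type) [Fintype ι] : ∀ᵐ v ∂(cube ι), ∀ e, v e ∈ Ioo (0 : ℝ) 1 := by
  have h0 : (volume : Measure ℝ).restrict (Icc (0 : ℝ) 1) = (volume : Measure ℝ).restrict (Ioo (0 : ℝ) 1) :=
    Measure.restrict_congr_set Ioo_ae_eq_Icc.symm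
  have h1 : cube ι = (Measure.pi (fun _ : ι => (volume : Measure ℝ))).restrict
      (Set.univ.pi fun _ => Ioo (0 : ℝ) 1) := by
    unfold cube
    rw [Measure.restrict_pi_pi, h0]
  rw [h1]
  have h2 : MeasurableSet (Set.univ.pi fun _ : ι => Ioo (0 : ℝ) 1) :=
    MeasurableSet.univ_pi fun _ => measurableSet_Ioo
  filter_upwards [ae_restrict_mem h2] with v hv e
  exact hv e (mem_univ e)

lemma meas_sm (K : ℕ) : MeasurableSet {x : Fin (K + 1) → ℝ | StrictMono x} := by
  have e : {x : Fin (K + 1) → ℝ | StrictMono x} = ⋂ i : Fin K, {x | x i.castSucc < x i.succ} := by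
    ext x
    rw [mem_iInter]
    exact Fin.strictMono_iff_lt_succ
  rw [e]
  exact MeasurableSet.iInter fun i => measurableSet_lt (measurable_pi_apply _) (measurable_pi_apply _)

/-- exponentials beat powers -/
lemma small (δ B η : ℝ) (q M : ℕ) (hδ : 0 < δ) (hB : 0 < B) (hη : 0 < η) : ∃ K0 : ℕ, ∀ K : ℕ, K0 ≤ K →
    2 * (((q : ℝ) + 1) * K + 1) * Real.exp (-(δ ^ 2 * (((q : ℝ) + 1) * K + 1)) / 8) ≤
      η * ((B * (1 / (4 * (((q : ℝ) + 1) * K + 1)))) ^ M / 2) := by
  set c : ℝ := δ ^ 2 / 8 with hc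
  have hc0 : 0 < c := by positivity
  have hN : Tendsto (fun K : ℕ => ((q : ℝ) + 1) * K + 1) atTop atTop := by
    apply tendsto_atTop_add_const_right
    exact tendsto_natCast_atTop_atTop.const_mul_atTop (by positivity)
  have h1 := (Real.tendsto_pow_mul_exp_neg_atTop_nhds_zero (M + 1)).comp (hN.const_mul_atTop hc0)
  have h2 : 0 < η * B ^ M * c ^ (M + 1) / (4 * 4 ^ M) := by positivity
  have h3 := (h1.eventually (gt_mem_nhds h2)).exists_forall_of_atTop
  obtain ⟨K0, hK0⟩ := h3
  refine ⟨K0, fun K hK => ?_⟩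
  have h4 := hK0 K hK
  simp only [Function.comp] at h4
  set N : ℝ := ((q : ℝ) + 1) * K + 1 with hNd
  have hN0 : 0 < N := by positivity
  have e1 : -(δ ^ 2 * N) / 8 = -(c * N) := by rw [hc]; ring
  rw [e1]
  have e2 : (B * (1 / (4 * N))) ^ M = B ^ M / (4 ^ M * N ^ M) := by
    rw [mul_one_div, div_pow, mul_pow]
  rw [e2]
  have h5 : N ^ (M + 1) * Real.exp (-(c * N)) ≤ η * B ^ M / (4 * 4 ^ M) := by
    have e3 : (c * N) ^ (M + 1) * Real.exp (-(c * N)) = c ^ (M + 1) * (N ^ (M + 1) * Real.exp (-(c * N))) := by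
      rw [mul_pow]; ring
    rw [e3] at h4
    have e4 : η * B ^ M * c ^ (M + 1) / (4 * 4 ^ M) = c ^ (M + 1) * (η * B ^ M / (4 * 4 ^ M)) := by ring
    rw [e4] at h4
    exact (lt_of_mul_lt_mul_left h4 (by positivity)).le
  have h6 : N * Real.exp (-(c * N)) ≤ η * B ^ M / (4 * 4 ^ M) / N ^ M := by
    rw [le_div_iff₀ (by positivity)]
    calc N * Real.exp (-(c * N)) * N ^ M = N ^ (M + 1) * Real.exp (-(c * N)) := by ring
      _ ≤ _ := h5
  calc 2 * N * Real.exp (-(c * N)) = 2 * (N * Real.exp (-(c * N))) := by ring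
    _ ≤ 2 * (η * B ^ M / (4 * 4 ^ M) / N ^ M) := by linarith
    _ = η * (B ^ M / (4 ^ M * N ^ M) / 2) := by field_simp; ring

/-- **RAT** -/
theorem rat : S_GP → S_CMP → S_DIV → S_DIR → S_RAT := by
  intro hgp hcmp hdiv hdir p q r δ η hδ hη
  obtain ⟨hcont, hb, -, -, hder, hG0, hG1, hG1', hmono, hggc, hgg0, hgg1, hbij, hlip⟩ := hgp p q r
  set B : ℝ := G p q r 1 with hB
  have hGc : Continuous (G p q r) := continuous_iff_continuousAt.2 fun x => (hder x).continuousAt
  have hg : Measurable (gg p q r) := (hGc.div_const _).measurable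
  set M : ℕ := (p + q + 1) + (q + r + 1) + q * (p + r) with hM
  obtain ⟨K1, hK1⟩ := small δ B η q (4 * M) hδ hG1 hη
  obtain ⟨K2, hK2⟩ := exists_nat_gt (4 / δ)
  refine ⟨max (max K1 K2) 1, fun K hK => ?_⟩
  have hKK1 : K1 ≤ K := (le_max_left _ _).trans ((le_max_left _ _).trans hK)
  have hKK2 : K2 ≤ K := (le_max_right _ _).trans ((le_max_left _ _).trans hK)
  have hKone : 1 ≤ K := (le_max_right _ _).trans hK
  have hsmall := hK1 K hKK1
  obtain ⟨hV0, hVt, hVe, hVd⟩ := hdir K q hKone
  set N : ℝ := ((q : ℝ) + 1) * K + 1 with hN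
  have hN0 : 0 < N := by positivity
  have h4 : 4 ≤ δ * N := by
    have h5 : (K2 : ℝ) ≤ K := by exact_mod_cast hKK2
    have h6 : 4 / δ < (K : ℝ) := hK2.trans_le h5
    rw [div_lt_iff₀ hδ] at h6
    have h7 : (K : ℝ) ≤ N := by
      rw [hN]
      have : (0 : ℝ) ≤ q * K := by positivity
      linarith
    nlinarith
  have hVd' := hVd δ hδ h4
  -- measurability
  have hgc : Measurable fun x : Fin (K + 1) → ℝ => fun i => gg p q r (x i) :=
    measurable_pi_lambda _ fun i => hg.comp (measurable_pi_apply i)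
  set A1 : Set (Fin (K + 1) → ℝ) := {y | ∃ i : Fin (K + 1), δ < |y i - ((i : ℕ) : ℝ) / (K : ℝ)|} with hA1
  have hA1m : MeasurableSet A1 := by
    have e : A1 = ⋃ i : Fin (K + 1), {y | δ < |y i - ((i : ℕ) : ℝ) / (K : ℝ)|} := by
      ext y; simp [hA1]
    rw [e]
    refine MeasurableSet.iUnion fun i => measurableSet_lt measurable_const ?_
    exact ((measurable_pi_apply i).sub_const _).abs
  have hBad : Bad K p q r δ = {x : Fin (K + 1) → ℝ | (fun i => gg p q r (x i)) ∈ A1} := rfl
  set t : ℝ := 1 / (4 * N) with ht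
  have ht0 : 0 < t := by positivity
  set A : Set (Fin (K + 1) → ℝ) := {y | t ≤ y 0 ∧ y (Fin.last K) ≤ 1 - t} with hA
  have hAm : MeasurableSet A :=
    (measurableSet_le measurable_const (measurable_pi_apply _)).inter
      (measurableSet_le (measurable_pi_apply _) measurable_const)
  -- the comparison of the densities
  have hW_le : ∀ S : Set (Fin (K + 1) → ℝ), MeasurableSet S → WI K p q r S ≤ DI K p q r S := by
    intro S hS
    unfold WI DI
    refine lintegral_mono_ae ?_
    filter_upwards [ae_restrict_of_ae (cube_ae (Fin (K + 1))), ae_restrict_mem ((meas_sm K).inter hS)] with x h5 h6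
    exact ENNReal.ofReal_le_ofReal (hcmp K p q r x h6.1 h5).1
  set Z : ℝ≥0∞ := ENNReal.ofReal (B ^ (q * K + (K + 1))) * V K q univ with hZ
  have hBpos : 0 < B ^ (q * K + (K + 1)) := by positivity
  have hZ0 : Z ≠ 0 := mul_ne_zero (by rw [Ne, ENNReal.ofReal_eq_zero, not_le]; exact hBpos) hV0
  have hZt : Z ≠ ⊤ := ENNReal.mul_ne_top ENNReal.ofReal_ne_top hVt
  have hDuniv : DI K p q r univ = Z := by
    have := hdiv p q r K univ MeasurableSet.univ
    simpa using this
  have hup : WI K p q r (Bad K p q r δ) ≤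
      ENNReal.ofReal (2 * N * Real.exp (-(δ ^ 2 * N) / 8)) * Z := by
    rw [hBad]
    have hA1g : MeasurableSet {x : Fin (K + 1) → ℝ | (fun i => gg p q r (x i)) ∈ A1} := hgc hA1m
    refine (hW_le _ hA1g).trans ?_
    rw [hdiv p q r K A1 hA1m]
    calc ENNReal.ofReal (B ^ (q * K + (K + 1))) * V K q A1 ≤ ENNReal.ofReal (B ^ (q * K + (K + 1))) *
          (ENNReal.ofReal (2 * N * Real.exp (-(δ ^ 2 * N) / 8)) * V K q univ) := by gcongr
      _ = _ := by rw [hZ]; ring
  -- the lower bound
  have hVA : V K q univ / 2 ≤ V K q A := by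
    have h5 : V K q univ ≤ V K q A + V K q {y | y 0 < t ∨ 1 - t < y (Fin.last K)} := by
      unfold V
      refine (lintegral_mono_set ?_).trans (lintegral_union_le _ _ _)
      rintro x ⟨hx1, -⟩
      by_cases h6 : x ∈ A
      · exact Or.inl ⟨hx1, h6⟩
      · refine Or.inr ⟨hx1, ?_⟩
        rw [hA, mem_ofPred_eq, not_and_or, not_le, not_le] at h6
        exact h6
    have h6 := hVe t ht0.le
    have e : 2 * N * t = 1 / 2 := by rw [ht]; field_simp; ring
    rw [e] at h6
    have h7 : ENNReal.ofReal (1 / 2) * V K q univ = V K q univ / 2 := by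
      rw [one_div, ENNReal.ofReal_inv_of_pos two_pos, mul_comm, ENNReal.ofReal_ofNat]
      rfl
    rw [h7] at h6
    have h8 : V K q univ / 2 + V K q univ / 2 ≤ V K q A + V K q univ / 2 := by
      rw [ENNReal.add_halves]
      exact h5.trans (by gcongr)
    exact (ENNReal.add_le_add_iff_right (ENNReal.div_ne_top hVt two_ne_zero)).1 h8
  have hlow : ENNReal.ofReal ((B * t) ^ (4 * M)) * (Z / 2) ≤ WI K p q r univ := by
    have h5 : ENNReal.ofReal ((B * t) ^ (4 * M)) * DI K p q r {x | (fun i => gg p q r (x i)) ∈ A} ≤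
        WI K p q r univ := by
      have h50 : ENNReal.ofReal ((B * t) ^ (4 * M)) * DI K p q r {x | (fun i => gg p q r (x i)) ∈ A} ≤
          WI K p q r {x | (fun i => gg p q r (x i)) ∈ A} := by
        unfold DI WI
        rw [← lintegral_const_mul' _ _ ENNReal.ofReal_ne_top]
        refine lintegral_mono_ae ?_
        filter_upwards [ae_restrict_of_ae (cube_ae (Fin (K + 1))),
          ae_restrict_mem ((meas_sm K).inter (hgc hAm))] with x h6 h7
        rw [← ENNReal.ofReal_mul (by positivity)]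
        apply ENNReal.ofReal_le_ofReal
        refine le_trans ?_ (hcmp K p q r x h7.1 h6).2
        have hx0 := h6 0
        have hxK := h6 (Fin.last K)
        obtain ⟨h8, h9⟩ : t ≤ gg p q r (x 0) ∧ gg p q r (x (Fin.last K)) ≤ 1 - t := h7.2
        have hxle : x 0 ≤ x (Fin.last K) := h7.1.monotone (Fin.zero_le _)
        have c1 : B * t ≤ x 0 := by
          have d1 : gg p q r (x 0) * B = G p q r (x 0) := div_mul_cancel₀ _ hG1.ne'
          have d2 := hlip 0 (x 0) le_rfl hx0.1.le hx0.2.le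
          rw [hG0] at d2
          have d3 := mul_le_mul_of_nonneg_right h8 hG1.le
          linarith
        have c2 : B * t ≤ 1 - x (Fin.last K) := by
          have d1 : gg p q r (x (Fin.last K)) * B = G p q r (x (Fin.last K)) := div_mul_cancel₀ _ hG1.ne'
          have d2 := hlip (x (Fin.last K)) 1 hxK.1.le hxK.2.le le_rfl
          have d3 := mul_le_mul_of_nonneg_right h9 hG1.le
          rw [← hB] at d2
          linarith
        have hBt : 0 ≤ B * t := by positivity
        have c3 : B * t ≤ 1 - x 0 := by linarith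
        have c4 : B * t ≤ x (Fin.last K) := by linarith
        have hz : (B * t) ^ 4 ≤ x 0 * (1 - x 0) * x (Fin.last K) * (1 - x (Fin.last K)) := by
          have d1 : B * t * (B * t) ≤ x 0 * (1 - x 0) := mul_le_mul c1 c3 hBt hx0.1.le
          have d2 : B * t * (B * t) * (B * t) ≤ x 0 * (1 - x 0) * x (Fin.last K) :=
            mul_le_mul d1 c4 hBt ((mul_nonneg hBt hBt).trans d1)
          have d3 : B * t * (B * t) * (B * t) * (B * t) ≤
              x 0 * (1 - x 0) * x (Fin.last K) * (1 - x (Fin.last K)) :=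
            mul_le_mul d2 c2 hBt ((mul_nonneg (mul_nonneg hBt hBt) hBt).trans d2)
          calc (B * t) ^ 4 = B * t * (B * t) * (B * t) * (B * t) := by ring
            _ ≤ _ := d3
        have hD0 : 0 ≤ Dt K p q r x := by
          have hi := hcmp K p q r x h7.1 h6
          have hW0 : 0 ≤ Wt K p q r x := by
            unfold Wt
            have k1 : 0 ≤ 1 - x (Fin.last K) := by linarith [hxK.2]
            refine mul_nonneg (mul_nonneg (mul_nonneg (pow_nonneg hx0.1.le _) (pow_nonneg k1 _)) ?_) ?_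
            · exact Finset.prod_nonneg fun i _ => mul_nonneg (pow_nonneg (h6 i).1.le _)
                (pow_nonneg (by linarith [(h6 i).2]) _)
            · exact Finset.prod_nonneg fun i _ => pow_nonneg (sub_nonneg.2 (h7.1 (Fin.castSucc_lt_succ)).le) _
          exact hW0.trans hi.1
        rw [pow_mul]
        exact mul_le_mul_of_nonneg_right (pow_le_pow_left₀ (by positivity) hz M) hD0
      refine h50.trans ?_
      unfold WI
      exact lintegral_mono_set fun x hx => ⟨hx.1, mem_univ _⟩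
    refine le_trans ?_ h5
    rw [hdiv p q r K A hAm]
    have h6 : Z / 2 = ENNReal.ofReal (B ^ (q * K + (K + 1))) * (V K q univ / 2) := by
      rw [hZ, mul_div_assoc]
    rw [h6]
    gcongr
  have hBt0 : 0 < (B * t) ^ (4 * M) := by positivity
  refine ⟨?_, ?_, ?_⟩
  · intro h0
    rw [h0, nonpos_iff_eq_zero, mul_eq_zero] at hlow
    rcases hlow with h5 | h5
    · rw [ENNReal.ofReal_eq_zero] at h5
      linarith
    · rw [ENNReal.div_eq_zero_iff] at h5
      rcases h5 with h5 | h5
      · exact hZ0 h5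
      · exact ENNReal.ofNat_ne_top h5
  · have h5 := hW_le univ MeasurableSet.univ
    rw [hDuniv] at h5
    exact ne_top_of_le_ne_top hZt h5
  · refine hup.trans ?_
    calc ENNReal.ofReal (2 * N * Real.exp (-(δ ^ 2 * N) / 8)) * Z ≤
          ENNReal.ofReal (η * ((B * t) ^ (4 * M) / 2)) * Z := by
          gcongr
      _ = ENNReal.ofReal η * (ENNReal.ofReal ((B * t) ^ (4 * M)) * (Z / 2)) := by
          rw [ENNReal.ofReal_mul hη.le, ENNReal.ofReal_div_of_pos two_pos, ENNReal.ofReal_ofNat,
            ENNReal.div_eq_inv_mul, ENNReal.div_eq_inv_mul]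
          ring
      _ ≤ ENNReal.ofReal η * WI K p q r univ := by gcongr

end Q257.CP.RAT
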