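import Pool.Agent.Q109.CP.Stm

set_option autoImplicit false

/-!
# CP-UNI: uniform continuity of the inverse
-/

namespace Q257.CP.UNI

open MeasureTheory Set Filter Topology
open Q109.CP

/-- a continuous injective function on the unit interval is bounded below at a distance -/
lemma unif {g : ℝ → ℝ} (hc : ContinuousOn g (Icc 0 1)) (hi : InjOn g (Icc 0 1)) {ε : ℝ} (hε : 0 < ε) :
    ∃ m : ℝ, 0 < m ∧ ∀ x ∈ Icc (0 : ℝ) 1, ∀ y ∈ Icc (0 : ℝ) 1, |g x - g y| ≤ m → |x - y| ≤ ε := by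
  set S : Set (ℝ × ℝ) := (Icc (0 : ℝ) 1 ×ˢ Icc (0 : ℝ) 1) ∩ {z | ε ≤ |z.1 - z.2|} with hS
  have hSc : IsCompact S := (isCompact_Icc.prod isCompact_Icc).inter_right
    (isClosed_le continuous_const (by fun_prop))
  rcases S.eq_empty_or_nonempty with he | hne
  · refine ⟨1, one_pos, fun x hx y hy _ => ?_⟩
    by_contra h
    rw [not_le] at h
    have : (x, y) ∈ S := ⟨⟨hx, hy⟩, h.le⟩
    rw [he] at this
    exact this
  · have hF : ContinuousOn (fun z : ℝ × ℝ => |g z.1 - g z.2|) S := by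
      refine ContinuousOn.abs (ContinuousOn.sub ?_ ?_)
      · exact hc.comp continuous_fst.continuousOn fun z hz => hz.1.1
      · exact hc.comp continuous_snd.continuousOn fun z hz => hz.1.2
    obtain ⟨z, hz, hmin⟩ := hSc.exists_isMinOn hne hF
    have hpos : 0 < |g z.1 - g z.2| := by
      rw [abs_pos, sub_ne_zero]
      intro h
      have h2 := hi hz.1.1 hz.1.2 h
      have h3 : ε ≤ |z.1 - z.2| := hz.2
      rw [h2, sub_self, abs_zero] at h3
      linarith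
    refine ⟨|g z.1 - g z.2| / 2, by positivity, fun x hx y hy h => ?_⟩
    by_contra h'
    rw [not_le] at h'
    have h4 := hmin (show (x, y) ∈ S from ⟨⟨hx, hy⟩, h'.le⟩)
    simp only [mem_ofPred_eq] at h4
    linarith

/-- **UNI** -/
theorem uni : S_GP → S_UNI := by
  intro hgp p q r ε hε
  obtain ⟨-, -, -, -, -, -, -, -, hmono, hcont, hgg0, hgg1, hbij, -⟩ := hgp p q r
  obtain ⟨m, hm0, hm⟩ := unif hcont hmono.injOn hε
  have hff : ∀ t ∈ Icc (0 : ℝ) 1, ff p q r t ∈ Icc (0 : ℝ) 1 ∧ gg p q r (ff p q r t) = t := by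
    intro t ht
    have h := hbij.surjOn ht
    exact ⟨Function.invFunOn_mem h, Function.invFunOn_eq h⟩
  obtain ⟨K0, hK0⟩ := exists_nat_gt (max 1 (4 / m))
  refine ⟨m / 2, by positivity, K0, fun K hK => ?_⟩
  have hKr : (K0 : ℝ) ≤ K := by exact_mod_cast hK
  have hK1 : (1 : ℝ) ≤ K := ((le_max_left _ _).trans hK0.le).trans hKr
  have hK4 : 4 / m ≤ K := ((le_max_right _ _).trans hK0.le).trans hKr
  have hK2 : 2 / ((K : ℝ) + 4) ≤ m / 2 := by
    rw [div_le_iff₀ hm0] at hK4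
    rw [div_le_div_iff₀ (by positivity) two_pos]
    nlinarith
  have hKp : 0 < (K : ℝ) + 4 := by positivity
  have h0 : (0 : ℝ) ∈ Icc (0 : ℝ) 1 := ⟨le_rfl, zero_le_one⟩
  have h1 : (1 : ℝ) ∈ Icc (0 : ℝ) 1 := ⟨zero_le_one, le_rfl⟩
  have hlow : ∀ t : ℝ, 0 ≤ t → t ≤ 2 / ((K : ℝ) + 4) → ff p q r t ∈ Icc 0 ε := by
    intro t ht0 ht1
    have hle1 : 2 / ((K : ℝ) + 4) ≤ 1 := by rw [div_le_one hKp]; linarith
    obtain ⟨a1, a2⟩ := hff t ⟨ht0, ht1.trans hle1⟩
    have h2 := hm _ a1 0 h0 (by rw [a2, hgg0, sub_zero, abs_of_nonneg ht0]; linarith)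
    rw [sub_zero, abs_of_nonneg a1.1] at h2
    exact ⟨a1.1, h2⟩
  have hhigh : ∀ t : ℝ, t ≤ 1 → 1 - 2 / ((K : ℝ) + 4) ≤ t → ff p q r t ∈ Icc (1 - ε) 1 := by
    intro t ht1 ht0
    have hle1 : 2 / ((K : ℝ) + 4) ≤ 1 := by rw [div_le_one hKp]; linarith
    obtain ⟨a1, a2⟩ := hff t ⟨by linarith, ht1⟩
    have h2 := hm _ a1 1 h1 (by rw [a2, hgg1, abs_le]; constructor <;> linarith)
    rw [abs_le] at h2
    exact ⟨by linarith [h2.1], a1.2⟩
  refine ⟨?_, ?_, ?_, ?_, ?_⟩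
  · intro i hi x hx h
    have hir : (i : ℝ) ≤ K := by exact_mod_cast hi
    have hi0 : (0 : ℝ) ≤ i := Nat.cast_nonneg i
    have ht : ((i : ℝ) + 2) / ((K : ℝ) + 4) ∈ Icc (0 : ℝ) 1 := by
      constructor
      · positivity
      · rw [div_le_one hKp]; linarith
    obtain ⟨a1, a2⟩ := hff _ ht
    apply hm x hx _ a1
    rw [a2]
    have h3 : |(i : ℝ) / K - ((i : ℝ) + 2) / ((K : ℝ) + 4)| ≤ 2 / ((K : ℝ) + 4) := by
      have hKpos : 0 < (K : ℝ) := by linarith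
      have e : (i : ℝ) / K - ((i : ℝ) + 2) / ((K : ℝ) + 4) = (4 * i - 2 * K) / K / ((K : ℝ) + 4) := by
        field_simp
        ring
      rw [e, abs_div, abs_of_pos hKp]
      apply div_le_div_of_nonneg_right _ hKp.le
      rw [abs_div, abs_of_pos hKpos, div_le_iff₀ hKpos, abs_le]
      constructor <;> linarith
    have h4 := abs_sub_le (gg p q r x) ((i : ℝ) / K) (((i : ℝ) + 2) / ((K : ℝ) + 4))
    linarith
  · exact hlow _ (by positivity) (div_le_div_of_nonneg_right (by norm_num) hKp.le)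
  · exact hlow _ (by positivity) le_rfl
  · apply hhigh
    · rw [div_le_one hKp]; linarith
    · rw [le_div_iff₀ hKp, sub_mul, div_mul_cancel₀ _ hKp.ne']; linarith
  · apply hhigh
    · rw [div_le_one hKp]; linarith
    · rw [le_div_iff₀ hKp, sub_mul, div_mul_cancel₀ _ hKp.ne']; linarith

end Q257.CP.UNI
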