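import Mathlib

/-!
# Bhargava factorials of sets of integers: definitions
-/

set_option autoImplicit false

namespace Q257.Bh

open Finset

/-- `a 0, a 1, …, a n` is (an initial segment of) a `p`-ordering of `X ⊆ ℤ`: for every `k ≤ n` the
element `a k` lies in `X` and makes, among all elements `x` of `X`, the exponent of `p` in the product
`∏_{i < k} (x - a i)` as small as possible (the exponent of `p` in `0` is `⊤ = ∞`). -/
def IsPOrdering (X : Set ℤ) (p n : ℕ) (a : ℕ → ℤ) : Prop :=
  ∀ k ≤ n, a k ∈ X ∧ ∀ x ∈ X,
    emultiplicity (p : ℤ) (∏ i ∈ range k, (a k - a i)) ≤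
      emultiplicity (p : ℤ) (∏ i ∈ range k, (x - a i))

/-- `f` is the Bhargava factorial `n!_X = ∏_p ν_n(X, p)`: it is a positive integer, and for every
prime `p` the exponent of `p` in `f` is the exponent of `p` in `∏_{i < n} (a n - a i)` for a `p`-ordering
`a` of `X`. (There is no such `f` if `X` has at most `n` elements, since then the last product is `0`.) -/
def IsFactorial (X : Set ℤ) (n f : ℕ) : Prop :=
  0 < f ∧ ∀ p : ℕ, p.Prime → ∃ a : ℕ → ℤ, IsPOrdering X p n a ∧
    emultiplicity (p : ℤ) (f : ℤ) = emultiplicity (p : ℤ) (∏ i ∈ range n, (a n - a i))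

/-- `w p m = w_p(m)` is the largest power of `p` which divides the positive integer `m`. -/
def w (p m : ℕ) : ℕ := p ^ padicValNat p m

end Q257.Bh
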