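import Mathlib
import Pool.Agent.Q257.BhargavaDefs

/-!
# Bhargava factorials of sets of integers: lemmas
-/

set_option autoImplicit false

namespace Q257.Bh

open Finset

lemma IsPOrdering.mono {X : Set ℤ} {p n m : ℕ} {a : ℕ → ℤ} (h : IsPOrdering X p n a) (hm : m ≤ n) :
    IsPOrdering X p m a := fun k hk => h k (hk.trans hm)

/-- existence of an element with a minimal exponent -/
lemma exists_min {X : Set ℤ} (hX : X.Nonempty) (F : ℤ → ℕ∞) : ∃ x ∈ X, ∀ y ∈ X, F x ≤ F y := by
  obtain ⟨x, hx, hmin⟩ := (wellFounded_lt (α := ℕ∞)).has_min (F '' X) (hX.image F)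
  obtain ⟨x0, hx0, rfl⟩ := hx
  exact ⟨x0, hx0, fun y hy => not_lt.1 (hmin _ ⟨y, hy, rfl⟩)⟩

lemma exists_ordering {X : Set ℤ} (hX : X.Nonempty) (p n : ℕ) : ∃ a, IsPOrdering X p n a := by
  induction n with
  | zero =>
    obtain ⟨x, hx⟩ := hX
    refine ⟨fun _ => x, fun k hk => ?_⟩
    obtain rfl : k = 0 := Nat.le_zero.1 hk
    exact ⟨hx, fun y _ => by simp⟩
  | succ n ih =>
    obtain ⟨a, ha⟩ := ih
    obtain ⟨x, hx, hmin⟩ := exists_min hX
      (fun x => emultiplicity (p : ℤ) (∏ i ∈ range (n + 1), (x - a i)))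
    have hlt : ∀ i, i < n + 1 → Function.update a (n + 1) x i = a i := fun i hi =>
      Function.update_of_ne (by omega) _ _
    have hprod : ∀ k, k ≤ n + 1 → ∀ y : ℤ, ∏ i ∈ range k, (y - Function.update a (n + 1) x i) =
        ∏ i ∈ range k, (y - a i) := fun k hk y => by
      refine prod_congr rfl fun i hi => ?_
      rw [hlt i (by have := mem_range.1 hi; omega)]
    refine ⟨Function.update a (n + 1) x, fun k hk => ?_⟩
    rcases Nat.lt_or_ge k (n + 1) with h | h
    · obtain ⟨h1, h2⟩ := ha k (by omega)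
      rw [hlt k h]
      refine ⟨h1, fun y hy => ?_⟩
      rw [hprod k hk, hprod k hk]
      exact h2 y hy
    · obtain rfl : k = n + 1 := by omega
      rw [Function.update_self]
      refine ⟨hx, fun y hy => ?_⟩
      rw [hprod _ le_rfl, hprod _ le_rfl]
      exact hmin y hy

/-- if `X` contains more than `n` elements which are pairwise incongruent modulo `p` then `p` does not
divide `∏_{i < n} (a n - a i)` -/
lemma not_dvd_of_classes {X : Set ℤ} {p n : ℕ} (hp : p.Prime) {a : ℕ → ℤ} (ha : IsPOrdering X p n a)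
    (S : Finset ℤ) (hS : ∀ s ∈ S, s ∈ X) (hc : n < S.card)
    (hinj : ∀ s ∈ S, ∀ t ∈ S, (p : ℤ) ∣ s - t → s = t) :
    ¬ (p : ℤ) ∣ ∏ i ∈ range n, (a n - a i) := by
  classical
  have hpz : Prime (p : ℤ) := Nat.prime_iff_prime_int.1 hp
  -- an element of S in a new class
  obtain ⟨s, hs, hsn⟩ : ∃ s ∈ S, ∀ i ∈ range n, ¬ (p : ℤ) ∣ s - a i := by
    by_contra hcon
    push Not at hcon
    choose! f hf using hcon
    have h1 : S.card ≤ (range n).card := by
      refine Finset.card_le_card_of_injOn f (fun s hs => (hf s hs).1) ?_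
      intro s hs t ht hst
      have h2 := (hf s hs).2
      have h3 := (hf t ht).2
      have hst' : f s = f t := hst
      rw [hst'] at h2
      refine hinj s hs t ht ?_
      have := dvd_sub h2 h3
      rwa [sub_sub_sub_cancel_right] at this
    rw [card_range] at h1
    omega
  have h0 : emultiplicity (p : ℤ) (∏ i ∈ range n, (s - a i)) = 0 := by
    rw [emultiplicity_eq_zero]
    intro hd
    obtain ⟨i, hi, hdi⟩ := (Prime.dvd_finsetProd_iff hpz _).1 hd
    exact hsn i hi hdi
  have h1 := (ha n le_rfl).2 s (hS s hs)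
  rw [h0] at h1
  exact emultiplicity_eq_zero.1 (le_antisymm h1 bot_le)

/-- if `p` divides no element of `X` and `n ≥ p - 1`, then `p` divides `∏_{i < n} (a n - a i)` -/
lemma dvd_of_units {X : Set ℤ} {p n : ℕ} (hp : p.Prime) {a : ℕ → ℤ} (ha : IsPOrdering X p n a)
    (hX : ∀ x ∈ X, ¬ (p : ℤ) ∣ x) (hn : p - 1 ≤ n) :
    (p : ℤ) ∣ ∏ i ∈ range n, (a n - a i) := by
  classical
  have : Fact p.Prime := ⟨hp⟩
  -- pigeonhole
  obtain ⟨i, hi, j, hj, hij, hcong⟩ : ∃ i ∈ range p, ∃ j ∈ range p, i ≠ j ∧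
      ((a i : ℤ) : ZMod p) = ((a j : ℤ) : ZMod p) := by
    refine Finset.exists_ne_map_eq_of_card_lt_of_maps_to
      (t := (univ : Finset (ZMod p)).erase 0) ?_ ?_
    · rw [card_erase_of_mem (mem_univ _), card_univ, ZMod.card, card_range]
      have := hp.pos
      omega
    · intro i hi
      rw [mem_coe, mem_erase]
      refine ⟨?_, mem_univ _⟩
      have hi' := mem_range.1 hi
      have := (ha i (by omega)).1
      intro h
      exact hX _ this ((ZMod.intCast_zmod_eq_zero_iff_dvd _ _).1 h)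
  -- wlog i < j
  have key : ∀ i j : ℕ, i < j → j < p → ((a i : ℤ) : ZMod p) = ((a j : ℤ) : ZMod p) →
      (p : ℤ) ∣ ∏ i ∈ range n, (a n - a i) := by
    intro i j hij hjp hcong
    have hjn : j ≤ n := by omega
    have hd : (p : ℤ) ∣ a j - a i := by
      rw [← ZMod.intCast_zmod_eq_zero_iff_dvd]
      push_cast
      rw [hcong, sub_self]
    have h1 : (p : ℤ) ∣ ∏ i ∈ range j, (a j - a i) :=
      hd.trans (dvd_prod_of_mem (fun i => a j - a i) (mem_range.2 hij))
    have h2 : 1 ≤ emultiplicity (p : ℤ) (∏ i ∈ range j, (a j - a i)) := by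
      rw [← Nat.cast_one, ← pow_dvd_iff_le_emultiplicity, pow_one]
      exact h1
    have h3 := (ha j hjn).2 (a n) (ha n le_rfl).1
    have h4 : (∏ i ∈ range j, (a n - a i)) ∣ ∏ i ∈ range n, (a n - a i) :=
      prod_dvd_prod_of_subset _ _ _ (range_subset_range.2 hjn)
    have h5 := emultiplicity_le_emultiplicity_of_dvd_right (a := (p : ℤ)) h4
    have h6 := (h2.trans h3).trans h5
    rwa [← Nat.cast_one, ← pow_dvd_iff_le_emultiplicity, pow_one] at h6
  rcases lt_or_gt_of_ne hij with h | h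
  · exact key i j h (mem_range.1 hj) hcong
  · exact key j i h (mem_range.1 hi) hcong.symm

/-- the product of a `p`-ordering is not zero as long as there are enough elements -/
lemma prod_ne_zero_of_card {X : Set ℤ} {p n : ℕ} (hp : p.Prime) {a : ℕ → ℤ}
    (ha : IsPOrdering X p n a) (S : Finset ℤ) (hS : ∀ s ∈ S, s ∈ X) (hc : n < S.card) :
    ∏ i ∈ range n, (a n - a i) ≠ 0 := by
  classical
  obtain ⟨s, hs, hsn⟩ : ∃ s ∈ S, s ∉ (range n).image a := by
    apply Finset.exists_mem_notMem_of_card_lt_card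
    exact lt_of_le_of_lt card_image_le (by rwa [card_range])
  have h0 : ∏ i ∈ range n, (s - a i) ≠ 0 := by
    rw [Finset.prod_ne_zero_iff]
    intro i hi h
    exact hsn (mem_image.2 ⟨i, hi, (sub_eq_zero.1 h).symm⟩)
  intro h
  have h1 := (ha n le_rfl).2 s (hS s hs)
  rw [h] at h1
  have h2 : emultiplicity (p : ℤ) (0 : ℤ) = ⊤ := by
    rw [emultiplicity_eq_top]
    intro hf
    exact hf.ne_zero rfl
  rw [h2, top_le_iff, emultiplicity_eq_top] at h1
  refine h1 ?_
  rw [Int.finiteMultiplicity_iff]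
  refine ⟨?_, h0⟩
  rw [Int.natAbs_natCast]
  exact hp.one_lt.ne'

/-- the factorial `n!_X` is defined if `X` has more than `n` elements -/
lemma exists_factorial {X : Set ℤ} (n : ℕ) (S : Finset ℤ) (hS : ∀ s ∈ S, s ∈ X) (hc : n < S.card) :
    ∃ f, IsFactorial X n f := by
  classical
  have hne : X.Nonempty := by
    obtain ⟨s, hs⟩ : S.Nonempty := Finset.card_pos.1 (by omega)
    exact ⟨s, hS s hs⟩
  choose a ha using fun p : ℕ => exists_ordering hne p n
  let D : ℕ → ℤ := fun p => ∏ i ∈ range n, (a p n - a p i)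
  let B : ℕ := ∑ s ∈ S, ∑ t ∈ S, (s - t).natAbs
  have hbig : ∀ p : ℕ, p.Prime → B < p → ¬ (p : ℤ) ∣ D p := by
    intro p hp hB
    refine not_dvd_of_classes hp (ha p) S hS hc ?_
    intro s hs t ht hd
    have h1 : (s - t).natAbs ≤ B := by
      have h2 : (s - t).natAbs ≤ ∑ t ∈ S, (s - t).natAbs :=
        Finset.single_le_sum (f := fun t => (s - t).natAbs) (fun _ _ => Nat.zero_le _) ht
      have h3 : ∑ t ∈ S, (s - t).natAbs ≤ B :=
        Finset.single_le_sum (f := fun s => ∑ t ∈ S, (s - t).natAbs)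
          (fun _ _ => Nat.zero_le _) hs
      omega
    have h4 : p ∣ (s - t).natAbs := Int.natCast_dvd.1 hd
    have h5 : (s - t).natAbs = 0 := Nat.eq_zero_of_dvd_of_lt h4 (by omega)
    have h6 := Int.natAbs_eq_zero.1 h5
    linarith
  let e : ℕ → ℕ := fun p => if p.Prime then (D p).natAbs.factorization p else 0
  have he : ∀ p, e p ≠ 0 → p ∈ range (B + 1) := by
    intro p hp
    rw [mem_range]
    by_contra hcon
    have hpp : p.Prime := by
      by_contra hnp
      exact hp (if_neg hnp)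
    refine hp ?_
    show (if p.Prime then (D p).natAbs.factorization p else 0) = 0
    rw [if_pos hpp]
    refine Nat.factorization_eq_zero_of_not_dvd ?_
    intro h
    exact hbig p hpp (by omega) (Int.natCast_dvd.2 h)
  let F : ℕ →₀ ℕ := Finsupp.onFinset (range (B + 1)) e he
  have hF : ∀ p ∈ F.support, p.Prime := by
    intro p hp
    rw [Finsupp.mem_support_iff, Finsupp.onFinset_apply] at hp
    by_contra hnp
    exact hp (if_neg hnp)
  have hfac := Nat.prod_pow_factorization_eq_self hF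
  have hfpos : 0 < F.prod (fun p k => p ^ k) := by
    apply Nat.pos_of_ne_zero
    intro h0
    rw [Finsupp.prod, Finset.prod_eq_zero_iff] at h0
    obtain ⟨p, hp, h⟩ := h0
    exact (hF p hp).ne_zero ((pow_eq_zero_iff (Finsupp.mem_support_iff.1 hp)).1 h)
  refine ⟨F.prod (fun p k => p ^ k), hfpos, fun p hp => ⟨a p, ha p, ?_⟩⟩
  have hD0 : D p ≠ 0 := prod_ne_zero_of_card hp (ha p) S hS hc
  show emultiplicity (p : ℤ) _ = emultiplicity (p : ℤ) (D p)
  have key : ∀ m : ℕ, m ≠ 0 → emultiplicity p m = (m.factorization p : ℕ∞) := by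
    intro m hm
    rw [← Nat.multiplicity_eq_factorization hp hm]
    exact (Nat.finiteMultiplicity_iff.2 ⟨hp.one_lt.ne', Nat.pos_of_ne_zero hm⟩).emultiplicity_eq_multiplicity
  rw [Int.natCast_emultiplicity, ← Int.emultiplicity_natAbs, key _ hfpos.ne',
    key _ (Int.natAbs_ne_zero.2 hD0), hfac, Finsupp.onFinset_apply]
  show ((if p.Prime then (D p).natAbs.factorization p else 0 : ℕ) : ℕ∞) = _
  rw [if_pos hp]

/-- the prime `p` divides the factorial if it divides no element of `X` and `n ≥ p - 1` -/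
lemma dvd_factorial {X : Set ℤ} {p n f : ℕ} (hp : p.Prime) (h : IsFactorial X n f)
    (hX : ∀ x ∈ X, ¬ (p : ℤ) ∣ x) (hn : p - 1 ≤ n) : p ∣ f := by
  obtain ⟨-, h⟩ := h
  obtain ⟨a, ha, he⟩ := h p hp
  have h1 := dvd_of_units hp ha hX hn
  rw [← Int.natCast_dvd_natCast]
  have h2 : 1 ≤ emultiplicity (p : ℤ) (∏ i ∈ range n, (a n - a i)) := by
    rw [← Nat.cast_one, ← pow_dvd_iff_le_emultiplicity, pow_one]
    exact h1
  rw [← he, ← Nat.cast_one, ← pow_dvd_iff_le_emultiplicity, pow_one] at h2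
  exact h2

/-- the prime `p` does not divide the factorial if `X` contains more than `n` elements which are
pairwise incongruent modulo `p` -/
lemma not_dvd_factorial {X : Set ℤ} {p n f : ℕ} (hp : p.Prime) (h : IsFactorial X n f)
    (S : Finset ℤ) (hS : ∀ s ∈ S, s ∈ X) (hc : n < S.card)
    (hinj : ∀ s ∈ S, ∀ t ∈ S, (p : ℤ) ∣ s - t → s = t) : ¬ p ∣ f := by
  obtain ⟨-, h⟩ := h
  obtain ⟨a, ha, he⟩ := h p hp
  have h1 := not_dvd_of_classes hp ha S hS hc hinj
  intro hd
  apply h1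
  rw [← Int.natCast_dvd_natCast] at hd
  have h2 : 1 ≤ emultiplicity (p : ℤ) (f : ℤ) := by
    rw [← Nat.cast_one, ← pow_dvd_iff_le_emultiplicity, pow_one]
    exact hd
  rw [he, ← Nat.cast_one, ← pow_dvd_iff_le_emultiplicity, pow_one] at h2
  exact h2

lemma not_dvd_w {q p m : ℕ} (hq : q.Prime) (hp : p.Prime) (h : q ≠ p) : ¬ q ∣ w p m := by
  unfold w
  intro hd
  exact h ((Nat.prime_dvd_prime_iff_eq hq hp).1 (hq.dvd_of_dvd_pow hd))

end Q257.Bh
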