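import Pool.Agent.Q109.CP.Stm

set_option autoImplicit false

/-!
# Common lemmas for the CP jobs DIR and EXT
-/

namespace Q257.CP.COM

open MeasureTheory Set Filter Topology
open Q109.CP
open scoped ENNReal

instance (ι : Type) [Fintype ι] : IsProbabilityMeasure (cube ι) := by
  have h : IsProbabilityMeasure ((volume : Measure ℝ).restrict (Icc (0 : ℝ) 1)) := ⟨by
    rw [Measure.restrict_apply_univ, Real.volume_Icc]
    simp⟩
  unfold cube
  infer_instance

/-- the cube measure is a restriction of the Lebesgue measure -/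
lemma cube_eq (ι : Type) [Fintype ι] : cube ι = (Measure.pi (fun _ : ι => (volume : Measure ℝ))).restrict
      (Set.univ.pi fun _ => Icc (0 : ℝ) 1) := by
  unfold cube
  rw [Measure.restrict_pi_pi]

/-- the number of smaller coordinates is the position -/
lemma rk_eq {ι : Type} [Fintype ι] {v : ι → ℝ} {σ : ι ≃ Fin (Fintype.card ι)} (h : Match v σ) (e : ι) :
    rk v e = (σ e : ℕ) := by
  classical
  have h1 : (Finset.univ.filter (fun e' => v e' < v e)).card = (Finset.Iio (σ e)).card := by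
    refine Finset.card_bij (fun a _ => σ a) ?_ ?_ ?_
    · intro a ha
      rw [Finset.mem_filter] at ha
      rw [Finset.mem_Iio]
      exact (h a e).2 ha.2
    · intro a _ b _ hab
      exact σ.injective hab
    · intro b hb
      rw [Finset.mem_Iio] at hb
      refine ⟨σ.symm b, ?_, σ.apply_symm_apply b⟩
      rw [Finset.mem_filter]
      refine ⟨Finset.mem_univ _, (h _ _).1 ?_⟩
      rw [σ.apply_symm_apply]
      exact hb
  rw [Fin.card_Iio] at h1
  rw [← h1]
  unfold rk
  congr 1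

lemma match_unique {ι : Type} [Fintype ι] {v : ι → ℝ} {σ τ : ι ≃ Fin (Fintype.card ι)} (h : Match v σ)
    (h' : Match v τ) : σ = τ := by
  ext e
  rw [← rk_eq h, ← rk_eq h']

lemma ord_match {n p q r : ℕ} {v : E n p q r → ℝ} {σ : E n p q r ≃ Fin (Fintype.card (E n p q r))}
    (h : Match v σ) : Q109.CP.Ord v ↔ Q109.CP.Ord σ := by
  unfold Match at h
  unfold Q109.CP.Ord
  simp only [h]

lemma meas_ord (n p q r : ℕ) : MeasurableSet {v : E n p q r → ℝ | Q109.CP.Ord v} := by
  have hlt : ∀ a b : E n p q r, MeasurableSet {v : E n p q r → ℝ | v a < v b} := fun a b =>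
    measurableSet_lt (measurable_pi_apply _) (measurable_pi_apply _)
  have e : {v : E n p q r → ℝ | Q109.CP.Ord v} =
      (⋂ i : Fin n, {v | v (X i.castSucc) < v (X i.succ)}) ∩
      ((⋂ (i : Fin n) (j : Fin p), {v | v (lo i j) < v (X i.castSucc)}) ∩
      ((⋂ (i : Fin n) (j : Fin q), {v | v (X i.castSucc) < v (mi i j)} ∩ {v | v (mi i j) < v (X i.succ)}) ∩
      (⋂ (i : Fin n) (j : Fin r), {v | v (X i.succ) < v (up i j)}))) := by
    ext v
    simp only [mem_inter_iff, mem_iInter, mem_ofPred_eq]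
    rfl
  rw [e]
  refine (MeasurableSet.iInter fun i => hlt _ _).inter
    ((MeasurableSet.iInter fun i => MeasurableSet.iInter fun j => hlt _ _).inter
    ((MeasurableSet.iInter fun i => MeasurableSet.iInter fun j => (hlt _ _).inter (hlt _ _)).inter
    (MeasurableSet.iInter fun i => MeasurableSet.iInter fun j => hlt _ _)))

lemma open_ord (n p q r : ℕ) : IsOpen {v : E n p q r → ℝ | Q109.CP.Ord v} := by
  have hlt : ∀ a b : E n p q r, IsOpen {v : E n p q r → ℝ | v a < v b} := fun a b =>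
    isOpen_lt (continuous_apply _) (continuous_apply _)
  have e : {v : E n p q r → ℝ | Q109.CP.Ord v} =
      (⋂ i : Fin n, {v | v (X i.castSucc) < v (X i.succ)}) ∩
      ((⋂ (i : Fin n) (j : Fin p), {v | v (lo i j) < v (X i.castSucc)}) ∩
      ((⋂ (i : Fin n) (j : Fin q), {v | v (X i.castSucc) < v (mi i j)} ∩ {v | v (mi i j) < v (X i.succ)}) ∩
      (⋂ (i : Fin n) (j : Fin r), {v | v (X i.succ) < v (up i j)}))) := by
    ext v
    simp only [mem_inter_iff, mem_iInter, mem_ofPred_eq]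
    rfl
  rw [e]
  refine (isOpen_iInter_of_finite fun i => hlt _ _).inter
    ((isOpen_iInter_of_finite fun i => isOpen_iInter_of_finite fun j => hlt _ _).inter
    ((isOpen_iInter_of_finite fun i => isOpen_iInter_of_finite fun j => (hlt _ _).inter (hlt _ _)).inter
    (isOpen_iInter_of_finite fun i => isOpen_iInter_of_finite fun j => hlt _ _)))

lemma rk_sum {ι : Type} [Fintype ι] (v : ι → ℝ) (e : ι) :
    rk v e = ∑ e', Set.indicator {e' | v e' < v e} (fun _ => (1 : ℕ)) e' := by
  classical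
  unfold rk
  rw [Finset.card_filter]
  refine Finset.sum_congr rfl fun j _ => ?_
  by_cases h : v j < v e
  · rw [if_pos h, indicator_of_mem (show j ∈ {e' | v e' < v e} from h)]
  · rw [if_neg h, indicator_of_notMem (show j ∉ {e' | v e' < v e} from h)]

lemma meas_rk {ι : Type} [Fintype ι] (e : ι) : Measurable fun v : ι → ℝ => (rk v e : ℝ) := by
  have h : (fun v : ι → ℝ => (rk v e : ℝ)) =
      fun v => ∑ j, Set.indicator {v : ι → ℝ | v j < v e} (fun _ => (1 : ℝ)) v := by
    funext v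
    rw [rk_sum]
    push_cast
    refine Finset.sum_congr rfl fun j _ => ?_
    by_cases h : v j < v e
    · rw [indicator_of_mem (show j ∈ {e' | v e' < v e} from h), indicator_of_mem (show v ∈ _ from h)]
      norm_num
    · rw [indicator_of_notMem (show j ∉ {e' | v e' < v e} from h),
        indicator_of_notMem (show v ∉ {v : ι → ℝ | v j < v e} from h)]
      norm_num
  rw [h]
  exact Finset.measurable_sum _ fun j _ => measurable_const.indicator
    (measurableSet_lt (measurable_pi_apply _) (measurable_pi_apply _))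

lemma meas_dev (ι : Type) [Fintype ι] (δ : ℝ) : MeasurableSet (Dev ι δ) := by
  have e : Dev ι δ = ⋃ e : ι, {v | δ < |(rk v e : ℝ) / (Fintype.card ι : ℝ) - v e|} := by
    ext v
    simp only [mem_iUnion, mem_ofPred_eq]
    rfl
  rw [e]
  refine MeasurableSet.iUnion fun e => measurableSet_lt measurable_const ?_
  exact continuous_abs.measurable.comp (((meas_rk e).div_const _).sub (measurable_pi_apply e))

lemma rk_perm {ι : Type} [Fintype ι] (π : Equiv.Perm ι) (v : ι → ℝ) (e : ι) :
    rk (fun e => v (π e)) e = rk v (π e) := by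
  rw [rk_sum, rk_sum, ← Equiv.sum_comp π (fun e' => Set.indicator {e' | v e' < v (π e)} (fun _ => (1 : ℕ)) e')]
  rfl

lemma dev_symm {ι : Type} [Fintype ι] {δ : ℝ} (π : Equiv.Perm ι) (v : ι → ℝ) (hv : v ∈ Dev ι δ) :
    (fun e => v (π e)) ∈ Dev ι δ := by
  obtain ⟨e, he⟩ := hv
  refine ⟨π.symm e, ?_⟩
  rw [rk_perm]
  simp only [Equiv.apply_symm_apply]
  exact he

/-- exchangeability for a set of orderings -/
lemma exch_pred (hex : S_EXCH) {ι : Type} [Fintype ι] [DecidableEq ι] (Q : (ι ≃ Fin (Fintype.card ι)) → Prop)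
    (S : Set (ι → ℝ)) (hS : MeasurableSet S)
    (hsym : ∀ (π : Equiv.Perm ι) (v : ι → ℝ), v ∈ S → (fun e => v (π e)) ∈ S) :
    ((Fintype.card ι).factorial : ℝ≥0∞) * cube ι {v | v ∈ S ∧ ∃ σ, Q σ ∧ Match v σ} =
      (({σ | Q σ}.ncard : ℕ) : ℝ≥0∞) * cube ι S := by
  classical
  have h := (hex ι).2 (Finset.univ.filter Q) S hS hsym
  have e1 : {v : ι → ℝ | v ∈ S ∧ ∃ σ ∈ Finset.univ.filter Q, Match v σ} =
      {v | v ∈ S ∧ ∃ σ, Q σ ∧ Match v σ} := by
    ext v
    simp only [Finset.mem_filter, Finset.mem_univ, true_and]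
  have e2 : {σ | Q σ}.ncard = (Finset.univ.filter Q).card := by
    rw [← Set.ncard_coe_finset]
    congr 1
    ext σ
    simp
  rw [e1] at h
  rw [h, e2]

/-- the probability of the order event -/
lemma ord_ae (hex : S_EXCH) (n p q r : ℕ) (S : Set (E n p q r → ℝ)) :
    cube (E n p q r) {v | v ∈ S ∧ Q109.CP.Ord v} =
      cube (E n p q r) {v | v ∈ S ∧ ∃ σ : E n p q r ≃ Fin (Fintype.card (E n p q r)),
        Q109.CP.Ord σ ∧ Match v σ} := by
  refine measure_congr ?_
  filter_upwards [(hex (E n p q r)).1] with v hv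
  refine propext ⟨?_, ?_⟩
  · rintro ⟨h1, h2⟩
    obtain ⟨σ, hσ⟩ := hv.2.2
    exact ⟨h1, σ, (ord_match hσ).1 h2, hσ⟩
  · rintro ⟨h1, σ, h2, h3⟩
    exact ⟨h1, (ord_match h3).2 h2⟩

lemma fact_ne (n : ℕ) : (n.factorial : ℝ≥0∞) ≠ 0 := by exact_mod_cast n.factorial_ne_zero

lemma ord_card (hex : S_EXCH) (n p q r : ℕ) :
    ((Fintype.card (E n p q r)).factorial : ℝ≥0∞) * cube (E n p q r) {v | Q109.CP.Ord v} =
      (({σ : E n p q r ≃ Fin (Fintype.card (E n p q r)) | Q109.CP.Ord σ}.ncard : ℕ) : ℝ≥0∞) := by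
  have h := exch_pred hex (fun σ : E n p q r ≃ Fin (Fintype.card (E n p q r)) => Q109.CP.Ord σ) univ
    MeasurableSet.univ (fun _ _ _ => mem_univ _)
  have h2 := ord_ae hex n p q r univ
  have e : {v : E n p q r → ℝ | v ∈ (univ : Set (E n p q r → ℝ)) ∧ Q109.CP.Ord v} = {v | Q109.CP.Ord v} := by
    ext v; simp
  rw [e] at h2
  rw [h2, h, measure_univ, mul_one]

lemma ordS (hex : S_EXCH) (n p q r : ℕ) (S : Set (E n p q r → ℝ)) (hS : MeasurableSet S)
    (hsym : ∀ (π : Equiv.Perm (E n p q r)) (v : E n p q r → ℝ), v ∈ S → (fun e => v (π e)) ∈ S) :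
    cube (E n p q r) {v | v ∈ S ∧ Q109.CP.Ord v} =
      cube (E n p q r) {v | Q109.CP.Ord v} * cube (E n p q r) S := by
  have h1 := exch_pred hex (fun σ : E n p q r ≃ Fin (Fintype.card (E n p q r)) => Q109.CP.Ord σ) S hS hsym
  rw [← ord_ae hex n p q r S, ← ord_card hex n p q r, mul_assoc] at h1
  exact (ENNReal.mul_right_inj (fact_ne _) (ENNReal.natCast_ne_top _)).1 h1

end Q257.CP.COM
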